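import Pool.Agent.SFR.Defs

/-!
# The converse: with the constant `-1` one query about a 2-CNF is enough
-/

set_option autoImplicit false

namespace Pool.Agent.SFP

open Finset Pool.Agent.STH Pool.Agent.STD Pool.Agent.STS Pool.Agent.SFR

/-- a 2-CNF: the new variable `u j` implies that the clause `j` of `φ` is false -/
def two {n k M : ℕ} (φ : Fm n k M) : Fm (n + M) 2 (M * k) := fun c i =>
  if i = 0 then (Fin.natAdd n (finProdFinEquiv.symm c).1, false)
  else (Fin.castAdd M (φ (finProdFinEquiv.symm c).1 (finProdFinEquiv.symm c).2).1,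
    !(φ (finProdFinEquiv.symm c).1 (finProdFinEquiv.symm c).2).2)

theorem mod_two {n k M : ℕ} (φ : Fm n k M) (x : Fin n → Bool) (u : Fin M → Bool) :
    Mod (two φ) (Fin.append x u) ↔
      ∀ j, u j = true → ∀ i, x (φ j i).1 ≠ (φ j i).2 := by
  constructor
  · intro h j hj i
    obtain ⟨l, hl⟩ := h (finProdFinEquiv (j, i))
    unfold two at hl
    rw [Equiv.symm_apply_apply] at hl
    by_cases h0 : l = 0
    · rw [if_pos h0] at hl
      simp only [Fin.append_right] at hl
      rw [hj] at hl
      exact absurd hl (by simp)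
    · rw [if_neg h0] at hl
      simp only [Fin.append_left] at hl
      rw [hl]
      simp
  · intro h c
    obtain ⟨⟨j, i⟩, rfl⟩ := finProdFinEquiv.surjective c
    by_cases hj : u j = true
    · refine ⟨1, ?_⟩
      unfold two
      rw [Equiv.symm_apply_apply, if_neg (by decide)]
      simp only [Fin.append_left]
      have := h j hj i
      revert this
      cases x (φ j i).1 <;> cases (φ j i).2 <;> simp
    · refine ⟨0, ?_⟩
      unfold two
      rw [Equiv.symm_apply_apply, if_pos rfl]
      simp only [Fin.append_right]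
      simpa using hj

/-- [Cnv] inclusion and exclusion over the clauses -/
theorem thm_Cnv {n k M : ℕ} (φ : Fm n k M) (w : Fin n → Bool → ℝ) :
    wcount (Mod φ) w =
      wcount (Mod (two φ)) (Fin.append w fun _ b => if b then -1 else 1) := by
  classical
  unfold wcount
  rw [← (Fin.appendEquiv n M).sum_comp, Fintype.sum_prod_type]
  refine sum_congr rfl fun x _ => ?_
  have key : ∀ u : Fin M → Bool,
      (if STH.Mod (two φ) (Fin.append x u) then
        ∏ p, (Fin.append w fun _ b => if b then (-1 : ℝ) else 1) p (Fin.append x u p) else 0) =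
      (∏ i, w i (x i)) * ∏ j, (if u j = true then
        (if ∀ i, x (φ j i).1 ≠ (φ j i).2 then (-1 : ℝ) else 0) else 1) := by
    intro u
    rw [Fin.prod_univ_add]
    simp only [Fin.append_left, Fin.append_right]
    split_ifs with h
    · rw [mod_two] at h
      congr 1
      refine prod_congr rfl fun j _ => ?_
      by_cases hj : u j = true
      · rw [if_pos hj, if_pos hj, if_pos (h j hj)]
      · rw [if_neg hj, if_neg hj]
    · rw [mod_two] at h
      push Not at h
      obtain ⟨j, hj, i, hi⟩ := h
      rw [prod_eq_zero (mem_univ j), mul_zero]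
      rw [if_pos hj, if_neg]
      intro h'
      exact h' i hi
  have e1 : ∀ u : Fin M → Bool, (Fin.appendEquiv n M) (x, u) = Fin.append x u := fun _ => rfl
  simp only [e1, key]
  rw [← mul_sum]
  have e2 : ∑ u : Fin M → Bool, ∏ j, (if u j = true then
        (if ∀ i, x (φ j i).1 ≠ (φ j i).2 then (-1 : ℝ) else 0) else 1) =
      ∏ j, ∑ b : Bool, (if b = true then
        (if ∀ i, x (φ j i).1 ≠ (φ j i).2 then (-1 : ℝ) else 0) else 1) := by
    rw [prod_univ_sum]
    refine sum_congr ?_ fun _ _ => rfl
    ext u
    simp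
  rw [e2]
  have hb : ∀ j, ∑ b : Bool, (if b = true then
      (if ∀ i, x (φ j i).1 ≠ (φ j i).2 then (-1 : ℝ) else 0) else 1) =
      (if ∀ i, x (φ j i).1 ≠ (φ j i).2 then (-1 : ℝ) else 0) + 1 := by
    intro j
    rw [Fintype.sum_bool]
    rfl
  rw [prod_congr rfl fun j _ => hb j]
  by_cases hx : STH.Mod φ x
  · have h1 : ∏ j, ((if ∀ i, x (φ j i).1 ≠ (φ j i).2 then (-1 : ℝ) else 0) + 1) = 1 := by
      refine prod_eq_one fun j _ => ?_
      obtain ⟨i, hi⟩ := hx j
      rw [if_neg, zero_add]
      intro h
      exact h i hi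
    rw [if_pos hx, h1, mul_one]
  · have h0 : ∃ j, ∀ i, x (φ j i).1 ≠ (φ j i).2 := by
      by_contra h
      push Not at h
      exact hx h
    obtain ⟨j, hj⟩ := h0
    rw [if_neg hx, prod_eq_zero (mem_univ j), mul_zero]
    rw [if_pos hj]
    norm_num

end Pool.Agent.SFP
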