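import Pool.Agent.SFP.DefC

/-! [Cov] small rectangle covers: from factorizations, restriction to subcubes, monotonicity. -/

set_option autoImplicit false

namespace Pool.Agent.SFP

open Finset Pool.Agent.STH Pool.Agent.STD Pool.Agent.STS Pool.Agent.SFR

private theorem Cov_yan (N q : ℕ) (ψ : (Fin N → Bool) → Prop) (h : Yan q ψ) : Cov q ψ := by
  classical
  obtain ⟨β, hβ, hY⟩ := h
  refine ⟨fun y l => 0 < β y l, fun g => ?_⟩
  by_cases hne : ∃ y, ψ y
  · obtain ⟨y₀, hy₀, hmax⟩ := Set.exists_max_image {y : Fin N → Bool | ψ y}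
      (fun y => ∑ j, g j (y j)) (Set.toFinite _) hne
    obtain ⟨α, hα, hE⟩ := hY g (∑ j, g j (y₀ j)) hmax
    refine ⟨fun l => 0 < α l, fun y hy => ?_⟩
    have hyE := hE y hy
    constructor
    · rintro ⟨l, h1, h2⟩
      refine ⟨y₀, hy₀, ?_⟩
      have h3 : α l * β y l ≤ ∑ l, α l * β y l :=
        Finset.single_le_sum (f := fun l => α l * β y l)
          (fun l _ => mul_nonneg (hα l) (hβ y l)) (Finset.mem_univ l)
      have h4 := mul_pos h1 h2
      linarith
    · rintro ⟨y', hy', hlt⟩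
      have h1 : ∑ j, g j (y' j) ≤ ∑ j, g j (y₀ j) := hmax y' hy'
      have h2 : 0 < ∑ l, α l * β y l := by linarith
      obtain ⟨l, _, hl⟩ := Finset.exists_lt_of_sum_lt (f := fun _ => (0 : ℝ))
        (g := fun l => α l * β y l) (s := Finset.univ) (by simpa using h2)
      refine ⟨l, ?_, ?_⟩
      · rcases (hα l).lt_or_eq with h3 | h3
        · exact h3
        · rw [← h3, zero_mul] at hl
          exact absurd hl (lt_irrefl _)
      · rcases (hβ y l).lt_or_eq with h3 | h3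
        · exact h3
        · rw [← h3, mul_zero] at hl
          exact absurd hl (lt_irrefl _)
  · exact ⟨fun _ => False, fun y hy => absurd ⟨y, hy⟩ hne⟩

private theorem Cov_sub (N q : ℕ) (ψ : (Fin N → Bool) → Prop) (T : Fin N → Bool → Prop)
    (h : Cov q ψ) : Cov q fun y => ψ y ∧ ∀ j, T j (y j) := by
  classical
  obtain ⟨β, hβ⟩ := h
  refine ⟨β, fun g => ?_⟩
  obtain ⟨K, hK⟩ : ∃ K : ℝ, K = ∑ j, (|g j true| + |g j false|) := ⟨_, rfl⟩
  have hb : ∀ j b, |g j b| ≤ |g j true| + |g j false| := by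
    intro j b
    cases b with
    | true =>
      have := abs_nonneg (g j false)
      linarith
    | false =>
      have := abs_nonneg (g j true)
      linarith
  have hup : ∀ y : Fin N → Bool, ∑ j, g j (y j) ≤ K := by
    intro y
    rw [hK]
    exact Finset.sum_le_sum fun j _ => (le_abs_self _).trans (hb j (y j))
  have hlow : ∀ y : Fin N → Bool, -K ≤ ∑ j, g j (y j) := by
    intro y
    rw [hK, ← Finset.sum_neg_distrib]
    exact Finset.sum_le_sum fun j _ =>
      (neg_le_neg (hb j (y j))).trans (neg_abs_le (g j (y j)))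
  obtain ⟨g', hg'⟩ : ∃ g' : Fin N → Bool → ℝ, g' = fun j b =>
    g j b - if T j b then 0 else 2 * K + 1 := ⟨_, rfl⟩
  have hK0 : 0 ≤ K := by
    rw [hK]
    exact Finset.sum_nonneg fun j _ => add_nonneg (abs_nonneg _) (abs_nonneg _)
  have hsum : ∀ y : Fin N → Bool, ∑ j, g' j (y j) =
      ∑ j, g j (y j) - ∑ j, if T j (y j) then 0 else 2 * K + 1 := by
    intro y
    rw [hg', ← Finset.sum_sub_distrib]
  have hin : ∀ y : Fin N → Bool, (∀ j, T j (y j)) → ∑ j, g' j (y j) = ∑ j, g j (y j) := by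
    intro y hy
    rw [hsum, Finset.sum_eq_zero fun j _ => if_pos (hy j), sub_zero]
  have hout : ∀ y : Fin N → Bool, (¬ ∀ j, T j (y j)) → ∑ j, g' j (y j) < -K := by
    intro y hy
    push Not at hy
    obtain ⟨j, hj⟩ := hy
    have h1 : (2 * K + 1) ≤ ∑ j, if T j (y j) then 0 else 2 * K + 1 := by
      refine le_trans (le_of_eq (if_neg hj).symm)
        (Finset.single_le_sum (f := fun j => if T j (y j) then (0 : ℝ) else 2 * K + 1)
          (fun j _ => ?_) (Finset.mem_univ j))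
      show 0 ≤ if T j (y j) then (0 : ℝ) else 2 * K + 1
      split_ifs
      · exact le_rfl
      · linarith
    have h2 := hup y
    rw [hsum]
    linarith
  obtain ⟨S, hS⟩ := hβ g'
  refine ⟨S, fun y hy => ?_⟩
  rw [hS y hy.1]
  constructor
  · rintro ⟨y', hy', hlt⟩
    rw [hin y hy.2] at hlt
    by_cases hT : ∀ j, T j (y' j)
    · rw [hin y' hT] at hlt
      exact ⟨y', ⟨hy', hT⟩, hlt⟩
    · have h1 := hout y' hT
      have h2 := hlow y
      exact absurd hlt (not_lt.2 (h1.le.trans h2))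
  · rintro ⟨y', hy', hlt⟩
    refine ⟨y', hy'.1, ?_⟩
    rw [hin y hy.2, hin y' hy'.2]
    exact hlt

private theorem Cov_mono (N q q' : ℕ) (ψ : (Fin N → Bool) → Prop) (hq : q ≤ q') (h : Cov q ψ) :
    Cov q' ψ := by
  obtain ⟨β, hβ⟩ := h
  refine ⟨fun y l => ∃ h : l.1 < q, β y ⟨l.1, h⟩, fun g => ?_⟩
  obtain ⟨S, hS⟩ := hβ g
  refine ⟨fun l => ∃ h : l.1 < q, S ⟨l.1, h⟩, fun y hy => ?_⟩
  rw [← hS y hy]
  constructor
  · rintro ⟨l, ⟨h1, h2⟩, ⟨_, h3⟩⟩
    exact ⟨⟨l.1, h1⟩, h2, h3⟩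
  · rintro ⟨l, h1, h2⟩
    exact ⟨⟨l.1, l.2.trans_le hq⟩, ⟨l.2, h1⟩, ⟨l.2, h2⟩⟩

theorem thm_Cov : St_Cov := ⟨Cov_yan, Cov_sub, Cov_mono⟩

end Pool.Agent.SFP
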