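import Pool.Agent.SFP.Defs
import Pool.Agent.STD.Box

/-!
# Monotone reductions with permanent gates: decomposition of the slack matrix
-/

set_option autoImplicit false

namespace Pool.Agent.SFP

open Finset Pool.Agent.STH Pool.Agent.STD Pool.Agent.STS Pool.Agent.SFR

namespace Dec

variable {K : Cls} {n s : ℕ}

lemma off_refl {N : ℕ} (R : Finset (Fin N)) (x : Pt N) : Off R x x := fun _ _ => rfl

lemma off_trans {N : ℕ} {R : Finset (Fin N)} {x y z : Pt N} (h : Off R x y) (h' : Off R y z) :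
    Off R x z := fun i hi => (h' i hi).trans (h i hi)

lemma off_mono {N : ℕ} {R R' : Finset (Fin N)} (hR : R ⊆ R') {x y : Pt N} (h : Off R x y) :
    Off R' x y := fun i hi => h i fun h' => hi (hR h')

/-- the value of a node depends on its variables only -/
lemma dep (D : GK K n s) (v : Fin s) : ∀ x x', (∀ i ∈ D.vars v, x i = x' i) →
    (D.val v x ↔ D.val v x') := by
  induction v using WellFoundedLT.induction with
  | ind v ih =>
    rcases D.ok v with ⟨i, b, hv, h⟩ | ⟨N, ψ, c, _, hc, hs, h⟩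
    · intro x x' hx
      rw [h, h, hx i (by rw [hv]; exact mem_singleton_self i)]
    · intro x x' hx
      rw [h, h]
      refine exists_congr fun y => and_congr_right fun hy => forall_congr' fun j => ?_
      exact ih _ (hc j (y j)) x x' fun i hi => hx i (((hs y hy).2 i).2 ⟨j, hi⟩)

/-- every accepted point of `v` which agrees with `x` off `v` is accepted by `r`. -/
def Inv (D : GK K n s) (r v : Fin s) (x : Pt n) : Prop :=
  D.val v x ∧ ∀ y, Off (D.vars v) x y → D.val v y → D.val r y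

open Classical in
/-- the points which use the node `v` -/
noncomputable def Tv (D : GK K n s) (r v : Fin s) : Finset (Pt n) := univ.filter (Inv D r v)

lemma mem_Tv {D : GK K n s} {r v : Fin s} {x : Pt n} : x ∈ Tv D r v ↔ Inv D r v x := by
  classical
  simp [Tv]

lemma mem_Tv_root {D : GK K n s} {r : Fin s} {x : Pt n} : x ∈ Tv D r r ↔ D.val r x := by
  rw [mem_Tv]
  exact ⟨fun h => h.1, fun h => ⟨h, fun y _ h => h⟩⟩

lemma box_Tv {D : GK K n s} {r v : Fin s} {x y : Pt n} (hx : x ∈ Tv D r v) (hy : y ∈ Tv D r v) :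
    mix (D.vars v) x y ∈ Tv D r v := by
  rw [mem_Tv] at hx hy ⊢
  refine ⟨(dep D v _ _ ?_).1 hx.1, ?_⟩
  · intro i hi
    simp [mix, hi]
  · intro y' h1 h3
    refine hy.2 y' ?_ h3
    intro i hi
    rw [h1 i hi]
    simp [mix, hi]

lemma Tv_F {D : GK K n s} {r v : Fin s} {F : Pt n → Prop} (h : ∀ x, D.val r x → F x)
    {x : Pt n} (hx : x ∈ Tv D r v) : F x := by
  rw [mem_Tv] at hx
  exact h x (hx.2 x (off_refl _ _) hx.1)

/-- the node is used by two points which differ on its variables -/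
def Good (D : GK K n s) (r v : Fin s) : Prop :=
  ∃ x ∈ Tv D r v, ∃ x' ∈ Tv D r v, ∃ i ∈ D.vars v, x i ≠ x' i

lemma not_good {D : GK K n s} {r v : Fin s} (h : ¬ Good D r v) {x x' : Pt n}
    (hx : x ∈ Tv D r v) (hx' : x' ∈ Tv D r v) : ∀ i ∈ D.vars v, x i = x' i := by
  intro i hi
  by_contra hne
  exact h ⟨x, hx, x', hx', i, hi, hne⟩

section Gate

variable {D : GK K n s} {r u : Fin s} {N : ℕ} {ψ : (Fin N → Bool) → Prop}
  {c : Fin N → Bool → Fin s}

/-- scopes of the inputs of a gate -/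
def Scp (D : GK K n s) (u : Fin s) {N : ℕ} (ψ : (Fin N → Bool) → Prop)
    (c : Fin N → Bool → Fin s) : Prop :=
  ∀ y, ψ y → (∀ j j', j ≠ j' →
      Disjoint (D.vars (c j (y j))) (D.vars (c j' (y j')))) ∧
      ∀ i, i ∈ D.vars u ↔ ∃ j, i ∈ D.vars (c j (y j))

/-- the inputs chosen by a gate are used -/
lemma Inv_gate (hs : Scp D u ψ c)
    (hv : ∀ x, D.val u x ↔ ∃ y, ψ y ∧ ∀ j, D.val (c j (y j)) x)
    {x : Pt n} (hx : Inv D r u x) {y : Fin N → Bool} (hy : ψ y)
    (hxy : ∀ j, D.val (c j (y j)) x) (j : Fin N) {x' : Pt n}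
    (h1 : Off (D.vars (c j (y j))) x x') (h2 : D.val (c j (y j)) x') : Inv D r u x' := by
  have hoff : Off (D.vars u) x x' := by
    refine off_mono ?_ h1
    intro i hi
    exact ((hs y hy).2 i).2 ⟨j, hi⟩
  refine ⟨(hv x').2 ⟨y, hy, fun j' => ?_⟩, fun x'' h3 h4 => hx.2 x'' (off_trans hoff h3) h4⟩
  rcases eq_or_ne j' j with rfl | hj
  · exact h2
  · refine (dep D _ _ _ ?_).1 (hxy j')
    intro i hi
    exact (h1 i fun h' => disjoint_left.1 ((hs y hy).1 j' j hj) hi h').symm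

lemma Inv_gate' (hs : Scp D u ψ c)
    (hv : ∀ x, D.val u x ↔ ∃ y, ψ y ∧ ∀ j, D.val (c j (y j)) x)
    {x : Pt n} (hx : Inv D r u x) {y : Fin N → Bool} (hy : ψ y)
    (hxy : ∀ j, D.val (c j (y j)) x) (j : Fin N) : Inv D r (c j (y j)) x := by
  refine ⟨hxy j, fun x' h1 h2 => ?_⟩
  have := Inv_gate hs hv hx hy hxy j h1 h2
  exact this.2 x' (off_refl _ _) this.1

open Classical in
/-- the point with the blocks `p j (y j)` -/
noncomputable def glue (D : GK K n s) (u : Fin s) (c : Fin N → Bool → Fin s) (x₀ : Pt n)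
    (p : Fin N → Bool → Pt n) (y : Fin N → Bool) : Pt n := fun i =>
  if i ∈ D.vars u then
    (if h : ∃ j, i ∈ D.vars (c j (y j)) then p h.choose (y h.choose) i else false)
  else x₀ i

lemma glue_off {x₀ : Pt n} (p : Fin N → Bool → Pt n) (y : Fin N → Bool) {i : Fin n}
    (hi : i ∉ D.vars u) : glue D u c x₀ p y i = x₀ i := by
  simp [glue, hi]

lemma glue_on (hs : Scp D u ψ c)
    {x₀ : Pt n} (p : Fin N → Bool → Pt n) {y : Fin N → Bool} (hy : ψ y) {i : Fin n} {j : Fin N}
    (hi : i ∈ D.vars (c j (y j))) : glue D u c x₀ p y i = p j (y j) i := by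
  have hu : i ∈ D.vars u := ((hs y hy).2 i).2 ⟨j, hi⟩
  have hex : ∃ j, i ∈ D.vars (c j (y j)) := ⟨j, hi⟩
  have hj : hex.choose = j := by
    by_contra hne
    exact disjoint_left.1 ((hs y hy).1 _ _ hne) hex.choose_spec hi
  unfold glue
  rw [if_pos hu, dif_pos hex, hj]

lemma glue_mem (hs : Scp D u ψ c)
    (hv : ∀ x, D.val u x ↔ ∃ y, ψ y ∧ ∀ j, D.val (c j (y j)) x)
    {x₀ : Pt n} (hx₀ : x₀ ∈ Tv D r u) (p : Fin N → Bool → Pt n) {y : Fin N → Bool} (hy : ψ y)
    (hp : ∀ j, p j (y j) ∈ Tv D r (c j (y j))) : glue D u c x₀ p y ∈ Tv D r u := by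
  rw [mem_Tv] at hx₀ ⊢
  refine ⟨(hv _).2 ⟨y, hy, fun j => ?_⟩, fun x' h1 h2 => hx₀.2 x' ?_ h2⟩
  · have := mem_Tv.1 (hp j)
    refine (dep D _ _ _ ?_).1 this.1
    intro i hi
    exact (glue_on hs p hy hi).symm
  · intro i hi
    rw [h1 i hi, glue_off p y hi]

lemma sum_glue (hs : Scp D u ψ c) {y : Fin N → Bool} (hy : ψ y) (f : Fin n → ℝ) :
    ∑ k, f k = ∑ j, ∑ k ∈ D.vars (c j (y j)), f k + ∑ k ∈ (D.vars u)ᶜ, f k := by
  classical
  rw [← sum_add_sum_compl (D.vars u) f]
  congr 1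
  have : D.vars u = univ.biUnion fun j => D.vars (c j (y j)) := by
    ext i
    rw [(hs y hy).2 i]
    simp
  rw [this, sum_biUnion]
  intro j _ j' _ hne
  exact (hs y hy).1 j j' hne

end Gate

/-- the points of `v` which do not go on to a good node -/
def Fin1 (D : GK K n s) (r v : Fin s) (x : Pt n) : Prop :=
  x ∈ Tv D r v ∧ ¬ ∃ e, e < v ∧ Good D r e ∧ x ∈ Tv D r e ∧ Tv D r e ⊆ Tv D r v

/-- unique contexts -/
def Uq (D : GK K n s) (r : Fin s) : Prop :=
  ∀ v, Good D r v → ∀ x ∈ Tv D r v, ∀ x' ∈ Tv D r v, Off (D.vars v) x x'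

lemma uq (hP : St_Prm) {m : ℕ} {e : Fin m × Fin m ≃ Fin n} {D : GK K n s} {r : Fin s}
    (hr : ∀ x, D.val r x → Cor e x) : Uq D r := by
  rintro v ⟨z, hz, z', hz', i, hi, hne⟩ x hx x' hx'
  rcases hP m n e (D.vars v) z z' x x' (Tv_F hr (box_Tv hz hx)) (Tv_F hr (box_Tv hz' hx))
    (Tv_F hr (box_Tv hz hx')) (Tv_F hr (box_Tv hz' hx')) with h | h
  · exact absurd (h i hi) hne
  · exact fun k hk => (h k hk).symm

section Gate2

variable {D : GK K n s} {r u : Fin s} {N : ℕ} {ψ : (Fin N → Bool) → Prop}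
  {c : Fin N → Bool → Fin s}

/-- a final point has a pattern all of whose inputs are used and not good -/
lemma fin1_pattern (hU : Uq D r) (hs : Scp D u ψ c) (hc : ∀ j b, c j b < u)
    (hv : ∀ x, D.val u x ↔ ∃ y, ψ y ∧ ∀ j, D.val (c j (y j)) x) {x : Pt n}
    (hx : Fin1 D r u x) : ∃ y, ψ y ∧ (∀ j, x ∈ Tv D r (c j (y j))) ∧
      ∀ j, ¬ Good D r (c j (y j)) := by
  obtain ⟨hx1, hx2⟩ := hx
  rw [mem_Tv] at hx1
  obtain ⟨y, hy, hxy⟩ := (hv x).1 hx1.1
  have hin : ∀ j, x ∈ Tv D r (c j (y j)) := fun j => mem_Tv.2 (Inv_gate' hs hv hx1 hy hxy j)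
  refine ⟨y, hy, hin, fun j hg => hx2 ⟨c j (y j), hc _ _, hg, hin j, ?_⟩⟩
  intro z hz
  have h1 : Off (D.vars (c j (y j))) x z := hU _ hg x (hin j) z hz
  exact mem_Tv.2 (Inv_gate hs hv hx1 hy hxy j h1 (mem_Tv.1 hz).1)

end Gate2

/-- the value of the linear function with the coefficients `f` -/
noncomputable def Lf (f : Fin n → ℝ) (x : Pt n) : ℝ := ∑ k, f k * bit (x k)

open Classical in
/-- its maximum on the points which use `v` -/
noncomputable def Hf (D : GK K n s) (r : Fin s) (f : Fin n → ℝ) (v : Fin s) : ℝ :=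
  if h : (Tv D r v).Nonempty then (Tv D r v).sup' h (Lf f) else 0

lemma le_Hf {D : GK K n s} {r v : Fin s} (f : Fin n → ℝ) {x : Pt n} (hx : x ∈ Tv D r v) :
    Lf f x ≤ Hf D r f v := by
  unfold Hf
  rw [dif_pos ⟨x, hx⟩]
  exact le_sup' (Lf f) hx

lemma Hf_le {D : GK K n s} {r v : Fin s} (f : Fin n → ℝ) {M : ℝ} (hne : (Tv D r v).Nonempty)
    (h : ∀ x ∈ Tv D r v, Lf f x ≤ M) : Hf D r f v ≤ M := by
  unfold Hf
  rw [dif_pos hne]
  exact sup'_le hne _ h

/-- the end of a path: a Schaefer gate -/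
lemma card_sch (hT : St_Thn) (hO : St_Opt) {m : ℕ} {e : Fin m × Fin m ≃ Fin n} {D : GK K n s}
    {r v : Fin s} (hr : ∀ x, D.val r x → Cor e x) (hU : Uq D r) (hg : Good D r v)
    {N uu : ℕ} {ψ : (Fin N → Bool) → Prop} {c : Fin N → Bool → Fin s} (hs : Scp D v ψ c)
    (hc : ∀ j b, c j b < v)
    (hv : ∀ x, D.val v x ↔ ∃ y, ψ y ∧ ∀ j, D.val (c j (y j)) x)
    (hψ : SchUnion uu fun y => ψ y ∧ ∀ j, (Tv D r (c j (y j))).Nonempty)
    (E : Finset (Pt n)) (hE : ∀ x ∈ E, Fin1 D r v x) : E.card ≤ (m + 1) * 2 ^ uu := by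
  classical
  obtain ⟨x₀, hx₀, _⟩ := id hg
  obtain ⟨A, hA, hAψ⟩ := hψ
  set p : Fin N → Bool → Pt n := fun j b =>
    if h : (Tv D r (c j b)).Nonempty then h.choose else x₀ with hp
  have hpT : ∀ j b, (Tv D r (c j b)).Nonempty → p j b ∈ Tv D r (c j b) := by
    intro j b h
    rw [hp]
    simp only [dif_pos h]
    exact h.choose_spec
  set X : Fin (2 ^ uu) → Finset (Pt n) := fun l =>
    (univ.filter (A l)).image (glue D v c x₀ p) with hX
  have hXc : ∀ l, (X l).card ≤ m + 1 := by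
    intro l
    obtain ⟨t, ht, hcl⟩ := hA l
    have hAl : ∀ y, A l y → ψ y ∧ ∀ j, (Tv D r (c j (y j))).Nonempty :=
      fun y hy => (hAψ y).2 ⟨l, hy⟩
    obtain ⟨t', ht', hcl'⟩ := hO N n (A l) t ht hcl (D.vars v) (fun j b => D.vars (c j b))
      (by
        intro y hy i hi
        obtain ⟨hy1, hy2⟩ := hAl y hy
        obtain ⟨j, hj⟩ := ((hs y hy1).2 i).1 hi
        refine ⟨j, hj, fun j' hj' => ?_⟩
        by_contra hne
        exact disjoint_left.1 ((hs y hy1).1 j' j hne) hj' hj)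
      p x₀ (glue D v c x₀ p)
      (by
        intro y hy
        obtain ⟨hy1, hy2⟩ := hAl y hy
        exact ⟨fun i hi => glue_off p y hi, fun i _ j hj => glue_on hs p hy1 hj⟩)
    refine hT m n e t' ht' (X l) ?_ ?_
    · intro x hx
      obtain ⟨y, hy, rfl⟩ := mem_image.1 hx
      obtain ⟨hy1, hy2⟩ := hAl y (mem_filter.1 hy).2
      exact Tv_F hr (glue_mem hs hv hx₀ p hy1 fun j => hpT _ _ (hy2 j))
    · intro x hx x' hx' x'' hx''
      obtain ⟨y, hy, rfl⟩ := mem_image.1 hx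
      obtain ⟨y', hy', rfl⟩ := mem_image.1 hx'
      obtain ⟨y'', hy'', rfl⟩ := mem_image.1 hx''
      rw [← hcl' y y' y'' (mem_filter.1 hy).2 (mem_filter.1 hy').2 (mem_filter.1 hy'').2]
      exact mem_image_of_mem _ (mem_filter.2 ⟨mem_univ _,
        hcl y y' y'' (mem_filter.1 hy).2 (mem_filter.1 hy').2 (mem_filter.1 hy'').2⟩)
  have hsub : E ⊆ univ.biUnion X := by
    intro x hx
    obtain ⟨y, hy, hin, hng⟩ := fin1_pattern hU hs hc hv (hE x hx)
    obtain ⟨l, hl⟩ := (hAψ y).1 ⟨hy, fun j => ⟨x, hin j⟩⟩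
    refine mem_biUnion.2 ⟨l, mem_univ _, mem_image.2 ⟨y, mem_filter.2 ⟨mem_univ _, hl⟩, ?_⟩⟩
    funext i
    by_cases hi : i ∈ D.vars v
    · obtain ⟨j, hj⟩ := ((hs y hy).2 i).1 hi
      rw [glue_on hs p hy hj]
      exact not_good (hng j) (hpT _ _ ⟨x, hin j⟩) (hin j) i hj
    · rw [glue_off p y hi]
      exact (hU v hg x₀ hx₀ x (hE x hx).1 i hi).symm
  calc E.card ≤ (univ.biUnion X).card := card_le_card hsub
    _ ≤ ∑ l, (X l).card := card_biUnion_le
    _ ≤ ∑ _l : Fin (2 ^ uu), (m + 1) := sum_le_sum fun l _ => hXc l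
    _ = (m + 1) * 2 ^ uu := by
        rw [sum_const, card_univ, Fintype.card_fin, smul_eq_mul, mul_comm]

/-- what is needed at the end of a path -/
def EndL (D : GK K n s) (r v : Fin s) (Q : ℕ) {ι : Type} (f : ι → Fin n → ℝ) : Prop :=
  ∃ (α : Fin Q → ι → ℝ) (β : Pt n → Fin Q → ℝ), (∀ l a, 0 ≤ α l a) ∧ (∀ x l, 0 ≤ β x l) ∧
    ∀ a x, Fin1 D r v x → Hf D r (f a) v - Lf (f a) x = ∑ l, α l a * β x l

lemma endL_sch {D : GK K n s} {r v : Fin s} {Q : ℕ} {ι : Type} (f : ι → Fin n → ℝ)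
    (h : ∀ E : Finset (Pt n), (∀ x ∈ E, Fin1 D r v x) → E.card ≤ Q) : EndL D r v Q f := by
  classical
  set E : Finset (Pt n) := univ.filter (Fin1 D r v) with hE
  have hEQ : E.card ≤ Q := h E fun x hx => (mem_filter.1 hx).2
  obtain ⟨g⟩ : Nonempty (E ↪ Fin Q) := by
    apply Function.Embedding.nonempty_of_card_le
    simpa using hEQ
  refine ⟨fun l a => if h : ∃ x : E, g x = l then Hf D r (f a) v - Lf (f a) h.choose.1 else 0,
    fun x l => if h : x ∈ E then (if g ⟨x, h⟩ = l then 1 else 0) else 0, ?_, ?_, ?_⟩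
  · intro l a
    dsimp only
    split_ifs with h
    · have := (mem_filter.1 h.choose.2).2
      linarith [le_Hf (f a) this.1]
    · exact le_refl _
  · intro x l
    dsimp only
    split_ifs <;> norm_num
  · intro a x hx
    have hxE : x ∈ E := mem_filter.2 ⟨mem_univ _, hx⟩
    rw [sum_eq_single (g ⟨x, hxE⟩)]
    · have hex : ∃ x' : E, g x' = g ⟨x, hxE⟩ := ⟨⟨x, hxE⟩, rfl⟩
      have hch : hex.choose = ⟨x, hxE⟩ := g.injective hex.choose_spec
      dsimp only
      rw [dif_pos hex, dif_pos hxE, if_pos rfl, hch, mul_one]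
    · intro l _ hl
      dsimp only
      rw [dif_pos hxE, if_neg (fun h => hl h.symm), mul_zero]
    · intro h
      exact absurd (mem_univ _) h

open Classical in
/-- maximum on the restriction -/
noncomputable def gf (D : GK K n s) (r : Fin s) (f : Fin n → ℝ) (e : Fin s) : ℝ :=
  if h : (Tv D r e).Nonempty then
    (Tv D r e).sup' h (fun x => ∑ k ∈ D.vars e, f k * bit (x k)) else 0

lemma gf_spec {D : GK K n s} {r : Fin s} (f : Fin n → ℝ) {e : Fin s}
    (h : (Tv D r e).Nonempty) : ∃ x ∈ Tv D r e, gf D r f e = ∑ k ∈ D.vars e, f k * bit (x k) := by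
  unfold gf
  rw [dif_pos h]
  exact exists_mem_eq_sup' h _

lemma endL_yan {D : GK K n s} {r v : Fin s} {Q : ℕ} {ι : Type} (f : ι → Fin n → ℝ)
    (hU : Uq D r) (hg : Good D r v)
    {N : ℕ} {ψ : (Fin N → Bool) → Prop} {c : Fin N → Bool → Fin s} (hs : Scp D v ψ c)
    (hc : ∀ j b, c j b < v)
    (hv : ∀ x, D.val v x ↔ ∃ y, ψ y ∧ ∀ j, D.val (c j (y j)) x)
    (hψ : Yan Q fun y => ψ y ∧ ∀ j, (Tv D r (c j (y j))).Nonempty) : EndL D r v Q f := by
  classical
  obtain ⟨x₀, hx₀, _⟩ := id hg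
  obtain ⟨β, hβ0, hβ⟩ := hψ
  have key : ∀ a : ι, ∃ α : Fin Q → ℝ, (∀ l, 0 ≤ α l) ∧ ∀ y,
      (ψ y ∧ ∀ j, (Tv D r (c j (y j))).Nonempty) →
      (Hf D r (f a) v - ∑ k ∈ (D.vars v)ᶜ, f a k * bit (x₀ k)) -
        ∑ j, gf D r (f a) (c j (y j)) = ∑ l, α l * β y l := by
    intro a
    refine hβ (fun j b => gf D r (f a) (c j b)) _ ?_
    rintro y ⟨hy, hne⟩
    have hp : ∀ j b, ∃ x : Pt n, (Tv D r (c j b)).Nonempty → x ∈ Tv D r (c j b) ∧
        gf D r (f a) (c j b) = ∑ k ∈ D.vars (c j b), f a k * bit (x k) := by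
      intro j b
      by_cases h : (Tv D r (c j b)).Nonempty
      · obtain ⟨x, hx, hx'⟩ := gf_spec (f a) h
        exact ⟨x, fun _ => ⟨hx, hx'⟩⟩
      · exact ⟨x₀, fun h' => absurd h' h⟩
    choose p hp using hp
    have hmem := glue_mem (r := r) hs hv hx₀ p hy fun j => (hp j (y j) (hne j)).1
    have h1 := le_Hf (f a) hmem
    have h2 : Lf (f a) (glue D v c x₀ p y) =
        ∑ j, gf D r (f a) (c j (y j)) + ∑ k ∈ (D.vars v)ᶜ, f a k * bit (x₀ k) := by
      unfold Lf
      rw [sum_glue hs hy]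
      congr 1
      · refine sum_congr rfl fun j _ => ?_
        rw [(hp j (y j) (hne j)).2]
        refine sum_congr rfl fun k hk => ?_
        rw [glue_on hs p hy hk]
      · refine sum_congr rfl fun k hk => ?_
        rw [glue_off p y (mem_compl.1 hk)]
    linarith
  choose α hα0 hα using key
  have hpat : ∀ x, ∃ y, Fin1 D r v x → ψ y ∧ (∀ j, x ∈ Tv D r (c j (y j))) ∧
      ∀ j, ¬ Good D r (c j (y j)) := by
    intro x
    by_cases h : Fin1 D r v x
    · obtain ⟨y, hy⟩ := fin1_pattern hU hs hc hv h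
      exact ⟨y, fun _ => hy⟩
    · exact ⟨fun _ => false, fun h' => absurd h' h⟩
  choose Y hY using hpat
  refine ⟨fun l a => α a l, fun x l => β (Y x) l, fun l a => hα0 a l, fun x l => hβ0 _ l, ?_⟩
  intro a x hx
  obtain ⟨h1, h2, h3⟩ := hY x hx
  rw [← hα a (Y x) ⟨h1, fun j => ⟨x, h2 j⟩⟩]
  have h4 : Lf (f a) x = ∑ j, gf D r (f a) (c j (Y x j)) +
      ∑ k ∈ (D.vars v)ᶜ, f a k * bit (x₀ k) := by
    unfold Lf
    rw [sum_glue hs h1]
    congr 1
    · refine sum_congr rfl fun j _ => ?_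
      obtain ⟨z, hz, hz'⟩ := gf_spec (f a) (⟨x, h2 j⟩ : (Tv D r (c j (Y x j))).Nonempty)
      rw [hz']
      refine sum_congr rfl fun k hk => ?_
      rw [not_good (h3 j) (h2 j) hz k hk]
    · refine sum_congr rfl fun k hk => ?_
      rw [hU v hg x₀ hx₀ x hx.1 k (mem_compl.1 hk)]
  rw [h4]
  ring

/-- the end lemma -/
lemma endL (hT : St_Thn) (hO : St_Opt) (hS : St_Sbc) {m u Q : ℕ} {e : Fin m × Fin m ≃ Fin n}
    (hQ : (m + 1) * 2 ^ u ≤ Q) {D : GK (KK u Q) n s}
    {r v : Fin s} (hr : ∀ x, D.val r x → Cor e x) (hU : Uq D r) (hg : Good D r v)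
    {ι : Type} (f : ι → Fin n → ℝ) : EndL D r v Q f := by
  rcases D.ok v with ⟨i, b, hv, h⟩ | ⟨N, ψ, c, hψ, hc, hs, h⟩
  · exfalso
    obtain ⟨x, hx, x', hx', k, hk, hne⟩ := hg
    rw [hv, mem_singleton] at hk
    subst hk
    have h1 := (h x).1 (mem_Tv.1 hx).1
    have h2 := (h x').1 (mem_Tv.1 hx').1
    exact hne (h1.trans h2.symm)
  · rcases hψ with hψ | hψ
    · refine endL_sch f fun E hE => le_trans ?_ hQ
      exact card_sch hT hO hr hU hg hs hc h
        (hS.1 N u ψ (fun j b => (Tv D r (c j b)).Nonempty) hψ) E hE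
    · exact endL_yan f hU hg hs hc h
        (hS.2.1 N Q ψ (fun j b => (Tv D r (c j b)).Nonempty) hψ)

end Dec

open Dec in
theorem thm_Dec (hL : St_Lin) (hP : St_Prm) (hT : St_Thn) (hO : St_Opt) (hS : St_Sbc)
    (hK : St_KW) : St_Dec := by
  classical
  intro m n u Q s e hQ D r hr
  have hU : Uq D r := uq hP hr
  have hs1 : 1 ≤ s := by
    have := r.2
    omega
  have h2u : 1 ≤ 2 ^ u := Nat.one_le_two_pow
  have hQ1 : m + 1 ≤ Q := le_trans (by nlinarith) hQ
  have hcard : Nat.card {x // D.val r x} = (Tv D r r).card := by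
    rw [Nat.card_eq_fintype_card, Fintype.card_subtype]
    congr 1
    ext x
    rw [mem_Tv_root]
    simp
  rw [hcard]
  by_cases hg : Good D r r
  · -- the coefficients
    have hend : ∀ v, ∃ (α : Fin Q → (Fin m → Bool) → ℝ) (β : Pt n → Fin Q → ℝ),
        (∀ l a, 0 ≤ α l a) ∧ (∀ x l, 0 ≤ β x l) ∧
        (Good D r v → ∀ a x, Fin1 D r v x →
          Hf D r (cf e a) v - Lf (cf e a) x = ∑ l, α l a * β x l) := by
      intro v
      by_cases hv : Good D r v
      · obtain ⟨α, β, h1, h2, h3⟩ := endL (ι := Fin m → Bool) hT hO hS hQ hr hU hv (cf e)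
        exact ⟨α, β, h1, h2, fun _ => h3⟩
      · exact ⟨fun _ _ => 0, fun _ _ => 0, fun _ _ => le_refl _, fun _ _ => le_refl _,
          fun h => absurd h hv⟩
    choose αe βe hα0 hβ0 hαβ using hend
    set γ : Fin s × (Fin s ⊕ Fin Q) → (Fin m → Bool) → ℝ := fun k a =>
      match k.2 with
      | Sum.inl w => if k.1 = w then max 0 (1 - Hf D r (cf e a) k.1) else
          max 0 (Hf D r (cf e a) k.1 - Hf D r (cf e a) w)
      | Sum.inr l => αe k.1 l a with hγ
    have hγ0 : ∀ k a, 0 ≤ γ k a := by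
      rintro ⟨v, w | l⟩ a
      · simp only [hγ]
        split_ifs
        · exact le_max_left _ _
        · exact le_max_left _ _
      · exact hα0 v l a
    -- paths
    have path : ∀ v, Good D r v → ∀ x ∈ Tv D r v, ∃ δ : Fin s × (Fin s ⊕ Fin Q) → ℝ,
        (∀ k, 0 ≤ δ k) ∧ ∀ a, Hf D r (cf e a) v - Lf (cf e a) x = ∑ k, γ k a * δ k := by
      intro v
      induction v using WellFoundedLT.induction with
      | ind v ih =>
        intro hv x hx
        by_cases hf : Fin1 D r v x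
        · refine ⟨fun k => if k.1 = v then (match k.2 with
            | Sum.inl _ => 0
            | Sum.inr l => βe v x l) else 0, ?_, ?_⟩
          · rintro ⟨v', w | l⟩
            · dsimp only
              split_ifs <;> exact le_refl _
            · dsimp only
              split_ifs
              · exact hβ0 v x l
              · exact le_refl _
          · intro a
            rw [hαβ v hv a x hf, Fintype.sum_prod_type, sum_eq_single v]
            · rw [Fintype.sum_sum_type]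
              simp [hγ]
            · intro v' _ hv'
              refine sum_eq_zero fun k _ => ?_
              simp [hv']
            · intro h
              exact absurd (mem_univ _) h
        · have hex : ∃ e, e < v ∧ Good D r e ∧ x ∈ Tv D r e ∧ Tv D r e ⊆ Tv D r v := by
            by_contra hne
            exact hf ⟨hx, hne⟩
          obtain ⟨w, hwv, hwg, hxw, hsub⟩ := hex
          obtain ⟨δ, hδ0, hδ⟩ := ih w hwv hwg x hxw
          refine ⟨fun k => δ k + if k = (v, Sum.inl w) then 1 else 0, ?_, ?_⟩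
          · intro k
            have := hδ0 k
            dsimp only
            split_ifs <;> linarith
          · intro a
            have h1 : ∑ k, γ k a * (δ k + if k = (v, Sum.inl w) then 1 else 0) =
                ∑ k, γ k a * δ k + γ (v, Sum.inl w) a := by
              simp only [mul_add, sum_add_distrib, mul_ite, mul_one, mul_zero]
              congr 1
              rw [sum_ite_eq']
              simp
            rw [h1, ← hδ a]
            have h2 : γ (v, Sum.inl w) a = Hf D r (cf e a) v - Hf D r (cf e a) w := by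
              simp only [hγ]
              rw [if_neg (ne_of_gt hwv)]
              apply max_eq_right
              have : Hf D r (cf e a) w ≤ Hf D r (cf e a) v :=
                Hf_le _ ⟨x, hxw⟩ fun z hz => le_Hf _ (hsub hz)
              linarith
            rw [h2]
            ring
    -- the matrix
    have hmat : ∀ x ∈ Tv D r r, ∃ δ : Fin s × (Fin s ⊕ Fin Q) → ℝ, (∀ k, 0 ≤ δ k) ∧
        ∀ a, (1 - ∑ i, bit (a i) * bit (x (e (i, i)))) ^ 2 = ∑ k, γ k a * δ k := by
      intro x hx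
      obtain ⟨δ, hδ0, hδ⟩ := path r hg x hx
      refine ⟨fun k => δ k + if k = (r, Sum.inl r) then 1 else 0, ?_, ?_⟩
      · intro k
        have := hδ0 k
        dsimp only
        split_ifs <;> linarith
      · intro a
        have h1 : ∑ k, γ k a * (δ k + if k = (r, Sum.inl r) then 1 else 0) =
            ∑ k, γ k a * δ k + γ (r, Sum.inl r) a := by
          simp only [mul_add, sum_add_distrib, mul_ite, mul_one, mul_zero]
          congr 1
          rw [sum_ite_eq']
          simp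
        have h3 : ∀ z ∈ Tv D r r, Lf (cf e a) z ≤ 1 := by
          intro z hz
          have := hL m n e a z (Tv_F hr hz)
          have h4 := sq_nonneg (1 - ∑ i, bit (a i) * bit (z (e (i, i))))
          unfold Lf
          linarith
        have h2 : γ (r, Sum.inl r) a = 1 - Hf D r (cf e a) r := by
          simp only [hγ, if_true]
          apply max_eq_right
          have := Hf_le (cf e a) ⟨x, hx⟩ h3
          linarith
        rw [h1, ← hδ a, h2, ← hL m n e a x (Tv_F hr hx)]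
        unfold Lf
        ring
    -- diagonals
    set dg : Pt n → (Fin m → Bool) := fun x i => x (e (i, i)) with hdg
    have hinj : Set.InjOn dg (Tv D r r) := by
      intro x hx x' hx' h
      have hx1 := Tv_F hr (mem_coe.1 hx)
      have hx2 := Tv_F hr (mem_coe.1 hx')
      have hd : ∀ i, x (e (i, i)) = x' (e (i, i)) := fun i => congrFun h i
      funext k
      obtain ⟨⟨i, j⟩, rfl⟩ := e.surjective k
      rcases lt_trichotomy i j with hij | hij | hij
      · rw [(hx1 i j).1 hij, (hx2 i j).1 hij, hd, hd]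
      · subst hij
        exact hd i
      · rw [(hx1 i j).2 hij, (hx2 i j).2 hij, hd, hd]
    have hB : ∀ b ∈ (Tv D r r).image dg, ∃ δ : Fin s × (Fin s ⊕ Fin Q) → ℝ, (∀ k, 0 ≤ δ k) ∧
        ∀ a, (1 - ∑ i, bit (a i) * bit (b i)) ^ 2 = ∑ k, γ k a * δ k := by
      intro b hb
      obtain ⟨x, hx, rfl⟩ := mem_image.1 hb
      exact hmat x hx
    have hB' : ∀ b, ∃ δ : Fin s × (Fin s ⊕ Fin Q) → ℝ, (∀ k, 0 ≤ δ k) ∧
        (b ∈ (Tv D r r).image dg → ∀ a, (1 - ∑ i, bit (a i) * bit (b i)) ^ 2 =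
          ∑ k, γ k a * δ k) := by
      intro b
      by_cases hb : b ∈ (Tv D r r).image dg
      · obtain ⟨δ, h1, h2⟩ := hB b hb
        exact ⟨δ, h1, fun _ => h2⟩
      · exact ⟨fun _ => 0, fun _ => le_refl _, fun h => absurd h hb⟩
    choose δ hδ0 hδ using hB'
    have := hK m (Fin s × (Fin s ⊕ Fin Q)) ((Tv D r r).image dg) γ (fun k b => δ b k) hγ0
      (fun k b => hδ0 b k) (fun a b hb => hδ b hb a)
    rw [card_image_of_injOn hinj] at this
    simpa using this
  · -- not good: closed under AND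
    have h1 : (Tv D r r).card ≤ m + 1 := by
      refine hT m n e (fun _ _ b c => b && c) (fun i => Or.inl fun a b c => rfl) _
        (fun x hx => Tv_F hr hx) ?_
      intro x hx y hy w hw
      rw [mem_Tv_root]
      refine (dep D r x _ ?_).1 (mem_Tv_root.1 hx)
      intro i hi
      show x i = (y i && w i)
      rw [← not_good hg hx hy i hi, ← not_good hg hx hw i hi, Bool.and_self]
    have h3 : m + 1 ≤ 3 ^ m := by
      clear * -
      induction m with
      | zero => norm_num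
      | succ m ih =>
        rw [pow_succ]
        omega
    calc (Tv D r r).card ^ 2 ≤ (m + 1) ^ 2 := Nat.pow_le_pow_left h1 2
      _ = (m + 1) * (m + 1) := sq _
      _ ≤ 3 ^ m * (s * (s + Q)) := by
          refine Nat.mul_le_mul h3 ?_
          nlinarith

end Pool.Agent.SFP
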