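import Pool.Agent.SFP.DefC
import Pool.Agent.SFP.Dec

/-!
# Monotone reductions: the rectangle cover of the slack matrix
-/

set_option autoImplicit false

namespace Pool.Agent.SFP

open Finset Pool.Agent.STH Pool.Agent.STD Pool.Agent.STS Pool.Agent.SFR

namespace Dec

variable {K : Cls} {n s : ℕ}

/-- the maximum is attained -/
lemma Hf_attained {D : GK K n s} {r v : Fin s} (f : Fin n → ℝ) (hne : (Tv D r v).Nonempty) :
    ∃ x ∈ Tv D r v, Lf f x = Hf D r f v := by
  unfold Hf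
  rw [dif_pos hne]
  obtain ⟨x, hx, h⟩ := exists_mem_eq_sup' hne (Lf f)
  exact ⟨x, hx, h.symm⟩

lemma le_gf {D : GK K n s} {r : Fin s} (f : Fin n → ℝ) {e : Fin s} {x : Pt n}
    (hx : x ∈ Tv D r e) : ∑ k ∈ D.vars e, f k * bit (x k) ≤ gf D r f e := by
  unfold gf
  rw [dif_pos ⟨x, hx⟩]
  exact le_sup' (fun x => ∑ k ∈ D.vars e, f k * bit (x k)) hx

/-- what is needed at the end of a path -/
def EndC (D : GK K n s) (r v : Fin s) (Q : ℕ) {ι : Type} (f : ι → Fin n → ℝ) : Prop :=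
  ∃ (A : Fin Q → ι → Prop) (A' : Pt n → Fin Q → Prop),
    ∀ a x, Fin1 D r v x → (Lf (f a) x < Hf D r (f a) v ↔ ∃ l, A l a ∧ A' x l)

lemma endC_sch {D : GK K n s} {r v : Fin s} {Q : ℕ} {ι : Type} (f : ι → Fin n → ℝ)
    (h : ∀ E : Finset (Pt n), (∀ x ∈ E, Fin1 D r v x) → E.card ≤ Q) : EndC D r v Q f := by
  classical
  set E : Finset (Pt n) := univ.filter (Fin1 D r v) with hE
  have hEQ : E.card ≤ Q := h E fun x hx => (mem_filter.1 hx).2
  obtain ⟨g⟩ : Nonempty (E ↪ Fin Q) := by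
    apply Function.Embedding.nonempty_of_card_le
    simpa using hEQ
  refine ⟨fun l a => ∃ x : E, g x = l ∧ Lf (f a) x < Hf D r (f a) v,
    fun x l => ∃ h : x ∈ E, g ⟨x, h⟩ = l, ?_⟩
  intro a x hx
  have hxE : x ∈ E := mem_filter.2 ⟨mem_univ _, hx⟩
  constructor
  · intro h'
    exact ⟨g ⟨x, hxE⟩, ⟨⟨x, hxE⟩, rfl, h'⟩, hxE, rfl⟩
  · rintro ⟨l, ⟨x', hx', h'⟩, hx'', h''⟩
    have : x' = ⟨x, hx''⟩ := g.injective (hx'.trans h''.symm)
    rw [this] at h'
    exact h'

lemma endC_cov {D : GK K n s} {r v : Fin s} {Q : ℕ} {ι : Type} (f : ι → Fin n → ℝ)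
    (hU : Uq D r) (hg : Good D r v)
    {N : ℕ} {ψ : (Fin N → Bool) → Prop} {c : Fin N → Bool → Fin s} (hs : Scp D v ψ c)
    (hc : ∀ j b, c j b < v)
    (hv : ∀ x, D.val v x ↔ ∃ y, ψ y ∧ ∀ j, D.val (c j (y j)) x)
    (hψ : Cov Q fun y => ψ y ∧ ∀ j, (Tv D r (c j (y j))).Nonempty) : EndC D r v Q f := by
  classical
  obtain ⟨x₀, hx₀, _⟩ := id hg
  obtain ⟨β, hβ⟩ := hψ
  choose S hS using fun a : ι => hβ (fun j b => gf D r (f a) (c j b))
  have hpat : ∀ x, ∃ y, Fin1 D r v x → ψ y ∧ (∀ j, x ∈ Tv D r (c j (y j))) ∧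
      ∀ j, ¬ Good D r (c j (y j)) := by
    intro x
    by_cases h : Fin1 D r v x
    · obtain ⟨y, hy⟩ := fin1_pattern hU hs hc hv h
      exact ⟨y, fun _ => hy⟩
    · exact ⟨fun _ => false, fun h' => absurd h' h⟩
  choose Y hY using hpat
  refine ⟨fun l a => S a l, fun x l => β (Y x) l, ?_⟩
  intro a x hx
  obtain ⟨h1, h2, h3⟩ := hY x hx
  rw [hS a (Y x) ⟨h1, fun j => ⟨x, h2 j⟩⟩]
  -- the value of `x`
  have h4 : Lf (f a) x = ∑ j, gf D r (f a) (c j (Y x j)) +
      ∑ k ∈ (D.vars v)ᶜ, f a k * bit (x₀ k) := by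
    unfold Lf
    rw [sum_glue hs h1]
    congr 1
    · refine sum_congr rfl fun j _ => ?_
      obtain ⟨z, hz, hz'⟩ := gf_spec (f a) (⟨x, h2 j⟩ : (Tv D r (c j (Y x j))).Nonempty)
      rw [hz']
      refine sum_congr rfl fun k hk => ?_
      rw [not_good (h3 j) (h2 j) hz k hk]
    · refine sum_congr rfl fun k hk => ?_
      rw [hU v hg x₀ hx₀ x hx.1 k (mem_compl.1 hk)]
  constructor
  · intro h
    obtain ⟨z, hz, hz'⟩ := Hf_attained (r := r) (f a) ⟨x, hx.1⟩
    have hz1 := mem_Tv.1 hz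
    obtain ⟨y', hy', hzy'⟩ := (hv z).1 hz1.1
    have hin : ∀ j, z ∈ Tv D r (c j (y' j)) :=
      fun j => mem_Tv.2 (Inv_gate' hs hv hz1 hy' hzy' j)
    refine ⟨y', ⟨hy', fun j => ⟨z, hin j⟩⟩, ?_⟩
    have h5 : Lf (f a) z ≤ ∑ j, gf D r (f a) (c j (y' j)) +
        ∑ k ∈ (D.vars v)ᶜ, f a k * bit (x₀ k) := by
      unfold Lf
      rw [sum_glue hs hy']
      refine add_le_add (sum_le_sum fun j _ => le_gf (f a) (hin j)) (le_of_eq ?_)
      refine sum_congr rfl fun k hk => ?_
      rw [hU v hg x₀ hx₀ z hz k (mem_compl.1 hk)]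
    linarith
  · rintro ⟨y', ⟨hy', hne⟩, hlt⟩
    have hp : ∀ j b, ∃ x : Pt n, (Tv D r (c j b)).Nonempty → x ∈ Tv D r (c j b) ∧
        gf D r (f a) (c j b) = ∑ k ∈ D.vars (c j b), f a k * bit (x k) := by
      intro j b
      by_cases h : (Tv D r (c j b)).Nonempty
      · obtain ⟨x, hx, hx'⟩ := gf_spec (f a) h
        exact ⟨x, fun _ => ⟨hx, hx'⟩⟩
      · exact ⟨x₀, fun h' => absurd h' h⟩
    choose p hp using hp
    have hmem := glue_mem (r := r) hs hv hx₀ p hy' fun j => (hp j (y' j) (hne j)).1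
    have h5 := le_Hf (f a) hmem
    have h6 : Lf (f a) (glue D v c x₀ p y') =
        ∑ j, gf D r (f a) (c j (y' j)) + ∑ k ∈ (D.vars v)ᶜ, f a k * bit (x₀ k) := by
      unfold Lf
      rw [sum_glue hs hy']
      congr 1
      · refine sum_congr rfl fun j _ => ?_
        rw [(hp j (y' j) (hne j)).2]
        refine sum_congr rfl fun k hk => ?_
        rw [glue_on hs p hy' hk]
      · refine sum_congr rfl fun k hk => ?_
        rw [glue_off p y' (mem_compl.1 hk)]
    linarith

/-- the end lemma -/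
lemma endC (hT : St_Thn) (hO : St_Opt) (hS : St_Sbc) (hC : St_Cov) {m u Q : ℕ}
    {e : Fin m × Fin m ≃ Fin n} (hQ : (m + 1) * 2 ^ u ≤ Q) {D : GK (KC u Q) n s}
    {r v : Fin s} (hr : ∀ x, D.val r x → Cor e x) (hU : Uq D r) (hg : Good D r v)
    {ι : Type} (f : ι → Fin n → ℝ) : EndC D r v Q f := by
  rcases D.ok v with ⟨i, b, hv, h⟩ | ⟨N, ψ, c, hψ, hc, hs, h⟩
  · exfalso
    obtain ⟨x, hx, x', hx', k, hk, hne⟩ := hg
    rw [hv, mem_singleton] at hk
    subst hk
    have h1 := (h x).1 (mem_Tv.1 hx).1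
    have h2 := (h x').1 (mem_Tv.1 hx').1
    exact hne (h1.trans h2.symm)
  · rcases hψ with hψ | hψ
    · refine endC_sch f fun E hE => le_trans ?_ hQ
      exact card_sch hT hO hr hU hg hs hc h
        (hS.1 N u ψ (fun j b => (Tv D r (c j b)).Nonempty) hψ) E hE
    · exact endC_cov f hU hg hs hc h
        (hC.2.1 N Q ψ (fun j b => (Tv D r (c j b)).Nonempty) hψ)

end Dec

open Dec in
theorem thm_DecC (hL : St_Lin) (hP : St_Prm) (hT : St_Thn) (hO : St_Opt) (hS : St_Sbc)
    (hC : St_Cov) (hK : St_KWC) : St_DecC := by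
  classical
  intro m n u Q s e hQ D r hr
  have hU : Uq D r := uq hP hr
  have hs1 : 1 ≤ s := by
    have := r.2
    omega
  have h2u : 1 ≤ 2 ^ u := Nat.one_le_two_pow
  have hQ1 : m + 1 ≤ Q := le_trans (by nlinarith) hQ
  have hcard : Nat.card {x // D.val r x} = (Tv D r r).card := by
    rw [Nat.card_eq_fintype_card, Fintype.card_subtype]
    congr 1
    ext x
    rw [mem_Tv_root]
    simp
  rw [hcard]
  by_cases hg : Good D r r
  · -- the ends
    have hend : ∀ v, ∃ (A : Fin Q → (Fin m → Bool) → Prop) (A' : Pt n → Fin Q → Prop),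
        Good D r v → ∀ a x, Fin1 D r v x →
          (Lf (cf e a) x < Hf D r (cf e a) v ↔ ∃ l, A l a ∧ A' x l) := by
      intro v
      by_cases hv : Good D r v
      · obtain ⟨A, A', h⟩ := endC (ι := Fin m → Bool) hT hO hS hC hQ hr hU hv (cf e)
        exact ⟨A, A', fun _ => h⟩
      · exact ⟨fun _ _ => False, fun _ _ => False, fun h => absurd h hv⟩
    choose Ae Ae' hAe using hend
    set γ : Fin s × (Fin s ⊕ Fin Q) → (Fin m → Bool) → Prop := fun k a =>
      match k.2 with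
      | Sum.inl w => (k.1 = w ∧ Hf D r (cf e a) k.1 < 1) ∨
          (k.1 ≠ w ∧ Hf D r (cf e a) w < Hf D r (cf e a) k.1)
      | Sum.inr l => Ae k.1 l a with hγ
    -- paths
    have path : ∀ v, Good D r v → ∀ x ∈ Tv D r v, ∃ δ : Fin s × (Fin s ⊕ Fin Q) → Prop,
        ∀ a, Lf (cf e a) x < Hf D r (cf e a) v ↔ ∃ k, γ k a ∧ δ k := by
      intro v
      induction v using WellFoundedLT.induction with
      | ind v ih =>
        intro hv x hx
        by_cases hf : Fin1 D r v x
        · refine ⟨fun k => ∃ l, k = (v, Sum.inr l) ∧ Ae' v x l, fun a => ?_⟩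
          rw [hAe v hv a x hf]
          constructor
          · rintro ⟨l, h1, h2⟩
            exact ⟨(v, Sum.inr l), h1, l, rfl, h2⟩
          · rintro ⟨k, h1, l, rfl, h2⟩
            exact ⟨l, h1, h2⟩
        · have hex : ∃ e, e < v ∧ Good D r e ∧ x ∈ Tv D r e ∧ Tv D r e ⊆ Tv D r v := by
            by_contra hne
            exact hf ⟨hx, hne⟩
          obtain ⟨w, hwv, hwg, hxw, hsub⟩ := hex
          obtain ⟨δ, hδ⟩ := ih w hwv hwg x hxw
          refine ⟨fun k => δ k ∨ k = (v, Sum.inl w), fun a => ?_⟩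
          have h1 : Lf (cf e a) x ≤ Hf D r (cf e a) w := le_Hf _ hxw
          have h2 : Hf D r (cf e a) w ≤ Hf D r (cf e a) v :=
            Hf_le _ ⟨x, hxw⟩ fun z hz => le_Hf _ (hsub hz)
          have h3 : γ (v, Sum.inl w) a ↔ Hf D r (cf e a) w < Hf D r (cf e a) v := by
            simp only [hγ]
            constructor
            · rintro (⟨h, _⟩ | ⟨_, h⟩)
              · exact absurd h (ne_of_gt hwv)
              · exact h
            · intro h
              exact Or.inr ⟨ne_of_gt hwv, h⟩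
          constructor
          · intro h
            rcases lt_or_ge (Lf (cf e a) x) (Hf D r (cf e a) w) with h4 | h4
            · obtain ⟨k, hk1, hk2⟩ := (hδ a).1 h4
              exact ⟨k, hk1, Or.inl hk2⟩
            · exact ⟨(v, Sum.inl w), h3.2 (lt_of_le_of_lt h4 h), Or.inr rfl⟩
          · rintro ⟨k, hk1, hk2 | rfl⟩
            · exact lt_of_lt_of_le ((hδ a).2 ⟨k, hk1, hk2⟩) h2
            · exact lt_of_le_of_lt h1 (h3.1 hk1)
    -- the matrix
    have hmat : ∀ x ∈ Tv D r r, ∃ δ : Fin s × (Fin s ⊕ Fin Q) → Prop,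
        ∀ a, (∃ k, γ k a ∧ δ k) ↔ ∑ i, bit (a i) * bit (x (e (i, i))) ≠ 1 := by
      intro x hx
      obtain ⟨δ, hδ⟩ := path r hg x hx
      refine ⟨fun k => δ k ∨ k = (r, Sum.inl r), fun a => ?_⟩
      have h3 : ∀ z ∈ Tv D r r, Lf (cf e a) z ≤ 1 := by
        intro z hz
        have := hL m n e a z (Tv_F hr hz)
        have h4 := sq_nonneg (1 - ∑ i, bit (a i) * bit (z (e (i, i))))
        unfold Lf
        linarith
      have h1 : Lf (cf e a) x ≤ Hf D r (cf e a) r := le_Hf _ hx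
      have h2 : Hf D r (cf e a) r ≤ 1 := Hf_le (cf e a) ⟨x, hx⟩ h3
      have h4 : γ (r, Sum.inl r) a ↔ Hf D r (cf e a) r < 1 := by
        simp only [hγ]
        constructor
        · rintro (⟨_, h⟩ | ⟨h, _⟩)
          · exact h
          · exact absurd rfl h
        · intro h
          exact Or.inl ⟨trivial, h⟩
      have h5 : Lf (cf e a) x < 1 ↔ ∑ i, bit (a i) * bit (x (e (i, i))) ≠ 1 := by
        have h6 := hL m n e a x (Tv_F hr hx)
        have h7 : Lf (cf e a) x = ∑ k, cf e a k * bit (x k) := rfl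
        rw [h7]
        constructor
        · intro h8 h9
          rw [h9] at h6
          norm_num at h6
          linarith
        · intro h8
          have h9 : 0 < (1 - ∑ i, bit (a i) * bit (x (e (i, i)))) ^ 2 := by
            apply sq_pos_of_ne_zero
            intro h10
            exact h8 (by linarith)
          linarith
      rw [← h5]
      constructor
      · rintro ⟨k, hk1, hk2 | rfl⟩
        · exact lt_of_lt_of_le ((hδ a).2 ⟨k, hk1, hk2⟩) h2
        · exact lt_of_le_of_lt h1 (h4.1 hk1)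
      · intro h
        rcases lt_or_ge (Lf (cf e a) x) (Hf D r (cf e a) r) with h6 | h6
        · obtain ⟨k, hk1, hk2⟩ := (hδ a).1 h6
          exact ⟨k, hk1, Or.inl hk2⟩
        · exact ⟨(r, Sum.inl r), h4.2 (lt_of_le_of_lt h6 h), Or.inr rfl⟩
    -- diagonals
    set dg : Pt n → (Fin m → Bool) := fun x i => x (e (i, i)) with hdg
    have hinj : Set.InjOn dg (Tv D r r) := by
      intro x hx x' hx' h
      have hx1 := Tv_F hr (mem_coe.1 hx)
      have hx2 := Tv_F hr (mem_coe.1 hx')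
      have hd : ∀ i, x (e (i, i)) = x' (e (i, i)) := fun i => congrFun h i
      funext k
      obtain ⟨⟨i, j⟩, rfl⟩ := e.surjective k
      rcases lt_trichotomy i j with hij | hij | hij
      · rw [(hx1 i j).1 hij, (hx2 i j).1 hij, hd, hd]
      · subst hij
        exact hd i
      · rw [(hx1 i j).2 hij, (hx2 i j).2 hij, hd, hd]
    have hB : ∀ b : Fin m → Bool, ∃ δ : Fin s × (Fin s ⊕ Fin Q) → Prop,
        b ∈ (Tv D r r).image dg → ∀ a, (∃ k, γ k a ∧ δ k) ↔
          ∑ i, bit (a i) * bit (b i) ≠ 1 := by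
      intro b
      by_cases hb : b ∈ (Tv D r r).image dg
      · obtain ⟨x, hx, rfl⟩ := mem_image.1 hb
        obtain ⟨δ, h⟩ := hmat x hx
        exact ⟨δ, fun _ => h⟩
      · exact ⟨fun _ => False, fun h => absurd h hb⟩
    choose δ hδ using hB
    have := hK m (Fin s × (Fin s ⊕ Fin Q)) ((Tv D r r).image dg) γ (fun k b => δ b k)
      (fun a b hb => hδ b hb a)
    rw [card_image_of_injOn hinj] at this
    simpa using this
  · -- not good: closed under AND
    have h1 : (Tv D r r).card ≤ m + 1 := by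
      refine hT m n e (fun _ _ b c => b && c) (fun i => Or.inl fun a b c => rfl) _
        (fun x hx => Tv_F hr hx) ?_
      intro x hx y hy w hw
      rw [mem_Tv_root]
      refine (dep D r x _ ?_).1 (mem_Tv_root.1 hx)
      intro i hi
      show x i = (y i && w i)
      rw [← not_good hg hx hy i hi, ← not_good hg hx hw i hi, Bool.and_self]
    have h3 : m + 1 ≤ 3 ^ m := by
      clear * -
      induction m with
      | zero => norm_num
      | succ m ih =>
        rw [pow_succ]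
        omega
    calc (Tv D r r).card ^ 2 ≤ (m + 1) ^ 2 := Nat.pow_le_pow_left h1 2
      _ = (m + 1) * (m + 1) := sq _
      _ ≤ 3 ^ m * (s * (s + Q)) := by
          refine Nat.mul_le_mul h3 ?_
          nlinarith

end Pool.Agent.SFP
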