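import Pool.Agent.SFP.Defs

/-!
# SFP, modules Enc and Bir: the 3-CNF of the hard formula, Birkhoff's theorem
-/

set_option autoImplicit false

namespace Pool.Agent.SFP

open Finset Pool.Agent.STH Pool.Agent.STD Pool.Agent.STS Pool.Agent.SFR

/-- the clauses of one entry -/
private def cls {m n : ℕ} (e : Fin m × Fin m ≃ Fin n) (k : Fin n) : CNF n :=
  let i := (e.symm k).1
  let j := (e.symm k).2
  if i < j then
    [[(k, false), (e (i, i), true)], [(k, false), (e (j, j), true)],
      [(k, true), (e (i, i), false), (e (j, j), false)]]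
  else if j < i then
    [[(k, true), (e (i, i), false)], [(k, true), (e (j, j), false)],
      [(k, false), (e (i, i), true), (e (j, j), true)]]
  else []

private theorem cls_len {m n : ℕ} (e : Fin m × Fin m ≃ Fin n) (k : Fin n) :
    (cls e k).length ≤ 3 := by
  unfold cls
  simp only
  split_ifs <;> simp

private theorem cls_width {m n : ℕ} (e : Fin m × Fin m ≃ Fin n) (k : Fin n) :
    ∀ cl ∈ cls e k, cl.length ≤ 3 := by
  intro cl hcl
  unfold cls at hcl
  simp only at hcl
  split_ifs at hcl with h1 h2
  · simp only [List.mem_cons, List.not_mem_nil, or_false] at hcl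
    rcases hcl with rfl | rfl | rfl <;> simp
  · simp only [List.mem_cons, List.not_mem_nil, or_false] at hcl
    rcases hcl with rfl | rfl | rfl <;> simp
  · simp at hcl

private theorem bool_and (a b c : Bool) : ((a = false ∨ b = true) ∧ (a = false ∨ c = true) ∧
    (a = true ∨ b = false ∨ c = false)) ↔ a = (b && c) := by
  cases a <;> cases b <;> cases c <;> simp

private theorem bool_or (a b c : Bool) : ((a = true ∨ b = false) ∧ (a = true ∨ c = false) ∧
    (a = false ∨ b = true ∨ c = true)) ↔ a = (b || c) := by
  cases a <;> cases b <;> cases c <;> simp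

private theorem cls_sat {m n : ℕ} (e : Fin m × Fin m ≃ Fin n) (i j : Fin m) (x : Pt n) :
    (∀ cl ∈ cls e (e (i, j)), ∃ l ∈ cl, x l.1 = l.2) ↔
      (i < j → x (e (i, j)) = (x (e (i, i)) && x (e (j, j)))) ∧
      (j < i → x (e (i, j)) = (x (e (i, i)) || x (e (j, j)))) := by
  unfold cls
  simp only [Equiv.symm_apply_apply]
  by_cases h1 : i < j
  · have h2 : ¬ j < i := lt_asymm h1
    rw [if_pos h1]
    simp only [h1, h2, true_imp_iff, false_imp_iff, and_true]
    rw [← bool_and]
    simp [exists_or]
  · rw [if_neg h1]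
    by_cases h2 : j < i
    · rw [if_pos h2]
      simp only [h1, h2, true_imp_iff, false_imp_iff, true_and]
      rw [← bool_or]
      simp [exists_or]
    · rw [if_neg h2]
      simp [h1, h2]

theorem thm_Enc : St_Enc := by
  classical
  intro m n e
  refine ⟨⟨(List.finRange n).flatMap (cls e), ?_, ?_, ?_⟩, ?_⟩
  · rw [List.length_flatMap]
    have h1 : ∀ l : List (Fin n), (l.map fun k => (cls e k).length).sum ≤ 3 * l.length := by
      intro l
      induction l with
      | nil => simp
      | cons a l ih =>
        rw [List.map_cons, List.sum_cons, List.length_cons]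
        have := cls_len e a
        omega
    have h2 := h1 (List.finRange n)
    rw [List.length_finRange] at h2
    exact h2
  · intro cl hcl
    rw [List.mem_flatMap] at hcl
    obtain ⟨k, -, hk⟩ := hcl
    exact cls_width e k cl hk
  · intro x
    have h1 : Sat ((List.finRange n).flatMap (cls e)) x ↔
        ∀ k, ∀ cl ∈ cls e k, ∃ l ∈ cl, x l.1 = l.2 := by
      unfold Sat
      simp only [List.mem_flatMap, List.mem_finRange, true_and]
      constructor
      · intro h k cl hcl
        exact h cl ⟨k, hcl⟩
      · rintro h cl ⟨k, hcl⟩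
        exact h k cl hcl
    rw [h1]
    constructor
    · intro h i j
      exact (cls_sat e i j x).1 (h (e (i, j)))
    · intro h k
      have h2 := (cls_sat e (e.symm k).1 (e.symm k).2 x).2 (h _ _)
      rw [Prod.mk.eta, Equiv.apply_symm_apply] at h2
      exact h2
  · have h1 : Nat.card (Fin m → Bool) = 2 ^ m := by
      rw [Nat.card_eq_fintype_card, Fintype.card_fun, Fintype.card_bool, Fintype.card_fin]
    rw [← h1]
    refine Nat.card_congr ⟨fun x i => x.1 (e (i, i)), fun t => ⟨fun k =>
      if (e.symm k).1 < (e.symm k).2 then t (e.symm k).1 && t (e.symm k).2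
      else if (e.symm k).2 < (e.symm k).1 then t (e.symm k).1 || t (e.symm k).2
      else t (e.symm k).1, ?_⟩, ?_, ?_⟩
    · intro i j
      simp only [Equiv.symm_apply_apply, lt_self_iff_false, if_false]
      constructor
      · intro h
        rw [if_pos h]
      · intro h
        rw [if_neg (lt_asymm h), if_pos h]
    · rintro ⟨x, hx⟩
      apply Subtype.ext
      funext k
      obtain ⟨⟨i, j⟩, rfl⟩ := e.surjective k
      simp only [Equiv.symm_apply_apply]
      obtain ⟨h2, h3⟩ := hx i j
      by_cases h4 : i < j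
      · rw [if_pos h4, h2 h4]
      · rw [if_neg h4]
        by_cases h5 : j < i
        · rw [if_pos h5, h3 h5]
        · rw [if_neg h5]
          have h6 : i = j := le_antisymm (not_lt.1 h5) (not_lt.1 h4)
          rw [h6]
    · intro t
      funext i
      simp only [Equiv.symm_apply_apply, lt_self_iff_false, if_false]

/-- a vector as a matrix -/
private def toM (N : ℕ) : (Fin (N * N) → ℝ) ≃ₗ[ℝ] Matrix (Fin N) (Fin N) ℝ where
  toFun z := Matrix.of fun i j => z (finProdFinEquiv (i, j))
  map_add' _ _ := rfl
  map_smul' _ _ := rfl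
  invFun M := fun k => M (finProdFinEquiv.symm k).1 (finProdFinEquiv.symm k).2
  left_inv z := by
    funext k
    show z (finProdFinEquiv ((finProdFinEquiv.symm k).1, (finProdFinEquiv.symm k).2)) = z k
    rw [Prod.mk.eta, Equiv.apply_symm_apply]
  right_inv M := by
    ext i j
    show M (finProdFinEquiv.symm (finProdFinEquiv (i, j))).1
      (finProdFinEquiv.symm (finProdFinEquiv (i, j))).2 = M i j
    rw [Equiv.symm_apply_apply]

private theorem toM_apply (N : ℕ) (z : Fin (N * N) → ℝ) (i j : Fin N) :
    toM N z i j = z (finProdFinEquiv (i, j)) := rfl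

private theorem toM_image (N : ℕ) :
    (toM N) '' {u : Fin (N * N) → ℝ | ∃ y, IsPerm y ∧ u = fun j => if y j then 1 else 0} =
      {M | ∃ σ : Equiv.Perm (Fin N), σ.permMatrix ℝ = M} := by
  classical
  ext M
  constructor
  · rintro ⟨u, ⟨y, ⟨σ, hσ⟩, rfl⟩, rfl⟩
    refine ⟨σ, ?_⟩
    ext i j
    rw [toM_apply, hσ, Equiv.Perm.permMatrix, PEquiv.toMatrix_apply]
    simp [Equiv.toPEquiv_apply, eq_comm]
  · rintro ⟨σ, rfl⟩
    refine ⟨_, ⟨fun k => decide (σ (finProdFinEquiv.symm k).1 = (finProdFinEquiv.symm k).2),
      ⟨σ, fun i j => by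
        show decide (σ (finProdFinEquiv.symm (finProdFinEquiv (i, j))).1 =
          (finProdFinEquiv.symm (finProdFinEquiv (i, j))).2) = decide (σ i = j)
        rw [Equiv.symm_apply_apply]⟩, rfl⟩, ?_⟩
    ext i j
    rw [toM_apply, Equiv.Perm.permMatrix, PEquiv.toMatrix_apply]
    show (if decide (σ (finProdFinEquiv.symm (finProdFinEquiv (i, j))).1 =
      (finProdFinEquiv.symm (finProdFinEquiv (i, j))).2) = true then (1 : ℝ) else 0) = _
    rw [Equiv.symm_apply_apply]
    simp [Equiv.toPEquiv_apply, eq_comm]

theorem thm_Bir : St_Bir := by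
  classical
  intro N
  refine ⟨0, N + N, fun l j => if l = j then -1 else 0, fun _ _ => 0, fun _ => 0,
    Fin.append (fun i k => if (finProdFinEquiv.symm k).1 = i then 1 else 0)
      (fun i k => if (finProdFinEquiv.symm k).2 = i then 1 else 0),
    fun _ _ => 0, fun _ => 1, fun z => ?_⟩
  have h1 : z ∈ convexHull ℝ {u : Fin (N * N) → ℝ | ∃ y, IsPerm y ∧
      u = fun j => if y j then 1 else 0} ↔ toM N z ∈ (doublyStochastic ℝ (Fin N) : Set _) := by
    rw [doublyStochastic_eq_convexHull_permMatrix, ← toM_image]
    have h2 := (toM N).toLinearMap.image_convexHull {u : Fin (N * N) → ℝ | ∃ y, IsPerm y ∧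
      u = fun j => if y j then 1 else 0}
    have h3 : (toM N) '' {u : Fin (N * N) → ℝ | ∃ y, IsPerm y ∧
        u = fun j => if y j then 1 else 0} = (toM N).toLinearMap '' {u : Fin (N * N) → ℝ |
          ∃ y, IsPerm y ∧ u = fun j => if y j then 1 else 0} := rfl
    rw [h3, ← h2]
    constructor
    · intro h
      exact ⟨z, h, rfl⟩
    · rintro ⟨w, hw, he⟩
      rw [← (toM N).injective he]
      exact hw
  rw [h1]
  show toM N z ∈ doublyStochastic ℝ (Fin N) ↔ _
  rw [mem_doublyStochastic_iff_sum]
  have hsum1 : ∀ i : Fin N, ∑ j, toM N z i j =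
      ∑ k, (if (finProdFinEquiv.symm k).1 = i then (1 : ℝ) else 0) * z k := by
    intro i
    symm
    rw [← finProdFinEquiv.sum_comp, Fintype.sum_prod_type]
    simp only [Equiv.symm_apply_apply]
    rw [Finset.sum_eq_single i]
    · simp [toM_apply]
    · intro b _ hb
      simp [hb]
    · intro h
      exact absurd (Finset.mem_univ _) h
  have hsum2 : ∀ j : Fin N, ∑ i, toM N z i j =
      ∑ k, (if (finProdFinEquiv.symm k).2 = j then (1 : ℝ) else 0) * z k := by
    intro j
    symm
    rw [← finProdFinEquiv.sum_comp, Fintype.sum_prod_type_right]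
    simp only [Equiv.symm_apply_apply]
    rw [Finset.sum_eq_single j]
    · simp [toM_apply]
    · intro b _ hb
      simp [hb]
    · intro h
      exact absurd (Finset.mem_univ _) h
  constructor
  · rintro ⟨g1, g2, g3⟩
    refine ⟨fun i => 0, fun l => ?_, fun l => ?_⟩
    · have h2 := g1 (finProdFinEquiv.symm l).1 (finProdFinEquiv.symm l).2
      rw [toM_apply, Prod.mk.eta, Equiv.apply_symm_apply] at h2
      simp only [ite_mul, neg_mul, one_mul, zero_mul, Finset.sum_ite_eq, Finset.mem_univ, if_true,
        Finset.univ_eq_empty, Finset.sum_empty, add_zero]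
      linarith
    · refine Fin.addCases (fun i => ?_) (fun i => ?_) l
      · simp only [Fin.append_left, Finset.univ_eq_empty, Finset.sum_empty, add_zero]
        rw [← hsum1, g2]
      · simp only [Fin.append_right, Finset.univ_eq_empty, Finset.sum_empty, add_zero]
        rw [← hsum2, g3]
  · rintro ⟨t, g1, g2⟩
    refine ⟨fun i j => ?_, fun i => ?_, fun j => ?_⟩
    · have h2 := g1 (finProdFinEquiv (i, j))
      simp only [ite_mul, neg_mul, one_mul, zero_mul, Finset.sum_ite_eq, Finset.mem_univ, if_true,
        Finset.univ_eq_empty, Finset.sum_empty, add_zero] at h2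
      rw [toM_apply]
      linarith
    · have h2 := g2 (Fin.castAdd N i)
      simp only [Fin.append_left, Finset.univ_eq_empty, Finset.sum_empty, add_zero] at h2
      rw [hsum1, h2]
    · have h2 := g2 (Fin.natAdd N j)
      simp only [Fin.append_right, Finset.univ_eq_empty, Finset.sum_empty, add_zero] at h2
      rw [hsum2, h2]

end Pool.Agent.SFP
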