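import Pool.Agent.SFP.DefC

/-!
# Monotone reductions: formulas as sequences of clauses
-/

set_option autoImplicit false

namespace Pool.Agent.SFP

open Finset Pool.Agent.STH Pool.Agent.STD Pool.Agent.STS Pool.Agent.SFR

/-- padding of clauses -/
theorem pad3 {n : ℕ} (φ : CNF n) (h3 : ∀ cl ∈ φ, cl.length ≤ 3) (hne : ∀ cl ∈ φ, cl ≠ []) :
    ∃ ω : Fm n 3 φ.length, ∀ x, Mod ω x ↔ Sat φ x := by
  classical
  refine ⟨fun i j => if h : (j : ℕ) < (φ.get i).length then (φ.get i).get ⟨j, h⟩ else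
    (φ.get i).head (hne _ (List.get_mem φ i)), fun x => ?_⟩
  constructor
  · intro h cl hcl
    obtain ⟨i, rfl⟩ := List.get_of_mem hcl
    obtain ⟨j, hj⟩ := h i
    dsimp only at hj
    split_ifs at hj with hj'
    · exact ⟨_, List.get_mem _ _, hj⟩
    · exact ⟨_, List.head_mem _, hj⟩
  · intro h i
    obtain ⟨l, hl, hx⟩ := h (φ.get i) (List.get_mem φ i)
    obtain ⟨j, rfl⟩ := List.get_of_mem hl
    have hj3 : (j : ℕ) < 3 := lt_of_lt_of_le j.2 (h3 _ (List.get_mem φ i))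
    refine ⟨⟨j, hj3⟩, ?_⟩
    dsimp only
    rw [dif_pos j.2]
    exact hx

/-- the final statement of part 2 with sequences of clauses -/
def St_FinM : Prop := ∀ m : ℕ, ∃ M : ℕ, M ≤ 3 * (m * m) ∧ ∃ φ : Fm (m * m) 3 M,
  Nat.card {x : Fin (m * m) → Bool // Mod φ x} = 2 ^ m ∧
  ∀ (u q s : ℕ) (R : RedK (fun _ ψ => SchUnion u ψ ∨ HasLP q ψ ∨ Cov q ψ) (m * m) s)
    (r : Fin s) (Y : (Fin (m * m) → Bool) → Prop) (α β : ℝ), 0 < α →
    (∀ w : Fin (m * m) → Bool → ℝ, (∀ i b, 0 < w i b) →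
      α * wcount Y w ≤ R.val r w ∧ R.val r w ≤ β * wcount (Mod φ) w) →
    Nat.card {x : Fin (m * m) → Bool // Y x} ^ 2 ≤ 3 ^ m * (s * (s + q + (m + 1) * 2 ^ u))

theorem thm_FinM (h : St_FinC) : St_FinM := by
  intro m
  obtain ⟨φ, h1, h2, h3, h4⟩ := h m
  have hne : ∀ cl ∈ φ, cl ≠ [] := by
    rintro cl hcl rfl
    have : IsEmpty {x : Fin (m * m) → Bool // Sat φ x} := by
      refine ⟨fun x => ?_⟩
      obtain ⟨l, hl, _⟩ := x.2 [] hcl
      exact absurd hl (List.not_mem_nil)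
    rw [Nat.card_of_isEmpty] at h3
    exact absurd h3.symm (by positivity)
  obtain ⟨ω, hω⟩ := pad3 φ h2 hne
  have hfun : Mod ω = Sat φ := by
    funext x
    exact propext (hω x)
  refine ⟨φ.length, h1, ω, ?_, ?_⟩
  · rw [hfun]
    exact h3
  · intro u q s R r Y α β hα hR
    rw [hfun] at hR
    exact h4 u q s R r Y α β hα hR

end Pool.Agent.SFP
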