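import Pool.Agent.SFP.DefC
import Pool.Agent.SFP.Pad

/-!
# Monotone reductions: the final statement in cover form, for the explicit set of matrices
-/

set_option autoImplicit false

namespace Pool.Agent.SFP

open Finset Pool.Agent.STH Pool.Agent.STD Pool.Agent.STS Pool.Agent.SFR

/-- the bound for the explicit set -/
theorem thm_FinX (h1 : St_SupK) (h2 : St_Yan) (h3 : St_Sbc) (hC : St_Cov) (h5 : St_DecC)
    {m n : ℕ} (e : Fin m × Fin m ≃ Fin n) (u q s : ℕ)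
    (R : RedK (fun _ ψ => SchUnion u ψ ∨ HasLP q ψ ∨ Cov q ψ) n s) (r : Fin s)
    (Y : (Fin n → Bool) → Prop) (α β : ℝ) (hα : 0 < α)
    (hR : ∀ w : Fin n → Bool → ℝ, (∀ i b, 0 < w i b) →
      α * wcount Y w ≤ R.val r w ∧ R.val r w ≤ β * wcount (Cor e) w) :
    Nat.card {x : Fin n → Bool // Y x} ^ 2 ≤ 3 ^ m * (s * (s + q + (m + 1) * 2 ^ u)) := by
  rcases isEmpty_or_nonempty {x : Fin n → Bool // Y x} with hY | hY
  · rw [Nat.card_of_isEmpty]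
    exact Nat.zero_le _
  obtain ⟨⟨x₁, hx₁⟩⟩ := hY
  have hpos : 0 < (m + 1) * 2 ^ u := Nat.mul_pos (Nat.succ_pos m) (Nat.two_pow_pos u)
  have hQ : q + 1 ≤ q + (m + 1) * 2 ^ u := Nat.add_le_add_left hpos q
  have hQ' : q ≤ q + (m + 1) * 2 ^ u := Nat.le_add_right _ _
  have hK : ∀ N (ψ : (Fin N → Bool) → Prop), (SchUnion u ψ ∨ HasLP q ψ ∨ Cov q ψ) →
      KC u (q + (m + 1) * 2 ^ u) N ψ := by
    intro N ψ hψ
    rcases hψ with hψ | hψ | hψ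
    · exact Or.inl hψ
    · exact Or.inr (hC.2.2 N (q + 1) _ ψ hQ (hC.1 N (q + 1) ψ (h2 N q ψ hψ)))
    · exact Or.inr (hC.2.2 N q _ ψ hQ' hψ)
  have hsub : SubC (KC u (q + (m + 1) * 2 ^ u)) := by
    intro N ψ T hψ
    rcases hψ with hψ | hψ
    · exact Or.inl (h3.1 N u ψ T hψ)
    · exact Or.inr (hC.2.1 N _ ψ T hψ)
  let R' : RedK (KC u (q + (m + 1) * 2 ^ u)) n s :=
    { val := R.val
      ok := by
        intro v
        rcases R.ok v with h1 | ⟨N, ψ, c, hψ, h2⟩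
        · exact Or.inl h1
        · exact Or.inr ⟨N, ψ, c, hK N ψ hψ, h2⟩ }
  obtain ⟨D, hD1, hD2⟩ := h1 (KC u (q + (m + 1) * 2 ^ u)) hsub n s R' r Y (Cor e) α β hα
    ⟨x₁, hx₁⟩ hR
  have hcl : Nat.card {x : Fin n → Bool // Y x} ≤ Nat.card {x // D.val r x} :=
    Nat.card_le_card_of_injective (fun x => ⟨x.1, hD2 x.1 x.2⟩) fun x x' hxx' =>
      Subtype.ext (Subtype.mk.inj hxx')
  have hdec := h5 m n u (q + (m + 1) * 2 ^ u) s e (Nat.le_add_left _ _) D r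
    fun x hx => hD1 x hx
  calc Nat.card {x : Fin n → Bool // Y x} ^ 2 ≤ Nat.card {x // D.val r x} ^ 2 :=
        Nat.pow_le_pow_left hcl 2
    _ ≤ 3 ^ m * (s * (s + (q + (m + 1) * 2 ^ u))) := hdec
    _ = 3 ^ m * (s * (s + q + (m + 1) * 2 ^ u)) := by rw [Nat.add_assoc s q]

/-- the explicit set is the set of models of a 3-CNF -/
theorem thm_EncX (h4 : St_Enc) {m n : ℕ} (e : Fin m × Fin m ≃ Fin n) :
    (∃ M : ℕ, M ≤ 3 * n ∧ ∃ φ : Fm n 3 M, ∀ x, Mod φ x ↔ Cor e x) ∧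
      Nat.card {x // Cor e x} = 2 ^ m := by
  obtain ⟨⟨φ, h1, h2, h3⟩, hcard⟩ := h4 m n e
  have hne : ∀ cl ∈ φ, cl ≠ [] := by
    rintro cl hcl rfl
    have : IsEmpty {x : Fin n → Bool // Cor e x} := by
      refine ⟨fun x => ?_⟩
      obtain ⟨l, hl, _⟩ := (h3 x.1).2 x.2 [] hcl
      exact absurd hl List.not_mem_nil
    rw [Nat.card_of_isEmpty] at hcard
    exact absurd hcard.symm (by positivity)
  obtain ⟨ω, hω⟩ := pad3 φ h2 hne
  exact ⟨⟨φ.length, h1, ω, fun x => (hω x).trans (h3 x)⟩, hcard⟩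

end Pool.Agent.SFP
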