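import Mathlib

/-!
# Edmonds' perfect matching polytope theorem, in support function form

Proof from Tutte's theorem: a maximiser has a tight odd cut (contract both sides), or it can be
moved away from a perfect matching in its support.
-/

set_option autoImplicit false

namespace Pool.Agent.SFP

open Finset

variable {α : Type} [DecidableEq α]

/-- `σ` is a perfect matching of `S` -/
def PM (S : Finset α) (σ : α → α) : Prop := ∀ v ∈ S, σ v ∈ S ∧ σ v ≠ v ∧ σ (σ v) = v

/-- the point `x` satisfies the inequalities of Edmonds for the complete graph on `S` -/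
structure Edm (S : Finset α) (x : α → α → ℝ) : Prop where
  sym : ∀ u v, x u v = x v u
  diag : ∀ v, x v v = 0
  pos : ∀ u v, 0 ≤ x u v
  deg : ∀ v ∈ S, ∑ u ∈ S, x v u = 1
  cut : ∀ U ⊆ S, Odd U.card → 1 ≤ ∑ u ∈ U, ∑ v ∈ S \ U, x u v

/-- sets with an even number of elements have perfect matchings -/
theorem Edm_exists : ∀ (n : ℕ) (S : Finset α), S.card = n → Even n → ∃ σ, PM S σ := by
  intro n
  induction n using Nat.strong_induction_on with
  | _ n ih =>
    intro S hS hn
    rcases Nat.eq_zero_or_pos n with h0 | h0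
    · subst h0
      rw [Finset.card_eq_zero] at hS
      subst hS
      exact ⟨id, fun v hv => absurd hv (Finset.notMem_empty v)⟩
    · have h2 : 2 ≤ n := by
        obtain ⟨k, rfl⟩ := hn
        omega
      obtain ⟨a, ha⟩ := Finset.card_pos.1 (hS ▸ h0)
      have h3 : (S.erase a).card = n - 1 := by rw [Finset.card_erase_of_mem ha, hS]
      obtain ⟨b, hb⟩ := Finset.card_pos.1 (by rw [h3]; omega : 0 < (S.erase a).card)
      have hba : b ≠ a := Finset.ne_of_mem_erase hb
      have hbS : b ∈ S := Finset.mem_of_mem_erase hb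
      have h4 : ((S.erase a).erase b).card = n - 2 := by
        rw [Finset.card_erase_of_mem hb, h3]
        omega
      obtain ⟨τ, hτ⟩ := ih (n - 2) (by omega) _ h4 (by
        obtain ⟨k, rfl⟩ := hn
        exact ⟨k - 1, by omega⟩)
      refine ⟨fun v => if v = a then b else if v = b then a else τ v, fun v hv => ?_⟩
      by_cases hva : v = a
      · subst hva
        simp only [if_true, if_neg hba]
        exact ⟨hbS, hba, trivial⟩
      · by_cases hvb : v = b
        · subst hvb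
          simp only [if_neg hba, if_true]
          exact ⟨ha, hba.symm, trivial⟩
        · have hv' : v ∈ (S.erase a).erase b :=
            Finset.mem_erase.2 ⟨hvb, Finset.mem_erase.2 ⟨hva, hv⟩⟩
          obtain ⟨h5, h6, h7⟩ := hτ v hv'
          have h8 : τ v ≠ b := Finset.ne_of_mem_erase h5
          have h9 : τ v ≠ a := Finset.ne_of_mem_erase (Finset.mem_of_mem_erase h5)
          simp only [if_neg hva, if_neg hvb, if_neg h8, if_neg h9]
          exact ⟨Finset.mem_of_mem_erase (Finset.mem_of_mem_erase h5), h6, h7⟩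

/-- contraction of one side of a tight cut -/
private theorem contract (n : ℕ) (ih : ∀ m < n, ∀ S : Finset α, S.card = m →
      ∀ (x w : α → α → ℝ) (W : ℝ), Edm S x → (∀ σ, PM S σ → ∑ v ∈ S, w v (σ v) ≤ W) →
      ∑ u ∈ S, ∑ v ∈ S, w u v * x u v ≤ W)
    (S : Finset α) (hS : S.card = n) (x w : α → α → ℝ) (hx : Edm S x) (U : Finset α) (hU : U ⊆ S)
    (hodd : Odd U.card) (hbig : 1 < (S \ U).card)
    (htight : ∑ u ∈ U, ∑ v ∈ S \ U, x u v = 1) (A : α → ℝ)
    (hA : ∀ u ∈ U, ∀ τ, PM (U.erase u) τ → ∑ v ∈ U.erase u, w v (τ v) ≤ A u) :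
    ∑ u ∈ U, ∑ v ∈ U, w u v * x u v ≤ ∑ u ∈ U, A u * ∑ v ∈ S \ U, x u v := by
  obtain ⟨v0, hv0⟩ : ∃ v0, v0 ∈ S \ U := Finset.card_pos.1 (by omega)
  have hv0S : v0 ∈ S := (Finset.mem_sdiff.1 hv0).1
  have hv0U : v0 ∉ U := (Finset.mem_sdiff.1 hv0).2
  have hcard : (insert v0 U).card = U.card + 1 := Finset.card_insert_of_notMem hv0U
  have hcS : U.card + (S \ U).card = S.card := by
    rw [Finset.card_sdiff_of_subset hU]
    have := Finset.card_le_card hU
    omega
  obtain ⟨d, hd⟩ : ∃ d : α → ℝ, d = fun u => ∑ v ∈ S \ U, x u v := ⟨_, rfl⟩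
  obtain ⟨x1, hx1⟩ : ∃ x1 : α → α → ℝ, x1 = fun u v =>
    if u ∈ U then (if v ∈ U then x u v else if v = v0 then d u else 0)
    else (if u = v0 then (if v ∈ U then d v else 0) else 0) := ⟨_, rfl⟩
  obtain ⟨w1, hw1⟩ : ∃ w1 : α → α → ℝ, w1 = fun u v =>
    if u ∈ U then (if v ∈ U then w u v else -A u) else 0 := ⟨_, rfl⟩
  have x1UU : ∀ u ∈ U, ∀ v ∈ U, x1 u v = x u v := fun u hu v hv => by
    rw [hx1]; simp only [if_pos hu, if_pos hv]
  have x1U0 : ∀ u ∈ U, x1 u v0 = d u := fun u hu => by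
    rw [hx1]; simp only [if_pos hu, if_neg hv0U, if_true]
  have x10U : ∀ v ∈ U, x1 v0 v = d v := fun v hv => by
    rw [hx1]; simp only [if_neg hv0U, if_true, if_pos hv]
  have x100 : x1 v0 v0 = 0 := by
    rw [hx1]; simp only [if_neg hv0U, if_true]
  have hd0 : ∀ u, 0 ≤ d u := fun u => by
    rw [hd]; exact Finset.sum_nonneg fun v _ => hx.pos u v
  -- `x1` satisfies the inequalities
  have sum1 : ∀ f : α → ℝ, ∑ v ∈ insert v0 U, f v = f v0 + ∑ v ∈ U, f v := fun f =>
    Finset.sum_insert hv0U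
  have cut1 : ∀ T ⊆ U, Odd T.card → 1 ≤ ∑ u ∈ T, ∑ v ∈ insert v0 U \ T, x1 u v := by
    intro T hT hTodd
    have h1 := hx.cut T (hT.trans hU) hTodd
    refine h1.trans (le_of_eq ?_)
    refine Finset.sum_congr rfl fun u hu => ?_
    have hv0T : v0 ∉ T := fun h => hv0U (hT h)
    have e1 : insert v0 U \ T = insert v0 (U \ T) := by
      rw [Finset.insert_sdiff_of_notMem _ hv0T]
    have e2 : S \ T = (S \ U) ∪ (U \ T) := by
      ext v
      simp only [Finset.mem_sdiff, Finset.mem_union]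
      constructor
      · rintro ⟨h2, h3⟩
        by_cases h4 : v ∈ U
        · exact Or.inr ⟨h4, h3⟩
        · exact Or.inl ⟨h2, h4⟩
      · rintro (⟨h2, h3⟩ | ⟨h2, h3⟩)
        · exact ⟨h2, fun h => h3 (hT h)⟩
        · exact ⟨hU h2, h3⟩
    have e3 : Disjoint (S \ U) (U \ T) := by
      rw [Finset.disjoint_left]
      intro v h2 h3
      exact (Finset.mem_sdiff.1 h2).2 (Finset.mem_sdiff.1 h3).1
    rw [e1, e2, Finset.sum_union e3, Finset.sum_insert (fun h => hv0U (Finset.mem_sdiff.1 h).1),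
      x1U0 u (hT hu), hd]
    congr 1
    exact Finset.sum_congr rfl fun v hv => (x1UU u (hT hu) v (Finset.mem_sdiff.1 hv).1).symm
  have hEdm : Edm (insert v0 U) x1 := by
    refine ⟨fun u v => ?_, fun v => ?_, fun u v => ?_, fun v hv => ?_, fun T hT hTodd => ?_⟩
    · rw [hx1]
      by_cases hu : u ∈ U <;> by_cases hv : v ∈ U
      · simp only [if_pos hu, if_pos hv]
        exact hx.sym u v
      · simp only [if_pos hu, if_neg hv]
      · simp only [if_neg hu, if_pos hv]
      · simp only [if_neg hu, if_neg hv]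
        split_ifs <;> rfl
    · rw [hx1]
      by_cases hv : v ∈ U
      · simp only [if_pos hv]
        exact hx.diag v
      · simp only [if_neg hv]
        split_ifs <;> rfl
    · rw [hx1]
      show 0 ≤ if u ∈ U then (if v ∈ U then x u v else if v = v0 then d u else 0)
        else (if u = v0 then (if v ∈ U then d v else 0) else 0)
      split_ifs
      · exact hx.pos u v
      · exact hd0 u
      · exact le_rfl
      · exact hd0 v
      · exact le_rfl
      · exact le_rfl
    · rcases Finset.mem_insert.1 hv with rfl | hv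
      · rw [sum1, x100, zero_add, Finset.sum_congr rfl x10U, hd]
        exact htight
      · rw [sum1, x1U0 v hv, Finset.sum_congr rfl (x1UU v hv), ← hx.deg v (hU hv), hd]
        show ∑ v_1 ∈ S \ U, x v v_1 + ∑ x_1 ∈ U, x v x_1 = ∑ u ∈ S, x v u
        exact Finset.sum_sdiff hU
    · by_cases hv0T : v0 ∈ T
      · have hT' : insert v0 U \ T ⊆ U := by
          intro v hv
          obtain ⟨h1, h2⟩ := Finset.mem_sdiff.1 hv
          rcases Finset.mem_insert.1 h1 with rfl | h1
          · exact absurd hv0T h2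
          · exact h1
        have hodd' : Odd (insert v0 U \ T).card := by
          rw [Finset.card_sdiff_of_subset hT, hcard]
          have h1 := Finset.card_le_card hT
          rw [hcard] at h1
          obtain ⟨a, ha⟩ := hodd
          obtain ⟨b, hb⟩ := hTodd
          exact ⟨a - b, by omega⟩
        have h1 := cut1 _ hT' hodd'
        rw [Finset.sdiff_sdiff_eq_self hT, Finset.sum_comm] at h1
        refine h1.trans (le_of_eq ?_)
        refine Finset.sum_congr rfl fun u _ => Finset.sum_congr rfl fun v _ => ?_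
        rw [hx1]
        by_cases hu : u ∈ U <;> by_cases hv : v ∈ U
        · simp only [if_pos hu, if_pos hv]
          exact hx.sym v u
        · simp only [if_pos hu, if_neg hv]
        · simp only [if_neg hu, if_pos hv]
        · simp only [if_neg hu, if_neg hv]
          split_ifs <;> rfl
      · refine cut1 T (fun v hv => ?_) hTodd
        rcases Finset.mem_insert.1 (hT hv) with rfl | h1
        · exact absurd hv hv0T
        · exact h1
  -- perfect matchings of the contracted graph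
  have hPM : ∀ σ, PM (insert v0 U) σ → ∑ v ∈ insert v0 U, w1 v (σ v) ≤ 0 := by
    intro σ hσ
    obtain ⟨h1, h2, h3⟩ := hσ v0 (Finset.mem_insert_self _ _)
    have huU : σ v0 ∈ U := by
      rcases Finset.mem_insert.1 h1 with h4 | h4
      · exact absurd h4 h2
      · exact h4
    have hPM' : PM (U.erase (σ v0)) σ := by
      intro v hv
      obtain ⟨h4, h5⟩ := Finset.mem_erase.1 hv
      obtain ⟨h6, h7, h8⟩ := hσ v (Finset.mem_insert_of_mem h5)
      refine ⟨Finset.mem_erase.2 ⟨fun h9 => ?_, ?_⟩, h7, h8⟩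
      · rw [h9, h3] at h8
        exact hv0U (h8 ▸ h5)
      · rcases Finset.mem_insert.1 h6 with h9 | h9
        · rw [h9] at h8
          exact absurd h8.symm h4
        · exact h9
    have h4 := hA (σ v0) huU σ hPM'
    rw [sum1, ← Finset.add_sum_erase U _ huU]
    have e1 : w1 v0 (σ v0) = 0 := by
      rw [hw1]; simp only [if_neg hv0U]
    have e2 : w1 (σ v0) (σ (σ v0)) = -A (σ v0) := by
      rw [hw1, h3]; simp only [if_pos huU, if_neg hv0U]
    have e3 : ∑ v ∈ U.erase (σ v0), w1 v (σ v) = ∑ v ∈ U.erase (σ v0), w v (σ v) := by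
      refine Finset.sum_congr rfl fun v hv => ?_
      have h5 := Finset.mem_of_mem_erase hv
      have h6 := Finset.mem_of_mem_erase (hPM' v hv).1
      rw [hw1]; simp only [if_pos h5, if_pos h6]
    rw [e1, e2, e3]
    linarith
  have hlt : U.card + 1 < n := by omega
  have hmain := ih (U.card + 1) hlt (insert v0 U) hcard x1 w1 0 hEdm hPM
  rw [sum1] at hmain
  have e1 : ∑ v ∈ insert v0 U, w1 v0 v * x1 v0 v = 0 := by
    refine Finset.sum_eq_zero fun v _ => ?_
    rw [hw1]; simp only [if_neg hv0U, zero_mul]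
  have e2 : ∑ u ∈ U, ∑ v ∈ insert v0 U, w1 u v * x1 u v =
      ∑ u ∈ U, (-(A u * d u) + ∑ v ∈ U, w u v * x u v) := by
    refine Finset.sum_congr rfl fun u hu => ?_
    rw [sum1, x1U0 u hu]
    congr 1
    · rw [hw1]; simp only [if_pos hu, if_neg hv0U]
      ring
    · refine Finset.sum_congr rfl fun v hv => ?_
      rw [x1UU u hu v hv, hw1]
      simp only [if_pos hu, if_pos hv]
  rw [e1, e2, zero_add, Finset.sum_add_distrib, Finset.sum_neg_distrib, hd] at hmain
  linarith

/-- the support has a perfect matching, by Tutte's theorem -/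
private theorem supp_pm (S : Finset α) (x : α → α → ℝ) (hx : Edm S x) :
    ∃ σ, PM S σ ∧ ∀ v ∈ S, 0 < x v (σ v) := by
  classical
  obtain ⟨G, hG⟩ : ∃ G : SimpleGraph {v // v ∈ S}, ∀ u v, G.Adj u v ↔ 0 < x u.1 v.1 := by
    refine ⟨⟨fun u v => 0 < x u.1 v.1, ⟨fun u v h => ?_⟩, ⟨fun u h => ?_⟩⟩, fun u v => Iff.rfl⟩
    · show 0 < x v.1 u.1
      rw [hx.sym]
      exact h
    · have h1 : 0 < x u.1 u.1 := h
      rw [hx.diag] at h1
      exact lt_irrefl _ h1
  have hT : ∀ u : Set {v // v ∈ S}, ¬ G.IsTutteViolator u := by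
    intro u hu
    unfold SimpleGraph.IsTutteViolator at hu
    obtain ⟨O, hO⟩ : ∃ O : Finset (((⊤ : G.Subgraph).deleteVerts u).coe.ConnectedComponent),
      O = (((⊤ : G.Subgraph).deleteVerts u).coe.oddComponents).toFinset := ⟨_, rfl⟩
    obtain ⟨u', hu'⟩ : ∃ u' : Finset α, u' = u.toFinset.image Subtype.val := ⟨_, rfl⟩
    have hu'c : u'.card = u.ncard := by
      rw [hu', Finset.card_image_of_injective _ Subtype.val_injective,
        ← Set.ncard_eq_toFinset_card']
    obtain ⟨U, hU⟩ : ∃ U : ((⊤ : G.Subgraph).deleteVerts u).coe.ConnectedComponent → Finset α,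
      U = fun c => c.supp.toFinset.image fun v => v.1.1 := ⟨_, rfl⟩
    have hinj : Function.Injective
        fun v : ((⊤ : G.Subgraph).deleteVerts u).verts => (v.1.1 : α) := fun v v' h =>
      Subtype.ext (Subtype.ext h)
    have hmemU : ∀ c a, a ∈ U c ↔ ∃ v : ((⊤ : G.Subgraph).deleteVerts u).verts,
        v ∈ c.supp ∧ v.1.1 = a := by
      intro c a
      rw [hU]
      simp only [Finset.mem_image, Set.mem_toFinset]
    have hUc : ∀ c, (U c).card = c.supp.ncard := by
      intro c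
      rw [hU]
      show (c.supp.toFinset.image fun v => v.1.1).card = _
      rw [Finset.card_image_of_injective _ hinj, ← Set.ncard_eq_toFinset_card']
    have hUS : ∀ c, U c ⊆ S := by
      intro c a ha
      obtain ⟨v, _, rfl⟩ := (hmemU c a).1 ha
      exact v.1.2
    have h1 : ∀ c ∈ O, 1 ≤ ∑ a ∈ U c, ∑ b ∈ u', x a b := by
      intro c hc
      have hodd : Odd (U c).card := by
        rw [hUc c]
        rw [hO, Set.mem_toFinset] at hc
        exact hc
      refine (hx.cut (U c) (hUS c) hodd).trans (Finset.sum_le_sum fun a ha => ?_)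
      have h2 : ∑ b ∈ (S \ U c) ∩ u', x a b = ∑ b ∈ S \ U c, x a b := by
        refine Finset.sum_subset Finset.inter_subset_left fun b hb hb' => ?_
        by_contra hne
        have hpos : 0 < x a b := lt_of_le_of_ne (hx.pos a b) (Ne.symm hne)
        obtain ⟨hbS, hbU⟩ := Finset.mem_sdiff.1 hb
        have hbu : (⟨b, hbS⟩ : {v // v ∈ S}) ∉ u := by
          intro h3
          refine hb' (Finset.mem_inter.2 ⟨hb, ?_⟩)
          rw [hu']
          exact Finset.mem_image.2 ⟨⟨b, hbS⟩, Set.mem_toFinset.2 h3, rfl⟩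
        have hbv : (⟨b, hbS⟩ : {v // v ∈ S}) ∈ ((⊤ : G.Subgraph).deleteVerts u).verts := by
          rw [SimpleGraph.Subgraph.deleteVerts_verts]
          exact ⟨Set.mem_univ _, hbu⟩
        obtain ⟨v, hv, hva⟩ := (hmemU c a).1 ha
        have hadj : ((⊤ : G.Subgraph).deleteVerts u).coe.Adj v ⟨⟨b, hbS⟩, hbv⟩ := by
          rw [SimpleGraph.Subgraph.coe_adj, SimpleGraph.Subgraph.deleteVerts_adj]
          have h3 : v.1 ∈ (⊤ : G.Subgraph).verts \ u := v.2
          refine ⟨Set.mem_univ _, h3.2, Set.mem_univ _, hbu, ?_⟩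
          show G.Adj v.1 ⟨b, hbS⟩
          rw [hG, hva]
          exact hpos
        refine hbU ((hmemU c b).2 ⟨⟨⟨b, hbS⟩, hbv⟩, ?_, rfl⟩)
        rw [SimpleGraph.ConnectedComponent.mem_supp_iff] at hv ⊢
        rw [← hv]
        exact (SimpleGraph.ConnectedComponent.sound hadj.reachable).symm
      rw [← h2]
      exact Finset.sum_le_sum_of_subset_of_nonneg Finset.inter_subset_right
        fun b _ _ => hx.pos a b
    have hdisj : (O : Set _).PairwiseDisjoint U := by
      intro c _ c' _ hne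
      rw [Function.onFun, Finset.disjoint_left]
      intro a ha ha'
      obtain ⟨v, hv, hva⟩ := (hmemU c a).1 ha
      obtain ⟨v', hv', hva'⟩ := (hmemU c' a).1 ha'
      have h2 : v = v' := hinj (hva.trans hva'.symm)
      subst h2
      rw [SimpleGraph.ConnectedComponent.mem_supp_iff] at hv hv'
      exact hne (hv.symm.trans hv')
    have h2 : (O.card : ℝ) ≤ u'.card := by
      calc (O.card : ℝ) = ∑ _c ∈ O, (1 : ℝ) := by rw [Finset.sum_const, nsmul_eq_mul, mul_one]
        _ ≤ ∑ c ∈ O, ∑ a ∈ U c, ∑ b ∈ u', x a b := Finset.sum_le_sum h1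
        _ = ∑ a ∈ O.biUnion U, ∑ b ∈ u', x a b := (Finset.sum_biUnion hdisj).symm
        _ ≤ ∑ a ∈ S, ∑ b ∈ u', x a b := by
            refine Finset.sum_le_sum_of_subset_of_nonneg ?_ fun a _ _ =>
              Finset.sum_nonneg fun b _ => hx.pos a b
            intro a ha
            obtain ⟨c, _, hc⟩ := Finset.mem_biUnion.1 ha
            exact hUS c hc
        _ = ∑ b ∈ u', ∑ a ∈ S, x b a := by
            rw [Finset.sum_comm]
            exact Finset.sum_congr rfl fun b _ => Finset.sum_congr rfl fun a _ => hx.sym a b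
        _ = ∑ _b ∈ u', (1 : ℝ) := by
            refine Finset.sum_congr rfl fun b hb => hx.deg b ?_
            rw [hu'] at hb
            obtain ⟨v, _, rfl⟩ := Finset.mem_image.1 hb
            exact v.2
        _ = u'.card := by rw [Finset.sum_const, nsmul_eq_mul, mul_one]
    have h3 : O.card = (((⊤ : G.Subgraph).deleteVerts u).coe.oddComponents).ncard := by
      rw [hO, ← Set.ncard_eq_toFinset_card']
    have h4 : O.card ≤ u'.card := by exact_mod_cast h2
    rw [h3, hu'c] at h4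
    exact absurd hu (not_lt.2 h4)
  obtain ⟨M, hM⟩ := SimpleGraph.tutte.2 hT
  rw [SimpleGraph.Subgraph.isPerfectMatching_iff] at hM
  choose f hf hf' using hM
  refine ⟨fun v => if h : v ∈ S then (f ⟨v, h⟩).1 else v, fun v hv => ?_, fun v hv => ?_⟩
  · have e1 : (if h : v ∈ S then (f ⟨v, h⟩).1 else v) = (f ⟨v, hv⟩).1 := dif_pos hv
    have e2 : (if h : (f ⟨v, hv⟩).1 ∈ S then (f ⟨(f ⟨v, hv⟩).1, h⟩).1 else (f ⟨v, hv⟩).1) =
        (f (f ⟨v, hv⟩)).1 := dif_pos (f ⟨v, hv⟩).2
    simp only [e1, e2]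
    refine ⟨(f ⟨v, hv⟩).2, fun h => ?_, ?_⟩
    · have h1 := (hf ⟨v, hv⟩).adj_sub
      have h2 : f ⟨v, hv⟩ = ⟨v, hv⟩ := Subtype.ext h
      rw [h2] at h1
      exact h1.ne rfl
    · have h1 := hf' (f ⟨v, hv⟩) ⟨v, hv⟩ (hf ⟨v, hv⟩).symm
      rw [← h1]
  · have e1 : (if h : v ∈ S then (f ⟨v, h⟩).1 else v) = (f ⟨v, hv⟩).1 := dif_pos hv
    simp only [e1]
    exact (hG _ _).1 (hf ⟨v, hv⟩).adj_sub

/-- the number of vertices is even -/
private theorem even_card (S : Finset α) (x : α → α → ℝ) (hx : Edm S x) : Even S.card := by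
  by_contra h
  have h1 := hx.cut S subset_rfl (Nat.not_even_iff_odd.1 h)
  rw [Finset.sdiff_self] at h1
  simp only [Finset.sum_empty, Finset.sum_const_zero] at h1
  linarith

/-- the value at `x` is at most the largest weight `W`, if some nontrivial cut is tight -/
private theorem tight_case (n : ℕ) (ih : ∀ m < n, ∀ S : Finset α, S.card = m →
      ∀ (x w : α → α → ℝ) (W : ℝ), Edm S x → (∀ σ, PM S σ → ∑ v ∈ S, w v (σ v) ≤ W) →
      ∑ u ∈ S, ∑ v ∈ S, w u v * x u v ≤ W) [Finite α]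
    (S : Finset α) (hS : S.card = n) (x w : α → α → ℝ) (W : ℝ) (hx : Edm S x)
    (hW : ∀ σ, PM S σ → ∑ v ∈ S, w v (σ v) ≤ W) (U : Finset α) (hU : U ⊆ S)
    (hodd : Odd U.card) (hU1 : 1 < U.card) (hU2 : 1 < (S \ U).card)
    (htight : ∑ u ∈ U, ∑ v ∈ S \ U, x u v ≤ 1) :
    ∑ u ∈ S, ∑ v ∈ S, w u v * x u v ≤ W := by
  classical
  have hSe := even_card S x hx
  have ht : ∑ u ∈ U, ∑ v ∈ S \ U, x u v = 1 := le_antisymm htight (hx.cut U hU hodd)
  have hcS : U.card + (S \ U).card = S.card := by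
    rw [Finset.card_sdiff_of_subset hU]
    have := Finset.card_le_card hU
    omega
  have hodd' : Odd (S \ U).card := by
    obtain ⟨a, ha⟩ := hodd
    obtain ⟨b, hb⟩ := hSe
    exact ⟨b - a - 1, by omega⟩
  have hSU : S \ (S \ U) = U := Finset.sdiff_sdiff_eq_self hU
  -- largest weights
  have hmax : ∀ T : Finset α, ∃ τ, Even T.card → PM T τ ∧
      ∀ τ', PM T τ' → ∑ v ∈ T, w v (τ' v) ≤ ∑ v ∈ T, w v (τ v) := by
    intro T
    by_cases hT : Even T.card
    · obtain ⟨τ, hτ1, hτ2⟩ := Set.exists_max_image {τ : α → α | PM T τ}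
        (fun τ => ∑ v ∈ T, w v (τ v)) (Set.toFinite _) (Edm_exists T.card T rfl hT)
      exact ⟨τ, fun _ => ⟨hτ1, hτ2⟩⟩
    · exact ⟨id, fun h => absurd h hT⟩
  choose τ hτ using hmax
  have hev : ∀ u ∈ U, Even (U.erase u).card := by
    intro u hu
    rw [Finset.card_erase_of_mem hu]
    obtain ⟨a, ha⟩ := hodd
    exact ⟨a, by omega⟩
  have hev' : ∀ v ∈ S \ U, Even ((S \ U).erase v).card := by
    intro v hv
    rw [Finset.card_erase_of_mem hv]
    obtain ⟨a, ha⟩ := hodd'
    exact ⟨a, by omega⟩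
  obtain ⟨A, hA⟩ : ∃ A : α → ℝ, A = fun u => ∑ v ∈ U.erase u, w v (τ (U.erase u) v) := ⟨_, rfl⟩
  obtain ⟨B, hB⟩ : ∃ B : α → ℝ,
    B = fun u => ∑ v ∈ (S \ U).erase u, w v (τ ((S \ U).erase u) v) := ⟨_, rfl⟩
  have h1 := contract n ih S hS x w hx U hU hodd hU2 ht A (fun u hu τ' hτ' => by
    rw [hA]
    exact (hτ _ (hev u hu)).2 τ' hτ')
  have ht' : ∑ u ∈ S \ U, ∑ v ∈ S \ (S \ U), x u v = 1 := by
    rw [hSU, Finset.sum_comm, ← ht]
    exact Finset.sum_congr rfl fun u _ => Finset.sum_congr rfl fun v _ => hx.sym v u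
  have h2 := contract n ih S hS x w hx (S \ U) Finset.sdiff_subset hodd' (by rw [hSU]; exact hU1)
    ht' B (fun u hu τ' hτ' => by
      rw [hB]
      exact (hτ _ (hev' u hu)).2 τ' hτ')
  rw [hSU] at h2
  -- gluing
  have h3 : ∀ u ∈ U, ∀ v ∈ S \ U, A u + B v + w u v + w v u ≤ W := by
    intro u hu v hv
    obtain ⟨hvS, hvU⟩ := Finset.mem_sdiff.1 hv
    obtain ⟨p1, _⟩ := hτ _ (hev u hu)
    obtain ⟨p2, _⟩ := hτ _ (hev' v hv)
    obtain ⟨τ1, hτ1⟩ : ∃ τ1, τ1 = τ (U.erase u) := ⟨_, rfl⟩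
    obtain ⟨τ2, hτ2⟩ : ∃ τ2, τ2 = τ ((S \ U).erase v) := ⟨_, rfl⟩
    rw [← hτ1] at p1
    rw [← hτ2] at p2
    obtain ⟨σ, hσ⟩ : ∃ σ : α → α, σ = fun z =>
      if z = u then v else if z = v then u else if z ∈ U then τ1 z else τ2 z := ⟨_, rfl⟩
    have huv : u ≠ v := fun h => hvU (h ▸ hu)
    have s1 : σ u = v := by rw [hσ]; simp only [if_true]
    have s2 : σ v = u := by rw [hσ]; simp only [if_neg huv.symm, if_true]
    have s3 : ∀ z ∈ U.erase u, σ z = τ1 z := by
      intro z hz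
      have hz1 : z ≠ u := Finset.ne_of_mem_erase hz
      have hz2 : z ∈ U := Finset.mem_of_mem_erase hz
      have hz3 : z ≠ v := fun h => hvU (h ▸ hz2)
      rw [hσ]
      simp only [if_neg hz1, if_neg hz3, if_pos hz2]
    have s4 : ∀ z ∈ (S \ U).erase v, σ z = τ2 z := by
      intro z hz
      have hz1 : z ≠ v := Finset.ne_of_mem_erase hz
      obtain ⟨hz2, hz3⟩ := Finset.mem_sdiff.1 (Finset.mem_of_mem_erase hz)
      have hz4 : z ≠ u := fun h => hz3 (h ▸ hu)
      rw [hσ]
      simp only [if_neg hz4, if_neg hz1, if_neg hz3]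
    have hPM : PM S σ := by
      intro z hz
      by_cases hzu : z = u
      · subst hzu
        rw [s1, s2]
        exact ⟨hvS, huv.symm, rfl⟩
      · by_cases hzv : z = v
        · subst hzv
          rw [s2, s1]
          exact ⟨hU hu, huv, rfl⟩
        · by_cases hzU : z ∈ U
          · have hz' : z ∈ U.erase u := Finset.mem_erase.2 ⟨hzu, hzU⟩
            obtain ⟨q1, q2, q3⟩ := p1 z hz'
            rw [s3 z hz', s3 _ q1]
            exact ⟨hU (Finset.mem_of_mem_erase q1), q2, q3⟩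
          · have hz' : z ∈ (S \ U).erase v :=
              Finset.mem_erase.2 ⟨hzv, Finset.mem_sdiff.2 ⟨hz, hzU⟩⟩
            obtain ⟨q1, q2, q3⟩ := p2 z hz'
            rw [s4 z hz', s4 _ q1]
            exact ⟨Finset.sdiff_subset (Finset.mem_of_mem_erase q1), q2, q3⟩
    have h4 := hW σ hPM
    rw [← Finset.sum_sdiff hU, ← Finset.add_sum_erase U _ hu, ← Finset.add_sum_erase (S \ U) _ hv,
      s1, s2, Finset.sum_congr rfl fun z hz => congrArg (w z) (s3 z hz),
      Finset.sum_congr rfl fun z hz => congrArg (w z) (s4 z hz)] at h4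
    rw [hA, hB]
    show ∑ v ∈ U.erase u, w v (τ (U.erase u) v) +
      ∑ z ∈ (S \ U).erase v, w z (τ ((S \ U).erase v) z) + w u v + w v u ≤ W
    rw [← hτ1, ← hτ2]
    linarith
  -- the sum
  have e1 : ∑ u ∈ S, ∑ v ∈ S, w u v * x u v =
      ∑ u ∈ U, ∑ v ∈ U, w u v * x u v + ∑ u ∈ S \ U, ∑ v ∈ S \ U, w u v * x u v +
      (∑ u ∈ U, ∑ v ∈ S \ U, w u v * x u v + ∑ u ∈ S \ U, ∑ v ∈ U, w u v * x u v) := by
    have e2 : ∀ u, ∑ v ∈ S, w u v * x u v =
        ∑ v ∈ S \ U, w u v * x u v + ∑ v ∈ U, w u v * x u v := fun u =>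
      (Finset.sum_sdiff hU).symm
    rw [← Finset.sum_sdiff hU, Finset.sum_congr rfl fun u _ => e2 u,
      Finset.sum_congr rfl fun (u : α) (_ : u ∈ U) => e2 u, Finset.sum_add_distrib,
      Finset.sum_add_distrib]
    ring
  have e3 : ∑ u ∈ S \ U, ∑ v ∈ U, w u v * x u v = ∑ u ∈ U, ∑ v ∈ S \ U, w v u * x u v := by
    rw [Finset.sum_comm]
    exact Finset.sum_congr rfl fun u _ => Finset.sum_congr rfl fun v _ => by rw [hx.sym v u]
  have e4 : ∑ u ∈ S \ U, B u * ∑ v ∈ U, x u v = ∑ u ∈ U, ∑ v ∈ S \ U, B v * x u v := by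
    simp only [Finset.mul_sum]
    rw [Finset.sum_comm]
    exact Finset.sum_congr rfl fun u _ => Finset.sum_congr rfl fun v _ => by rw [hx.sym v u]
  have e5 : ∑ u ∈ U, A u * ∑ v ∈ S \ U, x u v = ∑ u ∈ U, ∑ v ∈ S \ U, A u * x u v := by
    simp only [Finset.mul_sum]
  have h5 : ∑ u ∈ U, ∑ v ∈ S \ U, (A u + B v + w u v + w v u) * x u v ≤
      ∑ u ∈ U, ∑ v ∈ S \ U, W * x u v :=
    Finset.sum_le_sum fun u hu => Finset.sum_le_sum fun v hv =>
      mul_le_mul_of_nonneg_right (h3 u hu v hv) (hx.pos u v)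
  have h6 : ∑ u ∈ U, ∑ v ∈ S \ U, W * x u v = W := by
    simp only [← Finset.mul_sum]
    rw [ht, mul_one]
  have h7 : ∑ u ∈ U, ∑ v ∈ S \ U, (A u + B v + w u v + w v u) * x u v =
      ∑ u ∈ U, ∑ v ∈ S \ U, A u * x u v + ∑ u ∈ U, ∑ v ∈ S \ U, B v * x u v +
      ∑ u ∈ U, ∑ v ∈ S \ U, w u v * x u v + ∑ u ∈ U, ∑ v ∈ S \ U, w v u * x u v := by
    simp only [add_mul, Finset.sum_add_distrib]
  rw [e1, e3]
  rw [e4] at h2
  rw [e5] at h1
  linarith

/-- the matrix of a perfect matching -/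
private def pmx (S : Finset α) (σ : α → α) (u v : α) : ℝ := if u ∈ S ∧ σ u = v then 1 else 0

private theorem pmx_sym (S : Finset α) (σ : α → α) (hσ : PM S σ) (u v : α) :
    pmx S σ u v = pmx S σ v u := by
  unfold pmx
  have h : ∀ u v : α, u ∈ S ∧ σ u = v → v ∈ S ∧ σ v = u := by
    rintro u v ⟨h1, rfl⟩
    exact ⟨(hσ u h1).1, (hσ u h1).2.2⟩
  by_cases h1 : u ∈ S ∧ σ u = v
  · rw [if_pos h1, if_pos (h u v h1)]
  · rw [if_neg h1, if_neg fun h2 => h1 (h v u h2)]

private theorem pmx_deg (S : Finset α) (σ : α → α) (hσ : PM S σ) (v : α) (hv : v ∈ S) :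
    ∑ u ∈ S, pmx S σ v u = 1 := by
  rw [Finset.sum_eq_single (σ v)]
  · exact if_pos ⟨hv, rfl⟩
  · intro u _ hu
    exact if_neg fun h => hu h.2.symm
  · intro h
    exact absurd (hσ v hv).1 h

/-- moving away from a perfect matching in the support -/
private theorem move [Finite α] (S : Finset α) (x : α → α → ℝ) (hx : Edm S x) (σ : α → α)
    (hσ : PM S σ) (hpos : ∀ v ∈ S, 0 < x v (σ v))
    (hcut : ∀ U ⊆ S, Odd U.card → 1 < U.card → 1 < (S \ U).card →
      1 < ∑ u ∈ U, ∑ v ∈ S \ U, x u v) :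
    ∃ ε : ℝ, 0 < ε ∧ Edm S fun u v => x u v + ε * (x u v - pmx S σ u v) := by
  have key : ∀ a b : ℝ, 0 < a → ∀ᶠ ε : ℝ in nhdsWithin 0 (Set.Ioi 0), 0 < a + ε * b := by
    intro a b ha
    have h1 : Filter.Tendsto (fun ε : ℝ => a + ε * b) (nhdsWithin 0 (Set.Ioi 0))
        (nhds (a + 0 * b)) :=
      ((continuous_const.add (continuous_id.mul continuous_const)).tendsto 0).mono_left
        nhdsWithin_le_nhds
    rw [zero_mul, add_zero] at h1
    exact h1.eventually (lt_mem_nhds ha)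
  have h1 : ∀ᶠ ε : ℝ in nhdsWithin 0 (Set.Ioi 0), ∀ u v,
      0 ≤ x u v + ε * (x u v - pmx S σ u v) := by
    rw [Filter.eventually_all]
    intro u
    rw [Filter.eventually_all]
    intro v
    rcases (hx.pos u v).lt_or_eq with h | h
    · filter_upwards [key (x u v) (x u v - pmx S σ u v) h] with ε hε
      exact hε.le
    · refine Filter.Eventually.of_forall fun ε => ?_
      have h2 : pmx S σ u v = 0 := by
        refine if_neg fun h3 => ?_
        have h4 := hpos u h3.1
        rw [h3.2, ← h] at h4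
        exact lt_irrefl _ h4
      rw [h2, ← h, sub_zero, mul_zero, add_zero]
  have h2 : ∀ᶠ ε : ℝ in nhdsWithin 0 (Set.Ioi 0), ∀ U : Finset α, U ⊆ S → Odd U.card →
      1 < U.card → 1 < (S \ U).card → 1 ≤ ∑ u ∈ U, ∑ v ∈ S \ U, x u v +
        ε * (∑ u ∈ U, ∑ v ∈ S \ U, x u v - ∑ u ∈ U, ∑ v ∈ S \ U, pmx S σ u v) := by
    have : Finite (Finset α) := by
      have := Fintype.ofFinite α
      infer_instance
    rw [Filter.eventually_all]
    intro U
    by_cases hU : U ⊆ S ∧ Odd U.card ∧ 1 < U.card ∧ 1 < (S \ U).card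
    · obtain ⟨g1, g2, g3, g4⟩ := hU
      have g5 := hcut U g1 g2 g3 g4
      filter_upwards [key (∑ u ∈ U, ∑ v ∈ S \ U, x u v - 1)
        (∑ u ∈ U, ∑ v ∈ S \ U, x u v - ∑ u ∈ U, ∑ v ∈ S \ U, pmx S σ u v)
        (by linarith)] with ε hε _ _ _ _
      linarith
    · refine Filter.Eventually.of_forall fun ε g1 g2 g3 g4 => absurd ⟨g1, g2, g3, g4⟩ hU
  obtain ⟨ε, hε1, hε2, hε3⟩ := (h1.and (h2.and self_mem_nhdsWithin)).exists
  refine ⟨ε, hε3, ?_⟩
  have hsym : ∀ u v, x u v + ε * (x u v - pmx S σ u v) =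
      x v u + ε * (x v u - pmx S σ v u) := by
    intro u v
    rw [hx.sym u v, pmx_sym S σ hσ u v]
  have hdiag : ∀ v, x v v + ε * (x v v - pmx S σ v v) = 0 := by
    intro v
    have h3 : pmx S σ v v = 0 := if_neg fun h => (hσ v h.1).2.1 h.2
    rw [h3, hx.diag, sub_zero, mul_zero, add_zero]
  have hdeg : ∀ v ∈ S, ∑ u ∈ S, (x v u + ε * (x v u - pmx S σ v u)) = 1 := by
    intro v hv
    rw [Finset.sum_add_distrib, ← Finset.mul_sum, Finset.sum_sub_distrib, hx.deg v hv,
      pmx_deg S σ hσ v hv]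
    ring
  have hone : ∀ v ∈ S, ∑ u ∈ S \ {v}, (x v u + ε * (x v u - pmx S σ v u)) = 1 := by
    intro v hv
    have h3 := hdeg v hv
    rw [← Finset.sum_sdiff (Finset.singleton_subset_iff.2 hv), Finset.sum_singleton, hdiag v,
      add_zero] at h3
    exact h3
  refine ⟨hsym, hdiag, hε1, hdeg, fun U hU hodd => ?_⟩
  rcases Nat.lt_or_ge 1 U.card with g1 | g1
  · rcases Nat.lt_or_ge 1 (S \ U).card with g2 | g2
    · have g3 := hε2 U hU hodd g1 g2
      refine g3.trans (le_of_eq ?_)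
      simp only [Finset.sum_add_distrib, ← Finset.mul_sum, Finset.sum_sub_distrib]
    · have hev := even_card S x hx
      have hcS : U.card + (S \ U).card = S.card := by
        rw [Finset.card_sdiff_of_subset hU]
        have := Finset.card_le_card hU
        omega
      have g3 : (S \ U).card = 1 := by
        obtain ⟨a, ha⟩ := hodd
        obtain ⟨b, hb⟩ := hev
        omega
      obtain ⟨v, hv⟩ := Finset.card_eq_one.1 g3
      have hvS : v ∈ S := by
        have : v ∈ S \ U := by rw [hv]; exact Finset.mem_singleton_self v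
        exact (Finset.mem_sdiff.1 this).1
      have hU' : U = S \ {v} := by rw [← hv, Finset.sdiff_sdiff_eq_self hU]
      rw [hv]
      simp only [Finset.sum_singleton]
      rw [hU', ← hone v hvS]
      exact (Finset.sum_congr rfl fun u _ => hsym u v).ge
  · have g3 : U.card = 1 := by
      obtain ⟨a, ha⟩ := hodd
      omega
    obtain ⟨v, rfl⟩ := Finset.card_eq_one.1 g3
    rw [Finset.sum_singleton, hone v (hU (Finset.mem_singleton_self v))]

/-- the polytope -/
private def poly (S : Finset α) : Set (α → α → ℝ) :=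
  {x | Edm S x ∧ ∀ u v, (u ∉ S ∨ v ∉ S) → x u v = 0}

private theorem poly_compact (S : Finset α) : IsCompact (poly S) := by
  have hc : IsClosed (poly S) := by
    have h1 : poly S = {x : α → α → ℝ | ∀ u v, x u v = x v u} ∩ ({x | ∀ v, x v v = 0} ∩
        ({x | ∀ u v, 0 ≤ x u v} ∩ ({x | ∀ v ∈ S, ∑ u ∈ S, x v u = 1} ∩
        ({x | ∀ U ⊆ S, Odd U.card → 1 ≤ ∑ u ∈ U, ∑ v ∈ S \ U, x u v} ∩
        {x | ∀ u v, (u ∉ S ∨ v ∉ S) → x u v = 0})))) := by
      ext x
      constructor
      · rintro ⟨h, h6⟩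
        exact ⟨h.sym, h.diag, h.pos, h.deg, h.cut, h6⟩
      · rintro ⟨h1, h2, h3, h4, h5, h6⟩
        exact ⟨⟨h1, h2, h3, h4, h5⟩, h6⟩
    rw [h1]
    refine IsClosed.inter ?_ (IsClosed.inter ?_ (IsClosed.inter ?_ (IsClosed.inter ?_
      (IsClosed.inter ?_ ?_))))
    · simp only [Set.ofPred_forall]
      exact isClosed_iInter fun u => isClosed_iInter fun v => isClosed_eq (by fun_prop)
        (by fun_prop)
    · simp only [Set.ofPred_forall]
      exact isClosed_iInter fun v => isClosed_eq (by fun_prop) (by fun_prop)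
    · simp only [Set.ofPred_forall]
      exact isClosed_iInter fun u => isClosed_iInter fun v => isClosed_le (by fun_prop)
        (by fun_prop)
    · simp only [Set.ofPred_forall]
      exact isClosed_iInter fun v => isClosed_iInter fun _ => isClosed_eq (by fun_prop)
        (by fun_prop)
    · simp only [Set.ofPred_forall]
      exact isClosed_iInter fun U => isClosed_iInter fun _ => isClosed_iInter fun _ =>
        isClosed_le (by fun_prop) (by fun_prop)
    · simp only [Set.ofPred_forall]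
      exact isClosed_iInter fun u => isClosed_iInter fun v => isClosed_iInter fun _ =>
        isClosed_eq (by fun_prop) (by fun_prop)
  refine IsCompact.of_isClosed_subset (isCompact_univ_pi fun _ : α =>
    isCompact_univ_pi fun _ : α => (isCompact_Icc : IsCompact (Set.Icc (0 : ℝ) 1))) hc ?_
  rintro x ⟨hx, hx0⟩ u _ v _
  refine ⟨hx.pos u v, ?_⟩
  by_cases h : u ∈ S ∧ v ∈ S
  · rw [← hx.deg u h.1]
    exact Finset.single_le_sum (f := fun v => x u v) (fun v _ => hx.pos u v) h.2
  · rw [hx0 u v (by by_contra h1; push Not at h1; exact h h1)]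
    exact zero_le_one

/-- **Edmonds' theorem** (support function of the perfect matching polytope). -/
theorem edmonds [Finite α] : ∀ (n : ℕ) (S : Finset α), S.card = n → ∀ (x w : α → α → ℝ) (W : ℝ),
    Edm S x → (∀ σ, PM S σ → ∑ v ∈ S, w v (σ v) ≤ W) →
    ∑ u ∈ S, ∑ v ∈ S, w u v * x u v ≤ W := by
  intro n
  induction n using Nat.strong_induction_on with
  | _ n ih =>
    intro S hS x w W hx hW
    -- a maximiser
    obtain ⟨x0, hx0⟩ : ∃ x0 : α → α → ℝ, x0 = fun u v => if u ∈ S ∧ v ∈ S then x u v else 0 :=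
      ⟨_, rfl⟩
    have e0 : ∀ u ∈ S, ∀ v ∈ S, x0 u v = x u v := fun u hu v hv => by
      rw [hx0]; exact if_pos ⟨hu, hv⟩
    have hx0P : x0 ∈ poly S := by
      refine ⟨⟨fun u v => ?_, fun v => ?_, fun u v => ?_, fun v hv => ?_, fun U hU hodd => ?_⟩,
        fun u v huv => ?_⟩
      · rw [hx0]
        by_cases h : u ∈ S ∧ v ∈ S
        · simp only [if_pos h, if_pos (And.intro h.2 h.1)]
          exact hx.sym u v
        · have h' : ¬ (v ∈ S ∧ u ∈ S) := fun h1 => h ⟨h1.2, h1.1⟩
          simp only [if_neg h, if_neg h']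
      · rw [hx0]
        show (if v ∈ S ∧ v ∈ S then x v v else 0) = 0
        rw [hx.diag, ite_self]
      · rw [hx0]
        show 0 ≤ if u ∈ S ∧ v ∈ S then x u v else 0
        split_ifs
        · exact hx.pos u v
        · exact le_rfl
      · rw [Finset.sum_congr rfl fun u hu => e0 v hv u hu]
        exact hx.deg v hv
      · refine (hx.cut U hU hodd).trans (le_of_eq ?_)
        exact Finset.sum_congr rfl fun u hu => Finset.sum_congr rfl fun v hv =>
          (e0 u (hU hu) v (Finset.sdiff_subset hv)).symm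
      · rw [hx0]
        exact if_neg fun h => huv.elim (fun h1 => h1 h.1) fun h1 => h1 h.2
    have hcont : Continuous fun y : α → α → ℝ => ∑ u ∈ S, ∑ v ∈ S, w u v * y u v := by fun_prop
    obtain ⟨y, hyP, hy⟩ := (poly_compact S).exists_isMaxOn ⟨x0, hx0P⟩ hcont.continuousOn
    have hle : ∑ u ∈ S, ∑ v ∈ S, w u v * x u v ≤ ∑ u ∈ S, ∑ v ∈ S, w u v * y u v := by
      have h1 := hy hx0P
      refine le_trans (le_of_eq ?_) h1
      exact Finset.sum_congr rfl fun u hu => Finset.sum_congr rfl fun v hv => by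
        rw [e0 u hu v hv]
    refine hle.trans ?_
    by_cases htight : ∃ U ⊆ S, Odd U.card ∧ 1 < U.card ∧ 1 < (S \ U).card ∧
        ∑ u ∈ U, ∑ v ∈ S \ U, y u v ≤ 1
    · obtain ⟨U, hU, hodd, h1, h2, h3⟩ := htight
      exact tight_case n ih S hS y w W hyP.1 hW U hU hodd h1 h2 h3
    · obtain ⟨σ, hσ, hpos⟩ := supp_pm S y hyP.1
      obtain ⟨ε, hε, hE⟩ := move S y hyP.1 σ hσ hpos fun U hU hodd h1 h2 => by
        by_contra h3
        exact htight ⟨U, hU, hodd, h1, h2, not_lt.1 h3⟩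
      have hzP : (fun u v => y u v + ε * (y u v - pmx S σ u v)) ∈ poly S := by
        refine ⟨hE, fun u v huv => ?_⟩
        have h1 : pmx S σ u v = 0 := by
          refine if_neg fun h => huv.elim (fun h1 => h1 h.1) fun h1 => h1 ?_
          rw [← h.2]
          exact (hσ u h.1).1
        show y u v + ε * (y u v - pmx S σ u v) = 0
        rw [h1, hyP.2 u v huv, sub_zero, mul_zero, add_zero]
      have h1 := hy hzP
      have e1 : ∑ u ∈ S, ∑ v ∈ S, w u v * (y u v + ε * (y u v - pmx S σ u v)) =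
          ∑ u ∈ S, ∑ v ∈ S, w u v * y u v + ε * (∑ u ∈ S, ∑ v ∈ S, w u v * y u v -
            ∑ u ∈ S, ∑ v ∈ S, w u v * pmx S σ u v) := by
        have e2 : ∀ u v, w u v * (y u v + ε * (y u v - pmx S σ u v)) =
            w u v * y u v + ε * (w u v * y u v - w u v * pmx S σ u v) := fun u v => by ring
        simp only [e2, Finset.sum_add_distrib, ← Finset.mul_sum, Finset.sum_sub_distrib]
      have e3 : ∑ u ∈ S, ∑ v ∈ S, w u v * pmx S σ u v = ∑ u ∈ S, w u (σ u) := by
        refine Finset.sum_congr rfl fun u hu => ?_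
        rw [Finset.sum_eq_single (σ u)]
        · rw [pmx, if_pos ⟨hu, rfl⟩, mul_one]
        · intro v _ hv
          rw [pmx, if_neg fun h => hv h.2.symm, mul_zero]
        · intro h
          exact absurd (hσ u hu).1 h
      have h2 : ∑ u ∈ S, ∑ v ∈ S, w u v * (y u v + ε * (y u v - pmx S σ u v)) ≤
          ∑ u ∈ S, ∑ v ∈ S, w u v * y u v := h1
      rw [e1, e3] at h2
      have h3 := hW σ hσ
      by_contra h4
      push Not at h4
      have h5 : 0 < ε * (∑ u ∈ S, ∑ v ∈ S, w u v * y u v - ∑ u ∈ S, w u (σ u)) :=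
        mul_pos hε (by linarith)
      linarith

end Pool.Agent.SFP
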