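import Pool.Agent.SFP.DefC
import Pool.Agent.SFP.Edm

/-!
# Perfect matchings of complete graphs have small rectangle covers (hafnians, Pfaffians)

A perfect matching which is not optimal contains two edges (possibly equal) which are in no common
optimal perfect matching; from Edmonds' theorem.
-/

set_option autoImplicit false

namespace Pool.Agent.SFP

open Finset

/-- `y` is the upper triangular matrix of a perfect matching of `K` points: the relation of the
hafnian (Pfaffian) of a `K × K` matrix. -/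
def IsHaf {K : ℕ} (y : Fin (K * K) → Bool) : Prop :=
  ∃ σ : Fin K → Fin K, (∀ i, σ i ≠ i ∧ σ (σ i) = i) ∧
    ∀ i j, y (finProdFinEquiv (i, j)) = decide (i < j ∧ σ i = j)

/-- an odd set is left by every perfect matching -/
private theorem PM_cross {K : ℕ} (σ : Fin K → Fin K) (hσ : ∀ i, σ i ≠ i ∧ σ (σ i) = i)
    (U : Finset (Fin K)) (hodd : Odd U.card) : ∃ u ∈ U, σ u ∉ U := by
  by_contra h
  push Not at h
  have h1 : ∑ _u ∈ U, (1 : ZMod 2) = 0 :=
    Finset.sum_involution (fun u _ => σ u) (fun _ _ => by decide) (fun u _ _ => (hσ u).1)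
      (fun u hu => h u hu) (fun u _ => (hσ u).2)
  rw [Finset.sum_const, nsmul_eq_mul, mul_one] at h1
  have h2 := (ZMod.natCast_eq_zero_iff_even).1 h1
  exact (Nat.not_even_iff_odd.2 hodd) h2

/-- number of crossing edges -/
private theorem cross_sum {K : ℕ} (σ : Fin K → Fin K) (U : Finset (Fin K)) :
    ∑ u ∈ U, ∑ v ∈ univ \ U, (if σ u = v then (1 : ℝ) else 0) =
      ((U.filter fun u => σ u ∉ U).card : ℝ) := by
  rw [Finset.card_filter]
  push_cast
  refine Finset.sum_congr rfl fun u _ => ?_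
  rw [Finset.sum_ite_eq]
  simp

private theorem inv_sym {K : ℕ} (τ : Fin K → Fin K) (hτ : ∀ i, τ i ≠ i ∧ τ (τ i) = i)
    (u v : Fin K) : (if τ u = v then (1 : ℝ) else 0) = if τ v = u then 1 else 0 := by
  by_cases h : τ u = v
  · rw [if_pos h, if_pos (by rw [← h]; exact (hτ u).2)]
  · rw [if_neg h, if_neg fun h1 => h (by rw [← h1]; exact (hτ v).2)]

/-- two edges of `σ` are always in a common optimal perfect matching: `σ` is optimal -/
private theorem pairs {K : ℕ} (hK : 2 ≤ K) (w : Fin K → Fin K → ℝ) (W : ℝ) (σ : Fin K → Fin K)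
    (hσ : ∀ i, σ i ≠ i ∧ σ (σ i) = i)
    (hW : ∀ τ : Fin K → Fin K, (∀ i, τ i ≠ i ∧ τ (τ i) = i) → ∑ i, w i (τ i) ≤ W)
    (τ : Fin K × Fin K → Fin K → Fin K) (hτ : ∀ p i, τ p i ≠ i ∧ τ p (τ p i) = i)
    (hopt : ∀ p, ∑ i, w i (τ p i) = W) (h1 : ∀ p, τ p p.1 = σ p.1) (h2 : ∀ p, τ p p.2 = σ p.2) :
    W ≤ ∑ i, w i (σ i) := by
  classical
  have hKr : (2 : ℝ) ≤ K := by exact_mod_cast hK
  obtain ⟨D, hD⟩ : ∃ D : ℝ, D = K * K - 1 := ⟨_, rfl⟩
  have hD0 : 0 < D := by
    rw [hD]
    nlinarith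
  obtain ⟨t, ht⟩ : ∃ t : Fin K → Fin K → ℝ, t = fun u v =>
    ∑ p : Fin K × Fin K, (if τ p u = v then (1 : ℝ) else 0) - if σ u = v then 1 else 0 := ⟨_, rfl⟩
  have hcardP : ((univ : Finset (Fin K × Fin K)).card : ℝ) = K * K := by
    rw [Finset.card_univ, Fintype.card_prod, Fintype.card_fin]
    push_cast
    ring
  have tsym : ∀ u v, t u v = t v u := by
    intro u v
    rw [ht]
    show _ - _ = _ - _
    rw [inv_sym σ hσ u v, Finset.sum_congr rfl fun p _ => inv_sym (τ p) (hτ p) u v]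
  have tdiag : ∀ v, t v v = 0 := by
    intro v
    rw [ht]
    show _ - _ = _
    rw [if_neg (hσ v).1, Finset.sum_eq_zero fun p _ => if_neg (hτ p v).1, sub_zero]
  have tpos : ∀ u v, 0 ≤ t u v := by
    intro u v
    rw [ht]
    show 0 ≤ _ - _
    by_cases h : σ u = v
    · rw [if_pos h, sub_nonneg]
      have h3 : (if τ (u, u) u = v then (1 : ℝ) else 0) ≤
          ∑ p : Fin K × Fin K, if τ p u = v then (1 : ℝ) else 0 :=
        Finset.single_le_sum (f := fun p : Fin K × Fin K => if τ p u = v then (1 : ℝ) else 0)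
          (fun p _ => by split_ifs <;> norm_num) (Finset.mem_univ (u, u))
      rwa [if_pos ((h1 (u, u)).trans h)] at h3
    · rw [if_neg h, sub_zero]
      exact Finset.sum_nonneg fun p _ => by split_ifs <;> norm_num
  have tdeg : ∀ v, ∑ u, t v u = D := by
    intro v
    rw [ht]
    show ∑ u, (_ - _) = _
    rw [Finset.sum_sub_distrib, Finset.sum_comm]
    have h3 : ∀ p : Fin K × Fin K, ∑ u, (if τ p v = u then (1 : ℝ) else 0) = 1 := fun p => by
      rw [Finset.sum_ite_eq, if_pos (Finset.mem_univ _)]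
    rw [Finset.sum_congr rfl fun p _ => h3 p, Finset.sum_const, nsmul_eq_mul, mul_one, hcardP,
      Finset.sum_ite_eq, if_pos (Finset.mem_univ _), hD]
  have tcut : ∀ U : Finset (Fin K), Odd U.card → D ≤ ∑ u ∈ U, ∑ v ∈ univ \ U, t u v := by
    intro U hodd
    have e1 : ∑ u ∈ U, ∑ v ∈ univ \ U, t u v =
        ∑ p : Fin K × Fin K, ((U.filter fun u => τ p u ∉ U).card : ℝ) -
          ((U.filter fun u => σ u ∉ U).card : ℝ) := by
      rw [← cross_sum σ U, Finset.sum_congr rfl fun p _ => (cross_sum (τ p) U).symm]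
      have e2 : ∀ u v, t u v = ∑ p : Fin K × Fin K, (if τ p u = v then (1 : ℝ) else 0) -
          if σ u = v then 1 else 0 := fun u v => by rw [ht]
      simp only [e2, Finset.sum_sub_distrib]
      congr 1
      calc ∑ u ∈ U, ∑ v ∈ univ \ U, ∑ p : Fin K × Fin K, (if τ p u = v then (1 : ℝ) else 0)
          = ∑ u ∈ U, ∑ p : Fin K × Fin K, ∑ v ∈ univ \ U, (if τ p u = v then (1 : ℝ) else 0) :=
            Finset.sum_congr rfl fun u _ => Finset.sum_comm
        _ = ∑ p : Fin K × Fin K, ∑ u ∈ U, ∑ v ∈ univ \ U, (if τ p u = v then (1 : ℝ) else 0) :=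
            Finset.sum_comm
    obtain ⟨c, hc⟩ : ∃ c, c = (U.filter fun u => σ u ∉ U) := ⟨_, rfl⟩
    have hone : ∀ p, (1 : ℝ) ≤ ((U.filter fun u => τ p u ∉ U).card : ℝ) := by
      intro p
      obtain ⟨u, hu, hu'⟩ := PM_cross (τ p) (hτ p) U hodd
      have : 0 < (U.filter fun u => τ p u ∉ U).card :=
        Finset.card_pos.2 ⟨u, Finset.mem_filter.2 ⟨hu, hu'⟩⟩
      exact_mod_cast this
    have htwo : ∀ p ∈ c.offDiag, (2 : ℝ) ≤ ((U.filter fun u => τ p u ∉ U).card : ℝ) := by
      intro p hp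
      obtain ⟨hp1, hp2, hp3⟩ := Finset.mem_offDiag.1 hp
      rw [hc] at hp1 hp2
      obtain ⟨g1, g2⟩ := Finset.mem_filter.1 hp1
      obtain ⟨g3, g4⟩ := Finset.mem_filter.1 hp2
      have h3 : ({p.1, p.2} : Finset (Fin K)) ⊆ U.filter fun u => τ p u ∉ U := by
        intro z hz
        rcases Finset.mem_insert.1 hz with rfl | hz
        · exact Finset.mem_filter.2 ⟨g1, by rw [h1 p]; exact g2⟩
        · rw [Finset.mem_singleton.1 hz]
          exact Finset.mem_filter.2 ⟨g3, by rw [h2 p]; exact g4⟩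
      have h4 := Finset.card_le_card h3
      rw [Finset.card_pair hp3] at h4
      exact_mod_cast h4
    have e2 : (K : ℝ) * K + (c.offDiag.card : ℝ) ≤
        ∑ p : Fin K × Fin K, ((U.filter fun u => τ p u ∉ U).card : ℝ) := by
      have e3 : ∑ p : Fin K × Fin K, ((1 : ℝ) + if p ∈ c.offDiag then 1 else 0) =
          (K : ℝ) * K + (c.offDiag.card : ℝ) := by
        rw [Finset.sum_add_distrib, Finset.sum_const, nsmul_eq_mul, mul_one, hcardP,
          Finset.sum_ite_mem, Finset.univ_inter, Finset.sum_const, nsmul_eq_mul, mul_one]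
      rw [← e3]
      refine Finset.sum_le_sum fun p _ => ?_
      by_cases hp : p ∈ c.offDiag
      · rw [if_pos hp]
        have := htwo p hp
        linarith
      · rw [if_neg hp, add_zero]
        exact hone p
    have e4 : (c.offDiag.card : ℝ) = c.card * c.card - c.card := by
      rw [Finset.offDiag_card, Nat.cast_sub (Nat.le_mul_self _)]
      push_cast
      ring
    rw [e1, ← hc, hD]
    rw [e4] at e2
    nlinarith [sq_nonneg ((c.card : ℝ) - 1)]
  have hE : Edm (univ : Finset (Fin K)) fun u v => t u v / D := by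
    refine ⟨fun u v => ?_, fun v => ?_, fun u v => ?_, fun v _ => ?_, fun U _ hodd => ?_⟩
    · rw [tsym u v]
    · rw [tdiag v, zero_div]
    · exact div_nonneg (tpos u v) hD0.le
    · rw [← Finset.sum_div, tdeg v, div_self hD0.ne']
    · simp only [← Finset.sum_div]
      rw [le_div_iff₀ hD0, one_mul]
      exact tcut U hodd
  have hmain := edmonds K univ (by rw [Finset.card_univ, Fintype.card_fin]) _ w W hE
    fun τ' hτ' => hW τ' fun i => (hτ' i (Finset.mem_univ i)).2
  have e5 : ∑ u, ∑ v, w u v * (t u v / D) = (∑ u, ∑ v, w u v * t u v) / D := by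
    simp only [Finset.sum_div, mul_div_assoc]
  have e6 : ∑ u, ∑ v, w u v * t u v = K * K * W - ∑ i, w i (σ i) := by
    rw [ht]
    show ∑ u, ∑ v, w u v * (_ - _) = _
    simp only [mul_sub, Finset.sum_sub_distrib, Finset.mul_sum]
    congr 1
    · have e7 : ∀ u v : Fin K, ∀ p : Fin K × Fin K, w u v * (if τ p u = v then (1 : ℝ) else 0) =
          if τ p u = v then w u v else 0 := fun u v p => by split_ifs <;> ring
      simp only [e7]
      have e8 : ∀ u : Fin K, ∑ v, ∑ p : Fin K × Fin K, (if τ p u = v then w u v else 0) =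
          ∑ p : Fin K × Fin K, w u (τ p u) := by
        intro u
        rw [Finset.sum_comm]
        refine Finset.sum_congr rfl fun p _ => ?_
        rw [Finset.sum_ite_eq, if_pos (Finset.mem_univ _)]
      rw [Finset.sum_congr rfl fun u _ => e8 u, Finset.sum_comm,
        Finset.sum_congr rfl fun p _ => hopt p, Finset.sum_const, nsmul_eq_mul, hcardP]
    · refine Finset.sum_congr rfl fun u _ => ?_
      rw [Finset.sum_eq_single (σ u)]
      · rw [if_pos rfl, mul_one]
      · intro v _ hv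
        rw [if_neg (Ne.symm hv), mul_zero]
      · intro h
        exact absurd (Finset.mem_univ _) h
  rw [e5, div_le_iff₀ hD0, e6, hD] at hmain
  linarith

/-- the indicator of a perfect matching -/
private def ymat {K : ℕ} (σ : Fin K → Fin K) : Fin (K * K) → Bool :=
  fun k => decide ((finProdFinEquiv.symm k).1 < (finProdFinEquiv.symm k).2 ∧
    σ (finProdFinEquiv.symm k).1 = (finProdFinEquiv.symm k).2)

private theorem ymat_apply {K : ℕ} (σ : Fin K → Fin K) (i j : Fin K) :
    ymat σ (finProdFinEquiv (i, j)) = decide (i < j ∧ σ i = j) := by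
  unfold ymat
  rw [Equiv.symm_apply_apply]

private theorem ymat_haf {K : ℕ} (σ : Fin K → Fin K) (hσ : ∀ i, σ i ≠ i ∧ σ (σ i) = i) :
    IsHaf (ymat σ) := ⟨σ, hσ, ymat_apply σ⟩

private theorem haf_ymat {K : ℕ} {y : Fin (K * K) → Bool} {σ : Fin K → Fin K}
    (h : ∀ i j, y (finProdFinEquiv (i, j)) = decide (i < j ∧ σ i = j)) : y = ymat σ := by
  funext k
  obtain ⟨⟨i, j⟩, rfl⟩ := finProdFinEquiv.surjective k
  rw [h, ymat_apply]

/-- the weight of a perfect matching -/
private theorem val {K : ℕ} (g : Fin (K * K) → Bool → ℝ) (σ : Fin K → Fin K) :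
    ∑ k, g k (ymat σ k) = ∑ k, g k false + ∑ i : Fin K, (if i < σ i then
      g (finProdFinEquiv (i, σ i)) true - g (finProdFinEquiv (i, σ i)) false else 0) := by
  have h1 : ∀ k, g k (ymat σ k) = g k false + if ymat σ k = true then g k true - g k false else 0 := by
    intro k
    cases h : ymat σ k <;> simp
  rw [Finset.sum_congr rfl fun k _ => h1 k, Finset.sum_add_distrib]
  congr 1
  rw [← finProdFinEquiv.sum_comp, Fintype.sum_prod_type]
  refine Finset.sum_congr rfl fun i _ => ?_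
  rw [Finset.sum_eq_single (σ i)]
  · rw [ymat_apply]
    simp
  · intro j _ hj
    rw [ymat_apply, if_neg]
    simp [Ne.symm hj]
  · intro h
    exact absurd (Finset.mem_univ _) h

/-- [Haf] perfect matchings of complete graphs -/
theorem thm_Haf : ∀ K : ℕ, Cov ((K * K) ^ 2) (IsHaf (K := K)) := by
  classical
  intro K
  rw [pow_two]
  obtain ⟨e⟩ : Nonempty (Fin (K * K) × Fin (K * K) ≃ Fin ((K * K) * (K * K))) :=
    ⟨finProdFinEquiv⟩
  refine ⟨fun y l => y (e.symm l).1 = true ∧ y (e.symm l).2 = true, fun g => ?_⟩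
  -- the optimal elements
  obtain ⟨Opt, hOpt⟩ : ∃ Opt : (Fin (K * K) → Bool) → Prop, Opt = fun y => IsHaf y ∧
    ∀ y', IsHaf y' → ∑ k, g k (y' k) ≤ ∑ k, g k (y k) := ⟨_, rfl⟩
  refine ⟨fun l => ¬ ∃ y, Opt y ∧ y (e.symm l).1 = true ∧ y (e.symm l).2 = true,
    fun y hy => ⟨?_, ?_⟩⟩
  · rintro ⟨l, h1, h2, h3⟩
    by_contra h4
    refine h1 ⟨y, ?_, h2, h3⟩
    rw [hOpt]
    refine ⟨hy, fun y' hy' => ?_⟩
    by_contra h5
    exact h4 ⟨y', hy', not_le.1 h5⟩
  · rintro ⟨y', hy', hlt⟩
    by_contra h1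
    -- every pair of edges of `y` is in an optimal perfect matching
    have h2 : ∀ k k', y k = true → y k' = true → ∃ z, Opt z ∧ z k = true ∧ z k' = true := by
      intro k k' hk hk'
      by_contra h3
      refine h1 ⟨e (k, k'), ?_, ?_, ?_⟩
      · show ¬ ∃ y, Opt y ∧ y (e.symm (e (k, k'))).1 = true ∧ y (e.symm (e (k, k'))).2 = true
        rw [Equiv.symm_apply_apply]
        exact h3
      · rw [Equiv.symm_apply_apply]
        exact hk
      · rw [Equiv.symm_apply_apply]
        exact hk'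
    obtain ⟨σ, hσ, hyσ⟩ := hy
    obtain rfl := haf_ymat hyσ
    obtain ⟨σ', hσ', hyσ'⟩ := hy'
    obtain rfl := haf_ymat hyσ'
    have hK : 2 ≤ K := by
      rcases Nat.lt_or_ge K 2 with hK | hK
      · rcases Nat.eq_zero_or_pos K with h0 | h0
        · subst h0
          have h3 : ymat σ = ymat σ' := by
            funext k
            exact absurd k.2 (Nat.not_lt_zero _)
          rw [h3] at hlt
          exact absurd hlt (lt_irrefl _)
        · have hK1 : K = 1 := by omega
          subst hK1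
          exact absurd (Subsingleton.elim _ _) (hσ 0).1
      · exact hK
    -- the edge at the vertex `i`
    obtain ⟨ed, hed⟩ : ∃ ed : (Fin K → Fin K) → Fin K → Fin (K * K), ed = fun τ i =>
      if i < τ i then finProdFinEquiv (i, τ i) else finProdFinEquiv (τ i, i) := ⟨_, rfl⟩
    have hed1 : ∀ i, ymat σ (ed σ i) = true := by
      intro i
      rw [hed]
      show ymat σ (if i < σ i then finProdFinEquiv (i, σ i) else finProdFinEquiv (σ i, i)) = true
      by_cases h3 : i < σ i
      · rw [if_pos h3, ymat_apply]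
        simp [h3]
      · have h4 : σ i < i := lt_of_le_of_ne (not_lt.1 h3) (hσ i).1
        rw [if_neg h3, ymat_apply]
        simp [h4, (hσ i).2]
    have hed2 : ∀ (τ : Fin K → Fin K) (i : Fin K), (∀ i, τ i ≠ i ∧ τ (τ i) = i) →
        ymat τ (ed σ i) = true → τ i = σ i := by
      intro τ i hτ h3
      rw [hed] at h3
      replace h3 : ymat τ (if i < σ i then finProdFinEquiv (i, σ i)
        else finProdFinEquiv (σ i, i)) = true := h3
      by_cases h4 : i < σ i
      · rw [if_pos h4, ymat_apply, decide_eq_true_iff] at h3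
        exact h3.2
      · rw [if_neg h4, ymat_apply, decide_eq_true_iff] at h3
        have h5 := (hτ (σ i)).2
        rw [h3.2] at h5
        exact h5
    have h3 : ∀ p : Fin K × Fin K, ∃ τ : Fin K → Fin K, (∀ i, τ i ≠ i ∧ τ (τ i) = i) ∧
        Opt (ymat τ) ∧ τ p.1 = σ p.1 ∧ τ p.2 = σ p.2 := by
      intro p
      obtain ⟨z, hz, hz1, hz2⟩ := h2 (ed σ p.1) (ed σ p.2) (hed1 p.1) (hed1 p.2)
      have hz' := hz
      rw [hOpt] at hz'
      obtain ⟨τ, hτ, hzτ⟩ := hz'.1
      obtain rfl := haf_ymat hzτ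
      exact ⟨τ, hτ, hz, hed2 τ p.1 hτ hz1, hed2 τ p.2 hτ hz2⟩
    choose τ hτ hτO hτ1 hτ2 using h3
    obtain ⟨w, hw⟩ : ∃ w : Fin K → Fin K → ℝ, w = fun i j => if i < j then
      g (finProdFinEquiv (i, j)) true - g (finProdFinEquiv (i, j)) false else 0 := ⟨_, rfl⟩
    have hval : ∀ τ : Fin K → Fin K, ∑ k, g k (ymat τ k) = ∑ k, g k false + ∑ i, w i (τ i) := by
      intro τ
      rw [val g τ, hw]
    have hp0 : (0 : ℕ) < K := by omega
    obtain ⟨W, hW⟩ : ∃ W, W = ∑ i, w i (τ (⟨0, hp0⟩, ⟨0, hp0⟩) i) := ⟨_, rfl⟩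
    have hle : ∀ (p : Fin K × Fin K) (τ' : Fin K → Fin K), (∀ i, τ' i ≠ i ∧ τ' (τ' i) = i) →
        ∑ i, w i (τ' i) ≤ ∑ i, w i (τ p i) := by
      intro p τ' hτ'
      have h4 := hτO p
      rw [hOpt] at h4
      have h5 := h4.2 (ymat τ') (ymat_haf τ' hτ')
      rw [hval, hval] at h5
      linarith
    have h4 := pairs hK w W σ hσ (fun τ' hτ' => by rw [hW]; exact hle _ τ' hτ') τ hτ
      (fun p => by rw [hW]; exact le_antisymm (hle _ _ (hτ p)) (hle _ _ (hτ _))) hτ1 hτ2
    have h5 : ∑ i, w i (σ' i) ≤ W := by rw [hW]; exact hle _ σ' hσ'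
    rw [hval, hval] at hlt
    linarith

end Pool.Agent.SFP
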