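import Pool.Agent.SFP.Defs

/-! [KW] Kaibel-Weltge bound for the nonnegative rank of the matrix `(1 - a · b) ^ 2`. -/

set_option autoImplicit false

namespace Pool.Agent.SFP.KW

open Finset Pool.Agent.SFP

open Classical in
/-- size of the intersection -/
noncomputable def S {m : ℕ} (p q : Fin m → Bool) : ℝ := ∑ i, bit (p i) * bit (q i)

lemma bit_nonneg (b : Bool) : 0 ≤ bit b := by
  unfold bit; split_ifs <;> norm_num

lemma S_nonneg {m : ℕ} (p q : Fin m → Bool) : 0 ≤ S p q :=
  Finset.sum_nonneg fun _ _ => mul_nonneg (bit_nonneg _) (bit_nonneg _)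

lemma S_cons {m : ℕ} (a b : Bool) (p q : Fin m → Bool) :
    S (Fin.cons a p : Fin (m + 1) → Bool) (Fin.cons b q : Fin (m + 1) → Bool)
      = bit a * bit b + S p q := by
  unfold S
  rw [Fin.sum_univ_succ]
  simp

lemma split {m : ℕ} (f : (Fin (m + 1) → Bool) → ℝ) :
    ∑ p, f p = ∑ p : Fin m → Bool, (f (Fin.cons true p) + f (Fin.cons false p)) := by
  rw [← (Fin.consEquiv (fun _ : Fin (m + 1) => Bool)).sum_comp f, Fintype.sum_prod_type,
    Fintype.sum_bool, ← Finset.sum_add_distrib]
  rfl

open Classical in
/-- number of disjoint pairs -/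
noncomputable def D {m : ℕ} (P Q : (Fin m → Bool) → Prop) : ℝ :=
  ∑ p, ∑ q, if P p ∧ Q q ∧ S p q = 0 then (1 : ℝ) else 0

lemma fam (m : ℕ) : ∀ (P Q : (Fin m → Bool) → Prop),
    (∀ p q, P p → Q q → S p q ≠ 1) → D P Q ≤ 2 ^ m := by
  classical
  induction m with
  | zero =>
    intro P Q _
    unfold D
    simp only [Finset.univ_unique, Finset.sum_singleton, pow_zero]
    split_ifs <;> norm_num
  | succ m ih =>
    intro P Q h
    have h1 := ih (fun p => P (Fin.cons false p) ∨ P (Fin.cons true p))
      (fun q => Q (Fin.cons false q)) (by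
        intro p q hp hq
        rcases hp with hp | hp
        · have := h _ _ hp hq
          rw [S_cons] at this
          simpa [bit] using this
        · have := h _ _ hp hq
          rw [S_cons] at this
          simpa [bit] using this)
    have h2 := ih (fun p => P (Fin.cons false p))
      (fun q => Q (Fin.cons false q) ∨ Q (Fin.cons true q)) (by
        intro p q hp hq
        rcases hq with hq | hq
        · have := h _ _ hp hq
          rw [S_cons] at this
          simpa [bit] using this
        · have := h _ _ hp hq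
          rw [S_cons] at this
          simpa [bit] using this)
    have h3 : D P Q ≤ D (fun p => P (Fin.cons false p) ∨ P (Fin.cons true p))
        (fun q => Q (Fin.cons false q)) + D (fun p => P (Fin.cons false p))
        (fun q => Q (Fin.cons false q) ∨ Q (Fin.cons true q)) := by
      unfold D
      rw [split]
      simp only [split, ← Finset.sum_add_distrib]
      refine Finset.sum_le_sum fun p _ => Finset.sum_le_sum fun q _ => ?_
      have e1 : S (Fin.cons true p : Fin (m + 1) → Bool) (Fin.cons true q) = 1 + S p q := by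
        rw [S_cons]; simp [bit]
      have e2 : S (Fin.cons true p : Fin (m + 1) → Bool) (Fin.cons false q) = S p q := by
        rw [S_cons]; simp [bit]
      have e3 : S (Fin.cons false p : Fin (m + 1) → Bool) (Fin.cons true q) = S p q := by
        rw [S_cons]; simp [bit]
      have e4 : S (Fin.cons false p : Fin (m + 1) → Bool) (Fin.cons false q) = S p q := by
        rw [S_cons]; simp [bit]
      rw [e1, e2, e3, e4]
      have h0 := S_nonneg p q
      have h11 : ¬ (1 + S p q = 0) := by intro h; linarith
      have h12 : P (Fin.cons true p) → Q (Fin.cons true q) → S p q ≠ 0 := by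
        intro a b c
        apply h _ _ a b
        rw [e1, c]; norm_num
      by_cases a1 : P (Fin.cons true p) <;> by_cases a2 : P (Fin.cons false p) <;>
        by_cases a3 : Q (Fin.cons true q) <;> by_cases a4 : Q (Fin.cons false q) <;>
        by_cases a5 : S p q = 0 <;>
        simp [a1, a2, a3, a4, a5, h11] at h12 ⊢
    rw [pow_succ]
    linarith

/-- product weights -/
lemma sumprod {m : ℕ} (f : Fin m → Bool → ℝ) :
    ∑ x : Fin m → Bool, ∏ i, f i (x i) = ∏ i, (f i true + f i false) := by
  classical
  have := Finset.prod_univ_sum (fun _ : Fin m => (Finset.univ : Finset Bool)) f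
  rw [Fintype.piFinset_univ] at this
  rw [← this]
  refine Finset.prod_congr rfl fun i _ => ?_
  rw [Fintype.sum_bool]

theorem thm_KW : St_KW := by
  classical
  intro m ι _ B α β hα hβ h
  have hS : ∀ a, ∀ b ∈ B, (1 - S a b) ^ 2 = ∑ l, α l a * β l b := h
  -- the weight of a column
  let w : (Fin m → Bool) → ℝ := fun b => ∏ i, if b i then (1 : ℝ) else 2
  have hw : ∀ b, w b = ∑ a : Fin m → Bool, if S a b = 0 then (1 : ℝ) else 0 := by
    intro b
    have e1 : ∀ a : Fin m → Bool, (if S a b = 0 then (1 : ℝ) else 0)
        = ∏ i, (if a i = true ∧ b i = true then (0 : ℝ) else 1) := by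
      intro a
      by_cases hc : ∃ i, a i = true ∧ b i = true
      · obtain ⟨i, hi⟩ := hc
        rw [Finset.prod_eq_zero (Finset.mem_univ i) (by simp [hi])]
        rw [if_neg]
        intro h0
        have := (Finset.sum_eq_zero_iff_of_nonneg
          (fun j _ => mul_nonneg (bit_nonneg (a j)) (bit_nonneg (b j)))).1 h0 i
          (Finset.mem_univ i)
        rw [hi.1, hi.2] at this
        simp [bit] at this
      · rw [if_pos]
        · symm
          refine Finset.prod_eq_one fun i _ => ?_
          rw [if_neg]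
          intro hi
          exact hc ⟨i, hi⟩
        · refine Finset.sum_eq_zero fun i _ => ?_
          by_cases ha : a i = true
          · by_cases hb : b i = true
            · exact absurd ⟨i, ha, hb⟩ hc
            · simp [bit, hb]
          · simp [bit, ha]
    simp only [e1]
    rw [sumprod (fun i x => if x = true ∧ b i = true then (0 : ℝ) else 1)]
    refine Finset.prod_congr rfl fun i _ => ?_
    by_cases hb : b i = true
    · simp [hb]
    · simp [hb]; norm_num
  have hwpos : ∀ b, 0 < w b := fun b => Finset.prod_pos fun i _ => by split_ifs <;> norm_num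
  have h2 : ∑ b ∈ B, w b ≤ 2 ^ m * Fintype.card ι := by
    have e1 : ∑ b ∈ B, w b ≤ ∑ l : ι, D (fun a => 0 < α l a) (fun b => b ∈ B ∧ 0 < β l b) := by
      unfold D
      have e2 : ∑ b ∈ B, w b = ∑ a : Fin m → Bool, ∑ b : Fin m → Bool,
          if b ∈ B ∧ S a b = 0 then (1 : ℝ) else 0 := by
        rw [Finset.sum_comm, ← Finset.sum_subset (Finset.subset_univ B)]
        · refine Finset.sum_congr rfl fun b hb => ?_
          rw [hw b]
          refine Finset.sum_congr rfl fun a _ => ?_
          simp [hb]
        · intro b _ hb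
          refine Finset.sum_eq_zero fun a _ => ?_
          simp [hb]
      rw [e2, Finset.sum_comm (s := (Finset.univ : Finset ι))]
      refine Finset.sum_le_sum fun a _ => ?_
      rw [Finset.sum_comm (s := (Finset.univ : Finset ι))]
      refine Finset.sum_le_sum fun b _ => ?_
      by_cases hc : b ∈ B ∧ S a b = 0
      · rw [if_pos hc]
        have h3 := hS a b hc.1
        rw [hc.2] at h3
        have h4 : ∃ l, α l a * β l b ≠ 0 := by
          by_contra hno
          push Not at hno
          rw [Finset.sum_eq_zero fun l _ => hno l] at h3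
          norm_num at h3
        obtain ⟨l, hl⟩ := h4
        have h5 : α l a ≠ 0 := fun h => hl (by rw [h, zero_mul])
        have h6 : β l b ≠ 0 := fun h => hl (by rw [h, mul_zero])
        have h7 : 0 < α l a := lt_of_le_of_ne (hα l a) (Ne.symm h5)
        have h8 : 0 < β l b := lt_of_le_of_ne (hβ l b) (Ne.symm h6)
        refine le_trans ?_ (Finset.single_le_sum (fun l _ => ?_) (Finset.mem_univ l))
        · rw [if_pos ⟨h7, ⟨hc.1, h8⟩, hc.2⟩]
        · split_ifs <;> norm_num
      · rw [if_neg hc]
        exact Finset.sum_nonneg fun l _ => by split_ifs <;> norm_num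
    have e3 : ∑ l : ι, D (fun a => 0 < α l a) (fun b => b ∈ B ∧ 0 < β l b)
        ≤ ∑ _l : ι, (2 : ℝ) ^ m := by
      refine Finset.sum_le_sum fun l _ => fam m _ _ ?_
      rintro p q hp ⟨hq, hq'⟩ h1
      have h3 := hS p q hq
      rw [h1] at h3
      have h4 : α l p * β l q ≤ ∑ l, α l p * β l q :=
        Finset.single_le_sum (f := fun l => α l p * β l q)
          (fun l _ => mul_nonneg (hα l p) (hβ l q)) (Finset.mem_univ l)
      have h5 := mul_pos hp hq'
      rw [← h3] at h4
      norm_num at h4
      linarith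
    rw [Finset.sum_const, Finset.card_univ, nsmul_eq_mul] at e3
    linarith
  have h3 : ∑ b ∈ B, (w b)⁻¹ ≤ (3 / 2) ^ m := by
    have e1 : ∑ b ∈ B, (w b)⁻¹ ≤ ∑ b : Fin m → Bool, (w b)⁻¹ :=
      Finset.sum_le_sum_of_subset_of_nonneg (Finset.subset_univ B)
        fun b _ _ => inv_nonneg.2 (hwpos b).le
    have e2 : ∑ b : Fin m → Bool, (w b)⁻¹ = (3 / 2) ^ m := by
      have e3 : ∀ b : Fin m → Bool, (w b)⁻¹ = ∏ i, (if b i = true then (1 : ℝ) else 1 / 2) := by
        intro b
        rw [← Finset.prod_inv_distrib]
        refine Finset.prod_congr rfl fun i _ => ?_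
        split_ifs <;> norm_num
      simp only [e3]
      rw [sumprod (fun _ x => if x = true then (1 : ℝ) else 1 / 2)]
      simp
      norm_num
    linarith
  have h4 : (B.card : ℝ) ^ 2 ≤ (∑ b ∈ B, w b) * ∑ b ∈ B, (w b)⁻¹ := by
    have := Finset.sum_sq_le_sum_mul_sum_of_sq_le_mul B (r := fun _ => (1 : ℝ)) (f := w)
      (g := fun b => (w b)⁻¹) (fun b _ => (hwpos b).le) (fun b _ => inv_nonneg.2 (hwpos b).le)
      (fun b _ => by rw [mul_inv_cancel₀ (hwpos b).ne']; norm_num)
    simpa using this
  have h5 : (∑ b ∈ B, w b) * ∑ b ∈ B, (w b)⁻¹ ≤ (2 ^ m * Fintype.card ι) * (3 / 2) ^ m :=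
    mul_le_mul h2 h3 (Finset.sum_nonneg fun b _ => inv_nonneg.2 (hwpos b).le) (by positivity)
  have h6 : ((2 : ℝ) ^ m * Fintype.card ι) * (3 / 2) ^ m = 3 ^ m * Fintype.card ι := by
    rw [mul_right_comm, ← mul_pow]
    norm_num
  have h7 : ((B.card ^ 2 : ℕ) : ℝ) ≤ ((3 ^ m * Fintype.card ι : ℕ) : ℝ) := by
    push_cast
    linarith
  exact_mod_cast h7

end Pool.Agent.SFP.KW

namespace Pool.Agent.SFP

theorem thm_KW : St_KW := KW.thm_KW

end Pool.Agent.SFP
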