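import Pool.Agent.SFP.DefC
import Pool.Agent.SFP.KW

/-! [KWC] cover form of the Kaibel-Weltge bound. -/

set_option autoImplicit false

namespace Pool.Agent.SFP.KWC

open Finset Pool.Agent.SFP Pool.Agent.SFP.KW

theorem thm_KWC : St_KWC := by
  classical
  intro m ι _ B A A' h
  have hS : ∀ a, ∀ b ∈ B, (∃ l, A l a ∧ A' l b) ↔ S a b ≠ 1 := h
  -- the weight of a column
  let w : (Fin m → Bool) → ℝ := fun b => ∏ i, if b i then (1 : ℝ) else 2
  have hw : ∀ b, w b = ∑ a : Fin m → Bool, if S a b = 0 then (1 : ℝ) else 0 := by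
    intro b
    have e1 : ∀ a : Fin m → Bool, (if S a b = 0 then (1 : ℝ) else 0)
        = ∏ i, (if a i = true ∧ b i = true then (0 : ℝ) else 1) := by
      intro a
      by_cases hc : ∃ i, a i = true ∧ b i = true
      · obtain ⟨i, hi⟩ := hc
        rw [Finset.prod_eq_zero (Finset.mem_univ i) (by simp [hi])]
        rw [if_neg]
        intro h0
        have := (Finset.sum_eq_zero_iff_of_nonneg
          (fun j _ => mul_nonneg (bit_nonneg (a j)) (bit_nonneg (b j)))).1 h0 i
          (Finset.mem_univ i)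
        rw [hi.1, hi.2] at this
        simp [bit] at this
      · rw [if_pos]
        · symm
          refine Finset.prod_eq_one fun i _ => ?_
          rw [if_neg]
          intro hi
          exact hc ⟨i, hi⟩
        · refine Finset.sum_eq_zero fun i _ => ?_
          by_cases ha : a i = true
          · by_cases hb : b i = true
            · exact absurd ⟨i, ha, hb⟩ hc
            · simp [bit, hb]
          · simp [bit, ha]
    simp only [e1]
    rw [sumprod (fun i x => if x = true ∧ b i = true then (0 : ℝ) else 1)]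
    refine Finset.prod_congr rfl fun i _ => ?_
    by_cases hb : b i = true
    · simp [hb]
    · simp [hb]; norm_num
  have hwpos : ∀ b, 0 < w b := fun b => Finset.prod_pos fun i _ => by split_ifs <;> norm_num
  have h2 : ∑ b ∈ B, w b ≤ 2 ^ m * Fintype.card ι := by
    have e1 : ∑ b ∈ B, w b ≤ ∑ l : ι, D (fun a => A l a) (fun b => b ∈ B ∧ A' l b) := by
      unfold D
      have e2 : ∑ b ∈ B, w b = ∑ a : Fin m → Bool, ∑ b : Fin m → Bool,
          if b ∈ B ∧ S a b = 0 then (1 : ℝ) else 0 := by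
        rw [Finset.sum_comm, ← Finset.sum_subset (Finset.subset_univ B)]
        · refine Finset.sum_congr rfl fun b hb => ?_
          rw [hw b]
          refine Finset.sum_congr rfl fun a _ => ?_
          simp [hb]
        · intro b _ hb
          refine Finset.sum_eq_zero fun a _ => ?_
          simp [hb]
      rw [e2, Finset.sum_comm (s := (Finset.univ : Finset ι))]
      refine Finset.sum_le_sum fun a _ => ?_
      rw [Finset.sum_comm (s := (Finset.univ : Finset ι))]
      refine Finset.sum_le_sum fun b _ => ?_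
      by_cases hc : b ∈ B ∧ S a b = 0
      · rw [if_pos hc]
        obtain ⟨l, h7, h8⟩ := (hS a b hc.1).2 (by rw [hc.2]; norm_num)
        refine le_trans ?_ (Finset.single_le_sum (fun l _ => ?_) (Finset.mem_univ l))
        · rw [if_pos ⟨h7, ⟨hc.1, h8⟩, hc.2⟩]
        · split_ifs <;> norm_num
      · rw [if_neg hc]
        exact Finset.sum_nonneg fun l _ => by split_ifs <;> norm_num
    have e3 : ∑ l : ι, D (fun a => A l a) (fun b => b ∈ B ∧ A' l b)
        ≤ ∑ _l : ι, (2 : ℝ) ^ m := by
      refine Finset.sum_le_sum fun l _ => fam m _ _ ?_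
      rintro p q hp ⟨hq, hq'⟩ h1
      exact (hS p q hq).1 ⟨l, hp, hq'⟩ h1
    rw [Finset.sum_const, Finset.card_univ, nsmul_eq_mul] at e3
    linarith
  have h3 : ∑ b ∈ B, (w b)⁻¹ ≤ (3 / 2) ^ m := by
    have e1 : ∑ b ∈ B, (w b)⁻¹ ≤ ∑ b : Fin m → Bool, (w b)⁻¹ :=
      Finset.sum_le_sum_of_subset_of_nonneg (Finset.subset_univ B)
        fun b _ _ => inv_nonneg.2 (hwpos b).le
    have e2 : ∑ b : Fin m → Bool, (w b)⁻¹ = (3 / 2) ^ m := by
      have e3 : ∀ b : Fin m → Bool, (w b)⁻¹ = ∏ i, (if b i = true then (1 : ℝ) else 1 / 2) := by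
        intro b
        rw [← Finset.prod_inv_distrib]
        refine Finset.prod_congr rfl fun i _ => ?_
        split_ifs <;> norm_num
      simp only [e3]
      rw [sumprod (fun _ x => if x = true then (1 : ℝ) else 1 / 2)]
      simp
      norm_num
    linarith
  have h4 : (B.card : ℝ) ^ 2 ≤ (∑ b ∈ B, w b) * ∑ b ∈ B, (w b)⁻¹ := by
    have := Finset.sum_sq_le_sum_mul_sum_of_sq_le_mul B (r := fun _ => (1 : ℝ)) (f := w)
      (g := fun b => (w b)⁻¹) (fun b _ => (hwpos b).le) (fun b _ => inv_nonneg.2 (hwpos b).le)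
      (fun b _ => by rw [mul_inv_cancel₀ (hwpos b).ne']; norm_num)
    simpa using this
  have h5 : (∑ b ∈ B, w b) * ∑ b ∈ B, (w b)⁻¹ ≤ (2 ^ m * Fintype.card ι) * (3 / 2) ^ m :=
    mul_le_mul h2 h3 (Finset.sum_nonneg fun b _ => inv_nonneg.2 (hwpos b).le) (by positivity)
  have h6 : ((2 : ℝ) ^ m * Fintype.card ι) * (3 / 2) ^ m = 3 ^ m * Fintype.card ι := by
    rw [mul_right_comm, ← mul_pow]
    norm_num
  have h7 : ((B.card ^ 2 : ℕ) : ℝ) ≤ ((3 ^ m * Fintype.card ι : ℕ) : ℝ) := by
    push_cast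
    linarith
  exact_mod_cast h7

end Pool.Agent.SFP.KWC

namespace Pool.Agent.SFP

theorem thm_KWC : St_KWC := KWC.thm_KWC

end Pool.Agent.SFP
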