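import Pool.Agent.SFP.DefC
import Mathlib.Combinatorics.Matroid.Circuit

/-!
# Exchange properties give small covers; bases of matroids
-/

set_option autoImplicit false

namespace Pool.Agent.SFP

open Finset

/-- flip the coordinates `i` and `j` -/
def flp {N : ℕ} (y : Fin N → Bool) (i j : Fin N) : Fin N → Bool :=
  fun k => if k = i ∨ k = j then !y k else y k

/-- The symmetric exchange property (delta matroids in the even case; `i = j` allowed). -/
def Exc {N : ℕ} (ψ : (Fin N → Bool) → Prop) : Prop := ∀ y y', ψ y → ψ y' → y ≠ y' →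
  ∃ i j, y i ≠ y' i ∧ y j ≠ y' j ∧ ψ (flp y i j) ∧ ψ (flp y' i j)

/-- the change of the weight -/
noncomputable def dlt {N : ℕ} (g : Fin N → Bool → ℝ) (i : Fin N) (b : Bool) (j : Fin N)
    (b' : Bool) : ℝ :=
  (g i (!b) - g i b) + if i = j then 0 else g j (!b') - g j b'

theorem sum_flp {N : ℕ} (g : Fin N → Bool → ℝ) (y : Fin N → Bool) (i j : Fin N) :
    ∑ k, g k (flp y i j k) = ∑ k, g k (y k) + dlt g i (y i) j (y j) := by
  classical
  let D : Fin N → ℝ := fun k => g k (!y k) - g k (y k)
  have h1 : ∀ k, g k (flp y i j k) = g k (y k) + ((if k = i then D k else 0) +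
      (if k = j then (if i = j then 0 else D k) else 0)) := by
    intro k
    by_cases hi : k = i
    · subst hi
      by_cases hj : k = j
      · subst hj
        simp [flp, D]
      · simp [flp, D, hj]
    · by_cases hj : k = j
      · subst hj
        have hi' : ¬ i = k := fun h => hi h.symm
        simp [flp, D, hi, hi']
      · simp [flp, hi, hj]
  rw [Finset.sum_congr rfl fun k _ => h1 k, Finset.sum_add_distrib, Finset.sum_add_distrib,
    Finset.sum_ite_eq', Finset.sum_ite_eq']
  simp [dlt, D]

theorem thm_Exc : ∀ (N : ℕ) (ψ : (Fin N → Bool) → Prop), Exc ψ → Cov ((2 * N) ^ 2) ψ := by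
  classical
  intro N ψ hψ
  have hc : Fintype.card ((Fin N × Bool) × (Fin N × Bool)) = (2 * N) ^ 2 := by
    rw [Fintype.card_prod, Fintype.card_prod, Fintype.card_fin, Fintype.card_bool]
    ring
  let e : Fin ((2 * N) ^ 2) ≃ (Fin N × Bool) × (Fin N × Bool) :=
    (Fintype.equivFinOfCardEq hc).symm
  refine ⟨fun y l => y (e l).1.1 = (e l).1.2 ∧ y (e l).2.1 = (e l).2.2 ∧
    ψ (flp y (e l).1.1 (e l).2.1), fun g => ⟨fun l =>
    0 < dlt g (e l).1.1 (e l).1.2 (e l).2.1 (e l).2.2, fun y hy => ?_⟩⟩
  constructor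
  · rintro ⟨l, hl, h1, h2, h3⟩
    refine ⟨_, h3, ?_⟩
    rw [sum_flp, h1, h2]
    linarith
  · rintro ⟨y', hy', hlt⟩
    let W : (Fin N → Bool) → ℝ := fun z => ∑ k, g k (z k)
    obtain ⟨z₀, hz₀, hz₀m⟩ := exists_max_image (univ.filter fun z => ψ z) W
      ⟨y, mem_filter.2 ⟨mem_univ _, hy⟩⟩
    let Opt : Finset (Fin N → Bool) := univ.filter fun z => ψ z ∧ W z = W z₀
    obtain ⟨z, hz, hzm⟩ := exists_min_image Opt
      (fun z => (univ.filter fun k => y k ≠ z k).card)
      ⟨z₀, mem_filter.2 ⟨mem_univ _, (mem_filter.1 hz₀).2, rfl⟩⟩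
    obtain ⟨-, hz1, hz2⟩ := mem_filter.1 hz
    have hmax : ∀ w, ψ w → W w ≤ W z := fun w hw => by
      rw [hz2]
      exact hz₀m w (mem_filter.2 ⟨mem_univ _, hw⟩)
    have hne : y ≠ z := by
      rintro rfl
      exact absurd (hmax y' hy') (not_le.2 hlt)
    obtain ⟨i, j, hi, hj, h1, h2⟩ := hψ y z hy hz1 hne
    have hzi : z i = !y i := by
      revert hi
      cases y i <;> cases z i <;> simp
    have hzj : z j = !y j := by
      revert hj
      cases y j <;> cases z j <;> simp
    have hd : dlt g i (z i) j (z j) = - dlt g i (y i) j (y j) := by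
      rw [dlt, dlt, hzi, hzj, Bool.not_not, Bool.not_not]
      split_ifs <;> ring
    have hpos : 0 < dlt g i (y i) j (y j) := by
      by_contra hneg
      rw [not_lt] at hneg
      have h3 : W (flp z i j) = W z := by
        apply le_antisymm (hmax _ h2)
        change _ ≤ ∑ k, g k (flp z i j k)
        rw [sum_flp, hd]
        change W z ≤ W z + _
        linarith
      have h4 := hzm (flp z i j) (mem_filter.2 ⟨mem_univ _, h2, h3.trans hz2⟩)
      refine absurd h4 (not_le.2 (card_lt_card ?_))
      rw [ssubset_iff_of_subset]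
      · refine ⟨i, mem_filter.2 ⟨mem_univ _, hi⟩, fun h => (mem_filter.1 h).2 ?_⟩
        simp [flp, hzi]
      · intro k hk
        refine mem_filter.2 ⟨mem_univ _, fun hk' => (mem_filter.1 hk).2 ?_⟩
        by_cases hki : k = i ∨ k = j
        · rcases hki with rfl | rfl
          · exact absurd hk' hi
          · exact absurd hk' hj
        · simp [flp, hki, hk']
    refine ⟨e.symm ((i, y i), (j, y j)), ?_, ?_⟩
    · change 0 < dlt g (e (e.symm ((i, y i), (j, y j)))).1.1 _ _ _
      rw [Equiv.apply_symm_apply]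
      exact hpos
    · change y (e (e.symm ((i, y i), (j, y j)))).1.1 = _ ∧ _
      rw [Equiv.apply_symm_apply]
      exact ⟨rfl, rfl, h1⟩

theorem symm_exchange {α : Type*} (M : Matroid α) {B B' : Set α} (hB : M.IsBase B)
    (hB' : M.IsBase B') {e : α} (he : e ∈ B \ B') :
    ∃ f ∈ B' \ B, M.IsBase (insert f (B \ {e})) ∧ M.IsBase (insert e (B' \ {f})) := by
  have heE : e ∈ M.E := hB.subset_ground he.1
  have hecl : e ∈ M.closure B' := by
    rw [hB'.closure_eq]
    exact heE
  have hC := hB'.fundCircuit_isCircuit heE he.2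
  have heC := M.mem_fundCircuit e B'
  have hex : ∃ f ∈ M.fundCircuit e B' \ {e}, f ∉ M.closure (B \ {e}) := by
    by_contra hcon
    push Not at hcon
    have h1 : e ∈ M.closure (M.fundCircuit e B' \ {e}) :=
      hC.mem_closure_sdiff_singleton_of_mem heC
    have h2 : M.closure (M.fundCircuit e B' \ {e}) ⊆ M.closure (B \ {e}) :=
      M.closure_subset_closure_of_subset_closure fun f hf => hcon f hf
    exact hB.indep.notMem_closure_sdiff_of_mem he.1 (h2 h1)
  obtain ⟨f, ⟨hfC, hfe⟩, hf⟩ := hex
  have hfe' : f ≠ e := hfe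
  have hfB' : f ∈ B' := by
    rcases M.fundCircuit_subset_insert e B' hfC with h | h
    · exact absurd h hfe'
    · exact h
  have hfE : f ∈ M.E := hB'.subset_ground hfB'
  have hfB : f ∉ B := fun h => hf (M.subset_closure (B \ {e})
    (Set.sdiff_subset.trans hB.subset_ground) ⟨h, hfe⟩)
  refine ⟨f, ⟨hfB', hfB⟩, hB.exchange_base_of_notMem_closure he.1 hf hfE, ?_⟩
  have h3 := (hB'.indep.mem_fundCircuit_iff hecl he.2).1 hfC
  have h4 : insert e B' \ {f} = insert e (B' \ {f}) := by
    ext x
    simp only [Set.mem_sdiff, Set.mem_insert_iff, Set.mem_singleton_iff]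
    constructor
    · rintro ⟨rfl | h, hx⟩
      · exact Or.inl rfl
      · exact Or.inr ⟨h, hx⟩
    · rintro (rfl | ⟨h, hx⟩)
      · exact ⟨Or.inl rfl, fun h => hfe' h.symm⟩
      · exact ⟨Or.inr h, hx⟩
  rw [h4] at h3
  exact hB'.exchange_isBase_of_indep he.2 h3

theorem thm_Mat : ∀ (N : ℕ) (M : Matroid (Fin N)),
    Exc (fun y : Fin N → Bool => M.IsBase {i | y i = true}) := by
  intro N M y y' hy hy' hne
  have hex : ∃ e, e ∈ {i | y i = true} \ {i | y' i = true} := by
    by_contra hcon
    push Not at hcon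
    have hsub : {i | y i = true} ⊆ {i | y' i = true} := fun e he => by
      by_contra h
      exact hcon e ⟨he, h⟩
    have heq := hy.eq_of_subset_isBase hy' hsub
    refine hne (funext fun i => ?_)
    have hi : y i = true ↔ y' i = true := by
      have := Set.ext_iff.1 heq i
      exact this
    cases h1 : y i <;> cases h2 : y' i <;> simp_all
  obtain ⟨e, he⟩ := hex
  obtain ⟨f, hf, h1, h2⟩ := symm_exchange M hy hy' he
  have he1 : y e = true := he.1
  have he2 : y' e = false := by simpa using he.2
  have hf1 : y' f = true := hf.1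
  have hf2 : y f = false := by simpa using hf.2
  have hef : e ≠ f := by
    rintro rfl
    rw [he1] at hf2
    exact Bool.noConfusion hf2
  refine ⟨e, f, by rw [he1, he2]; simp, by rw [hf1, hf2]; simp, ?_, ?_⟩
  · have : {i | flp y e f i = true} = insert f ({i | y i = true} \ {e}) := by
      ext k
      simp only [Set.mem_ofPred_eq, Set.mem_insert_iff, Set.mem_sdiff, Set.mem_singleton_iff, flp]
      by_cases hke : k = e
      · subst hke
        simp [he1, hef]
      · by_cases hkf : k = f
        · subst hkf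
          simp [hf2]
        · simp [hke, hkf]
    change M.IsBase {i | flp y e f i = true}
    rw [this]
    exact h1
  · have : {i | flp y' e f i = true} = insert e ({i | y' i = true} \ {f}) := by
      ext k
      simp only [Set.mem_ofPred_eq, Set.mem_insert_iff, Set.mem_sdiff, Set.mem_singleton_iff, flp]
      by_cases hke : k = e
      · subst hke
        simp [he2]
      · by_cases hkf : k = f
        · subst hkf
          simp [hf1, hke]
        · simp [hke, hkf]
    change M.IsBase {i | flp y' e f i = true}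
    rw [this]
    exact h2

end Pool.Agent.SFP
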