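import Pool.Agent.SFP.Defs

/-!
# Boxes in the hard formula are trivial; the linear functional (helper18)
-/

set_option autoImplicit false

namespace Pool.Agent.SFP

open Finset Pool.Agent.STH Pool.Agent.STD Pool.Agent.STS Pool.Agent.SFR

private lemma Prm_ext {m n : ℕ} {e : Fin m × Fin m ≃ Fin n} {p q : Pt n} (hp : Cor e p)
    (hq : Cor e q) (h : ∀ i, p (e (i, i)) = q (e (i, i))) : p = q := by
  funext k
  obtain ⟨⟨i, j⟩, rfl⟩ := e.surjective k
  rcases lt_trichotomy i j with hij | hij | hij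
  · rw [(hp i j).1 hij, (hq i j).1 hij, h, h]
  · subst hij
    exact h i
  · rw [(hp i j).2 hij, (hq i j).2 hij, h, h]

private lemma Prm_bool : ∀ A A' B B' C C' : Bool, A ≠ A' → B ≠ B' → C = (A && B) →
    C' = (A' && B) → C = (A && B') → C' = (A' && B') → False := by decide

private lemma Prm_in {n : ℕ} {U : Finset (Fin n)} {k : Fin n} (h : k ∈ U) (z x : Pt n) :
    mix U z x k = z k := if_pos h

private lemma Prm_out {n : ℕ} {U : Finset (Fin n)} {k : Fin n} (h : k ∉ U) (z x : Pt n) :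
    mix U z x k = x k := if_neg h

/-- [Prm] boxes in `Cor` are trivial. -/
theorem thm_Prm : St_Prm := by
  intro m n e U z z' x x' h1 h2 h3 h4
  by_contra hc
  push Not at hc
  obtain ⟨⟨k, hkU, hk⟩, l, hlU, hl⟩ := hc
  obtain ⟨i, hi⟩ : ∃ i, mix U z x (e (i, i)) ≠ mix U z' x (e (i, i)) := by
    by_contra h
    push Not at h
    have h5 := congrFun (Prm_ext h1 h2 h) k
    rw [Prm_in hkU, Prm_in hkU] at h5
    exact hk h5
  have hiU : e (i, i) ∈ U := by
    by_contra h
    rw [Prm_out h, Prm_out h] at hi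
    exact hi rfl
  rw [Prm_in hiU, Prm_in hiU] at hi
  obtain ⟨j, hj⟩ : ∃ j, mix U z x (e (j, j)) ≠ mix U z x' (e (j, j)) := by
    by_contra h
    push Not at h
    have h5 := congrFun (Prm_ext h1 h3 h) l
    rw [Prm_out hlU, Prm_out hlU] at h5
    exact hl h5
  have hjU : e (j, j) ∉ U := by
    intro h
    rw [Prm_in h, Prm_in h] at hj
    exact hj rfl
  rw [Prm_out hjU, Prm_out hjU] at hj
  have hij : i ≠ j := fun h => hjU (h ▸ hiU)
  rcases lt_or_gt_of_ne hij with h | h
  · have a1 := (h1 i j).1 h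
    have a2 := (h2 i j).1 h
    have a3 := (h3 i j).1 h
    have a4 := (h4 i j).1 h
    rw [Prm_in hiU, Prm_out hjU] at a1 a2 a3 a4
    by_cases hu : e (i, j) ∈ U
    · rw [Prm_in hu] at a1 a2 a3 a4
      exact Prm_bool _ _ _ _ _ _ hi hj a1 a2 a3 a4
    · rw [Prm_out hu] at a1 a2 a3 a4
      rw [Bool.and_comm] at a1 a2 a3 a4
      exact Prm_bool _ _ _ _ _ _ hj hi a1 a3 a2 a4
  · have a1 := (h1 j i).1 h
    have a2 := (h2 j i).1 h
    have a3 := (h3 j i).1 h
    have a4 := (h4 j i).1 h
    rw [Prm_in hiU, Prm_out hjU] at a1 a2 a3 a4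
    by_cases hu : e (j, i) ∈ U
    · rw [Prm_in hu] at a1 a2 a3 a4
      rw [Bool.and_comm] at a1 a2 a3 a4
      exact Prm_bool _ _ _ _ _ _ hi hj a1 a2 a3 a4
    · rw [Prm_out hu] at a1 a2 a3 a4
      exact Prm_bool _ _ _ _ _ _ hj hi a1 a3 a2 a4

private lemma Prm_bit (b c : Bool) : bit (b && c) = bit b * bit c := by
  cases b <;> cases c <;> simp [bit]

private lemma Prm_idem (b : Bool) : bit b * bit b = bit b := by
  cases b <;> simp [bit]

private lemma Prm_sq {m : ℕ} (t : Fin m → ℝ) (ht : ∀ i, t i * t i = t i) :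
    1 - ∑ i, ∑ j, (if i = j then t i else if i < j then -2 * (t i * t j) else 0) =
      (1 - ∑ i, t i) ^ 2 := by
  have h1 : ∑ i, ∑ j, (if i = j then t i else if i < j then -2 * (t i * t j) else 0) =
      ∑ i, ∑ j, (if j = i then t j else if j < i then -2 * (t j * t i) else 0) := sum_comm
  have h2 : ∑ i, ∑ j, ((if i = j then t i else if i < j then -2 * (t i * t j) else 0) +
      (if j = i then t j else if j < i then -2 * (t j * t i) else 0)) =
      ∑ i, ∑ j, (-2 * (t i * t j) + if i = j then 4 * t i else 0) := by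
    refine sum_congr rfl fun i _ => sum_congr rfl fun j _ => ?_
    rcases lt_trichotomy i j with h | h | h
    · rw [if_neg h.ne, if_pos h, if_neg h.ne', if_neg h.not_gt, if_neg h.ne]
    · subst h
      rw [if_pos rfl, if_pos rfl, ht]
      ring
    · rw [if_neg h.ne', if_neg h.not_gt, if_neg h.ne, if_pos h, if_neg h.ne']
      ring
  have h3 : ∑ i, ∑ j, (-2 * (t i * t j) + if i = j then 4 * t i else 0) =
      -2 * ((∑ i, t i) * ∑ j, t j) + 4 * ∑ i, t i := by
    rw [sum_mul_sum, mul_sum, mul_sum, ← sum_add_distrib]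
    refine sum_congr rfl fun i _ => ?_
    rw [sum_add_distrib, sum_ite_eq, if_pos (mem_univ i), mul_sum]
  simp only [sum_add_distrib] at h2 h3
  rw [← h1] at h2
  rw [h3] at h2
  linear_combination (-1 / 2 : ℝ) * h2

/-- [Lin] -/
theorem thm_Lin : St_Lin := by
  intro m n e a x hx
  have h1 : ∑ k, cf e a k * bit (x k) =
      ∑ i, ∑ j, (if i = j then bit (a i) * bit (x (e (i, i))) else
        if i < j then -2 * ((bit (a i) * bit (x (e (i, i)))) * (bit (a j) * bit (x (e (j, j)))))
        else 0) := by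
    rw [← Equiv.sum_comp e, Fintype.sum_prod_type]
    refine sum_congr rfl fun i _ => sum_congr rfl fun j _ => ?_
    unfold cf
    rw [Equiv.symm_apply_apply]
    show (if i = j then bit (a i) else if i < j then -2 * bit (a i) * bit (a j) else 0) *
      bit (x (e (i, j))) = _
    rcases lt_trichotomy i j with h | h | h
    · rw [if_neg h.ne, if_pos h, if_neg h.ne, if_pos h, (hx i j).1 h, Prm_bit]
      ring
    · subst h
      rw [if_pos rfl, if_pos rfl]
    · rw [if_neg h.ne', if_neg h.not_gt, if_neg h.ne', if_neg h.not_gt, zero_mul]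
  rw [h1]
  refine Prm_sq (fun i => bit (a i) * bit (x (e (i, i)))) fun i => ?_
  show bit (a i) * bit (x (e (i, i))) * (bit (a i) * bit (x (e (i, i)))) = _
  rw [mul_mul_mul_comm, Prm_idem, Prm_idem]

end Pool.Agent.SFP
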