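import Pool.Agent.SFP.Defs

/-!
# Closure under restriction to subcubes

helper26.
-/

set_option autoImplicit false

namespace Pool.Agent.SFP

open Finset Pool.Agent.STH Pool.Agent.STD Pool.Agent.STS Pool.Agent.SFR

/-- the operations of Schaefer are conservative -/
theorem sch_mem {N : ℕ} {t : Fin N → Bool → Bool → Bool → Bool} (ht : IsSch t) (i : Fin N)
    (a b c : Bool) : t i a b c = a ∨ t i a b c = b ∨ t i a b c = c := by
  rcases ht i with h | h | h | h <;> rw [h] <;> revert a b c <;> decide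

theorem sbc_sch (N u : ℕ) (ψ : (Fin N → Bool) → Prop) (T : Fin N → Bool → Prop)
    (h : SchUnion u ψ) : SchUnion u fun y => ψ y ∧ ∀ j, T j (y j) := by
  obtain ⟨A, hA, h1⟩ := h
  refine ⟨fun l y => A l y ∧ ∀ j, T j (y j), fun l => ?_, fun y => ?_⟩
  · obtain ⟨t, ht, h2⟩ := hA l
    refine ⟨t, ht, fun x y w hx hy hw => ⟨h2 x y w hx.1 hy.1 hw.1, fun j => ?_⟩⟩
    show T j (t j (x j) (y j) (w j))
    rcases sch_mem ht j (x j) (y j) (w j) with h3 | h3 | h3
    · rw [h3]
      exact hx.2 j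
    · rw [h3]
      exact hy.2 j
    · rw [h3]
      exact hw.2 j
  · show (ψ y ∧ ∀ j, T j (y j)) ↔ ∃ l, A l y ∧ ∀ j, T j (y j)
    rw [h1]
    constructor
    · rintro ⟨⟨l, hl⟩, hT⟩
      exact ⟨l, hl, hT⟩
    · rintro ⟨l, hl, hT⟩
      exact ⟨⟨l, hl⟩, hT⟩

theorem sbc_yan (N q : ℕ) (ψ : (Fin N → Bool) → Prop) (T : Fin N → Bool → Prop)
    (h : Yan q ψ) : Yan q fun y => ψ y ∧ ∀ j, T j (y j) := by
  classical
  obtain ⟨β, hβ, h1⟩ := h
  refine ⟨β, hβ, fun g M hg => ?_⟩
  obtain ⟨G, hG⟩ : ∃ G : ℝ, G = ∑ j, (|g j true| + |g j false|) := ⟨_, rfl⟩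
  have hG1 : ∀ y : Fin N → Bool, ∑ j, g j (y j) ≤ G := by
    intro y
    rw [hG]
    refine Finset.sum_le_sum fun j _ => ?_
    have h2 : ∀ b : Bool, g j b ≤ |g j true| + |g j false| := by
      intro b
      cases b
      · exact (le_abs_self _).trans (le_add_of_nonneg_left (abs_nonneg _))
      · exact (le_abs_self _).trans (le_add_of_nonneg_right (abs_nonneg _))
    exact h2 (y j)
  have hG0 : 0 ≤ G := by
    rw [hG]
    exact Finset.sum_nonneg fun j _ => add_nonneg (abs_nonneg _) (abs_nonneg _)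
  obtain ⟨L, hL⟩ : ∃ L : ℝ, L = |M| + G := ⟨_, rfl⟩
  have hL0 : 0 ≤ L := by
    rw [hL]
    exact add_nonneg (abs_nonneg _) hG0
  have h3 : ∀ y, ψ y → ∑ j, (g j (y j) - if T j (y j) then 0 else L) ≤ M := by
    intro y hy
    rw [Finset.sum_sub_distrib]
    by_cases hT : ∀ j, T j (y j)
    · have h4 : ∑ j, (if T j (y j) then 0 else L) = (0 : ℝ) :=
        Finset.sum_eq_zero fun j _ => if_pos (hT j)
      rw [h4, sub_zero]
      exact hg y ⟨hy, hT⟩
    · push Not at hT
      obtain ⟨j0, hj0⟩ := hT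
      have h4 : L ≤ ∑ j, (if T j (y j) then 0 else L) := by
        have h5 : (if T j0 (y j0) then 0 else L) ≤ ∑ j, (if T j (y j) then 0 else L) :=
          Finset.single_le_sum (f := fun j => if T j (y j) then 0 else L) (fun j _ => by
            show 0 ≤ if T j (y j) then 0 else L
            split_ifs
            · exact le_rfl
            · exact hL0) (Finset.mem_univ j0)
        rw [if_neg hj0] at h5
        exact h5
      have h5 := hG1 y
      have h6 := neg_abs_le M
      linarith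
  obtain ⟨α, hα, h4⟩ := h1 (fun j b => g j b - if T j b then 0 else L) M h3
  refine ⟨α, hα, fun y hy => ?_⟩
  rw [← h4 y hy.1]
  congr 1
  refine Finset.sum_congr rfl fun j _ => ?_
  show g j (y j) = g j (y j) - if T j (y j) then 0 else L
  rw [if_pos (hy.2 j), sub_zero]

theorem yan_mono (N q q' : ℕ) (ψ : (Fin N → Bool) → Prop) (hq : q ≤ q') (h : Yan q ψ) :
    Yan q' ψ := by
  obtain ⟨d, rfl⟩ := Nat.exists_eq_add_of_le hq
  obtain ⟨β, hβ, h1⟩ := h
  refine ⟨fun y => Fin.addCases (β y) (fun _ => 0), fun y l => ?_, fun g M hg => ?_⟩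
  · refine Fin.addCases (fun i => ?_) (fun i => ?_) l
    · beta_reduce
      rw [Fin.addCases_left]
      exact hβ y i
    · beta_reduce
      rw [Fin.addCases_right]
  · obtain ⟨α, hα, h2⟩ := h1 g M hg
    refine ⟨Fin.addCases α (fun _ => 0), fun l => ?_, fun y hy => ?_⟩
    · refine Fin.addCases (fun i => ?_) (fun i => ?_) l
      · beta_reduce
        rw [Fin.addCases_left]
        exact hα i
      · beta_reduce
        rw [Fin.addCases_right]
    · rw [h2 y hy, Fin.sum_univ_add]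
      simp only [Fin.addCases_left, Fin.addCases_right, mul_zero, Finset.sum_const_zero, add_zero]

theorem thm_Sbc : St_Sbc := ⟨sbc_sch, sbc_yan, yan_mono⟩

end Pool.Agent.SFP
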