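import Pool.Agent.SFP.Defs
import Mathlib.Combinatorics.SetFamily.Shatter

/-!
# Sets of models of the hard formula which are closed under an operation of Schaefer
-/

set_option autoImplicit false

namespace Pool.Agent.SFP

open Finset Pool.Agent.STH Pool.Agent.STD Pool.Agent.STS Pool.Agent.SFR

/-- the four operations of Schaefer -/
private def Thn_op : Fin 4 → Bool → Bool → Bool → Bool
  | 0 => fun _ b c => b && c
  | 1 => fun _ b c => b || c
  | 2 => fun a b c => (a && b) || (a && c) || (b && c)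
  | 3 => fun a b c => a ^^ b ^^ c

private lemma Thn_and : ∀ p q r : Fin 4, (∀ a₁ a₂ a₃ b₁ b₂ b₃ : Bool,
    Thn_op r (a₁ && b₁) (a₂ && b₂) (a₃ && b₃) = (Thn_op p a₁ a₂ a₃ && Thn_op q b₁ b₂ b₃)) →
    p = 0 := by
  decide

private lemma Thn_or : ∀ p q r : Fin 4, (∀ a₁ a₂ a₃ b₁ b₂ b₃ : Bool,
    Thn_op r (b₁ || a₁) (b₂ || a₂) (b₃ || a₃) = (Thn_op q b₁ b₂ b₃ || Thn_op p a₁ a₂ a₃)) →
    p = 1 := by
  decide

private lemma Thn_idx {N : ℕ} {t : Fin N → Bool → Bool → Bool → Bool} (ht : IsSch t) (k : Fin N) :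
    ∃ o : Fin 4, ∀ a b c, t k a b c = Thn_op o a b c := by
  rcases ht k with h | h | h | h
  · exact ⟨0, h⟩
  · exact ⟨1, h⟩
  · exact ⟨2, h⟩
  · exact ⟨3, h⟩

/-- the diagonal -/
private def Thn_d {m n : ℕ} (e : Fin m × Fin m ≃ Fin n) (x : Pt n) : Finset (Fin m) :=
  univ.filter fun i => x (e (i, i)) = true

private lemma Thn_mem_d {m n : ℕ} {e : Fin m × Fin m ≃ Fin n} {x : Pt n} {i : Fin m} :
    i ∈ Thn_d e x ↔ x (e (i, i)) = true := by
  simp [Thn_d]

private lemma Thn_inj {m n : ℕ} {e : Fin m × Fin m ≃ Fin n} {x y : Pt n} (hx : Cor e x)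
    (hy : Cor e y) (h : Thn_d e x = Thn_d e y) : x = y := by
  have hd : ∀ i, x (e (i, i)) = y (e (i, i)) := by
    intro i
    have h1 : (x (e (i, i)) = true) ↔ (y (e (i, i)) = true) := by
      rw [← Thn_mem_d, ← Thn_mem_d, h]
    cases h2 : x (e (i, i)) <;> cases h3 : y (e (i, i)) <;> simp_all
  funext k
  obtain ⟨⟨i, j⟩, rfl⟩ := e.surjective k
  rcases lt_trichotomy i j with hij | hij | hij
  · rw [(hx i j).1 hij, (hy i j).1 hij, hd, hd]
  · subst hij
    exact hd i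
  · rw [(hx i j).2 hij, (hy i j).2 hij, hd, hd]

private lemma Thn_pair {m n : ℕ} {e : Fin m × Fin m ≃ Fin n}
    {t : Fin n → Bool → Bool → Bool → Bool} (ht : IsSch t) {X : Finset (Pt n)}
    (hX : ∀ x ∈ X, Cor e x) (hc : ∀ x ∈ X, ∀ y ∈ X, ∀ w ∈ X, ap t x y w ∈ X) {i j : Fin m}
    (hij : i < j)
    (h : ∀ a b : Bool, ∃ x ∈ X, x (e (i, i)) = a ∧ x (e (j, j)) = b) : False := by
  obtain ⟨p, hp⟩ := Thn_idx ht (e (i, i))
  obtain ⟨q, hq⟩ := Thn_idx ht (e (j, j))
  obtain ⟨r, hr⟩ := Thn_idx ht (e (i, j))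
  obtain ⟨s, hs⟩ := Thn_idx ht (e (j, i))
  have h0 : p = 0 := by
    refine Thn_and p q r fun a₁ a₂ a₃ b₁ b₂ b₃ => ?_
    obtain ⟨x, hx, hx1, hx2⟩ := h a₁ b₁
    obtain ⟨y, hy, hy1, hy2⟩ := h a₂ b₂
    obtain ⟨w, hw, hw1, hw2⟩ := h a₃ b₃
    have h1 := (hX _ (hc x hx y hy w hw) i j).1 hij
    simp only [ap] at h1
    rw [(hX x hx i j).1 hij, (hX y hy i j).1 hij, (hX w hw i j).1 hij, hx1, hx2, hy1, hy2,
      hw1, hw2, hp, hq, hr] at h1
    exact h1
  have h1 : p = 1 := by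
    refine Thn_or p q s fun a₁ a₂ a₃ b₁ b₂ b₃ => ?_
    obtain ⟨x, hx, hx1, hx2⟩ := h a₁ b₁
    obtain ⟨y, hy, hy1, hy2⟩ := h a₂ b₂
    obtain ⟨w, hw, hw1, hw2⟩ := h a₃ b₃
    have h1 := (hX _ (hc x hx y hy w hw) j i).2 hij
    simp only [ap] at h1
    rw [(hX x hx j i).2 hij, (hX y hy j i).2 hij, (hX w hw j i).2 hij, hx1, hx2, hy1, hy2,
      hw1, hw2, hp, hq, hs] at h1
    exact h1
  rw [h0] at h1
  exact absurd h1 (by decide)

theorem thm_Thn : St_Thn := by
  classical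
  intro m n e t ht X hX hc
  set A : Finset (Finset (Fin m)) := X.image (Thn_d e) with hA
  have h1 : X.card = A.card := by
    rw [hA, card_image_of_injOn]
    intro x hx y hy hxy
    exact Thn_inj (hX x hx) (hX y hy) hxy
  set B : Finset (Finset (Fin m)) :=
    (univ : Finset (Fin m)).image fun i => ({i} : Finset (Fin m)) with hB
  have h2 : A.shatterer ⊆ insert ∅ B := by
    intro S hS
    rw [mem_shatterer] at hS
    by_contra hcon
    have h3 : 1 < S.card := by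
      by_contra h4
      push Not at h4
      rcases Nat.le_one_iff_eq_zero_or_eq_one.1 h4 with h5 | h5
      · rw [card_eq_zero] at h5
        exact hcon (by rw [h5]; exact mem_insert_self _ _)
      · obtain ⟨i, hi⟩ := card_eq_one.1 h5
        exact hcon (mem_insert_of_mem (mem_image.2 ⟨i, mem_univ _, hi.symm⟩))
    obtain ⟨i, hi, j, hj, hij⟩ := one_lt_card.1 h3
    have h4 : ∀ i j : Fin m, i ∈ S → j ∈ S → i ≠ j →
        ∀ a b : Bool, ∃ x ∈ X, x (e (i, i)) = a ∧ x (e (j, j)) = b := by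
      intro i j hi hj hij a b
      set T : Finset (Fin m) := S.filter fun k => (k = i ∧ a = true) ∨ (k = j ∧ b = true)
      obtain ⟨u, hu, huT⟩ := hS (t := T) (filter_subset _ _)
      obtain ⟨x, hx, rfl⟩ := mem_image.1 hu
      refine ⟨x, hx, ?_, ?_⟩
      · have h5 : i ∈ S ∩ Thn_d e x ↔ i ∈ T := by rw [huT]
        simp only [T, mem_inter, mem_filter, hi, true_and, Thn_mem_d, hij, false_and,
          or_false] at h5
        cases h6 : x (e (i, i)) <;> cases a <;> simp_all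
      · have h5 : j ∈ S ∩ Thn_d e x ↔ j ∈ T := by rw [huT]
        simp only [T, mem_inter, mem_filter, hj, true_and, Thn_mem_d, Ne.symm hij, false_and,
          false_or] at h5
        cases h6 : x (e (j, j)) <;> cases b <;> simp_all
    rcases lt_or_gt_of_ne hij with hlt | hlt
    · exact Thn_pair ht hX hc hlt (h4 i j hi hj hij)
    · exact Thn_pair ht hX hc hlt (h4 j i hj hi hij.symm)
  calc X.card = A.card := h1
    _ ≤ A.shatterer.card := card_le_card_shatterer A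
    _ ≤ (insert ∅ B).card := card_le_card h2
    _ ≤ B.card + 1 := card_insert_le _ _
    _ ≤ (univ : Finset (Fin m)).card + 1 := Nat.add_le_add_right card_image_le _
    _ = m + 1 := by simp

end Pool.Agent.SFP
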