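import Pool.Agent.SFP.Defs

/-!
# SFP [Yan]: Yannakakis' factorization of an extended formulation (helper86)
-/

set_option autoImplicit false

namespace Pool.Agent.SFP

open Finset Pool.Agent.STH Pool.Agent.STD Pool.Agent.STS Pool.Agent.SFR

namespace YanP

/-! ### Farkas' lemma -/

/-- Farkas' lemma for functionals on any real vector space (proof of Bartl). -/
theorem farkas {V : Type} [AddCommGroup V] [Module ℝ V] : ∀ (n : ℕ) (g : Fin n → V →ₗ[ℝ] ℝ)
    (f : V →ₗ[ℝ] ℝ), (∀ v, (∀ i, g i v ≤ 0) → f v ≤ 0) →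
    ∃ α : Fin n → ℝ, (∀ i, 0 ≤ α i) ∧ ∀ v, f v = ∑ i, α i * g i v
  | 0, g, f, h => by
    refine ⟨fun _ => 0, fun _ => le_rfl, fun v => ?_⟩
    have h1 : f v ≤ 0 := h v fun i => i.elim0
    have h2 : f (-v) ≤ 0 := h (-v) fun i => i.elim0
    rw [map_neg] at h2
    rw [Fin.sum_univ_zero]
    linarith
  | n + 1, g, f, h => by
    by_cases h0 : ∀ v, (∀ i : Fin n, g i.succ v ≤ 0) → f v ≤ 0
    · obtain ⟨α, hα, hf⟩ := farkas n (fun i => g i.succ) f h0
      refine ⟨Fin.cons 0 α, fun i => ?_, fun v => ?_⟩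
      · refine Fin.cases ?_ (fun j => ?_) i
        · rw [Fin.cons_zero]
        · rw [Fin.cons_succ]
          exact hα j
      · rw [Fin.sum_univ_succ, Fin.cons_zero, zero_mul, zero_add, hf v]
        refine Finset.sum_congr rfl fun i _ => ?_
        rw [Fin.cons_succ]
    · push Not at h0
      obtain ⟨v₁, h1, h2⟩ := h0
      have h3 : 0 < g 0 v₁ := by
        by_contra h3
        refine absurd (h v₁ fun i => ?_) (not_le.2 h2)
        refine Fin.cases ?_ (fun j => ?_) i
        · exact not_lt.1 h3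
        · exact h1 j
      obtain ⟨w, hw0, hw1, hw2⟩ : ∃ w : V, g 0 w = 1 ∧ (∀ i : Fin n, g i.succ w ≤ 0) ∧ 0 < f w := by
        refine ⟨(g 0 v₁)⁻¹ • v₁, ?_, fun i => ?_, ?_⟩
        · rw [map_smul, smul_eq_mul]
          exact inv_mul_cancel₀ h3.ne'
        · rw [map_smul, smul_eq_mul]
          exact mul_nonpos_of_nonneg_of_nonpos (inv_pos.2 h3).le (h1 i)
        · rw [map_smul, smul_eq_mul]
          exact mul_pos (inv_pos.2 h3) h2
      obtain ⟨α, hα, hf⟩ := farkas n (fun i => g i.succ - g i.succ w • g 0) (f - f w • g 0) (by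
        intro v hv
        have h4 : f (v - g 0 v • w) ≤ 0 := by
          refine h _ fun i => ?_
          refine Fin.cases ?_ (fun j => ?_) i
          · rw [map_sub, map_smul, hw0, smul_eq_mul, mul_one, sub_self]
          · have h5 := hv j
            simp only [LinearMap.sub_apply, LinearMap.smul_apply, smul_eq_mul] at h5
            rw [map_sub, map_smul, smul_eq_mul]
            linarith
        rw [map_sub, map_smul, smul_eq_mul] at h4
        simp only [LinearMap.sub_apply, LinearMap.smul_apply, smul_eq_mul]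
        linarith)
      refine ⟨Fin.cons (f w - ∑ i, α i * g i.succ w) α, fun i => ?_, fun v => ?_⟩
      · refine Fin.cases ?_ (fun j => ?_) i
        · rw [Fin.cons_zero]
          have h6 : ∑ i, α i * g i.succ w ≤ 0 :=
            Finset.sum_nonpos fun i _ => mul_nonpos_of_nonneg_of_nonpos (hα i) (hw1 i)
          linarith
        · rw [Fin.cons_succ]
          exact hα j
      · have h7 := hf v
        simp only [LinearMap.sub_apply, LinearMap.smul_apply, smul_eq_mul] at h7
        rw [Fin.sum_univ_succ, Fin.cons_zero]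
        simp only [Fin.cons_succ]
        have h8 : ∑ i, α i * (g i.succ v - g i.succ w * g 0 v) =
            ∑ i, α i * g i.succ v - (∑ i, α i * g i.succ w) * g 0 v := by
          rw [Finset.sum_mul, ← Finset.sum_sub_distrib]
          refine Finset.sum_congr rfl fun i _ => ?_
          ring
        rw [h8] at h7
        linarith

/-- Farkas' lemma for a finite family -/
theorem farkasT {V ι : Type} [AddCommGroup V] [Module ℝ V] [Fintype ι] (g : ι → V →ₗ[ℝ] ℝ)
    (f : V →ₗ[ℝ] ℝ) (h : ∀ v, (∀ i, g i v ≤ 0) → f v ≤ 0) :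
    ∃ α : ι → ℝ, (∀ i, 0 ≤ α i) ∧ ∀ v, f v = ∑ i, α i * g i v := by
  obtain ⟨α, hα, hf⟩ := farkas (Fintype.card ι) (fun i => g ((Fintype.equivFin ι).symm i)) f
    (fun v hv => h v fun i => by
      have h1 := hv (Fintype.equivFin ι i)
      rwa [Equiv.symm_apply_apply] at h1)
  refine ⟨fun i => α (Fintype.equivFin ι i), fun i => hα _, fun v => ?_⟩
  rw [hf v, ← Equiv.sum_comp (Fintype.equivFin ι)]
  refine Finset.sum_congr rfl fun i _ => ?_
  rw [Equiv.symm_apply_apply]

/-! ### affine systems -/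

/-- a functional on the homogenization -/
def fn {N p : ℕ} (a : Fin N → ℝ) (b : Fin p → ℝ) (e : ℝ) :
    ((Fin N → ℝ) × (Fin p → ℝ) × ℝ) →ₗ[ℝ] ℝ where
  toFun v := ∑ j, a j * v.1 j + ∑ i, b i * v.2.1 i + e * v.2.2
  map_add' := fun v w => by
    simp only [Prod.fst_add, Prod.snd_add, Pi.add_apply, mul_add, Finset.sum_add_distrib]
    ring
  map_smul' := fun c v => by
    simp only [Prod.smul_fst, Prod.smul_snd, Pi.smul_apply, smul_eq_mul, RingHom.id_apply,
      mul_add, Finset.mul_sum]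
    refine congrArg₂ (· + ·) (congrArg₂ (· + ·) ?_ ?_) (by ring)
    · exact Finset.sum_congr rfl fun j _ => by ring
    · exact Finset.sum_congr rfl fun j _ => by ring

theorem fn_apply {N p : ℕ} (a : Fin N → ℝ) (b : Fin p → ℝ) (e : ℝ) (z : Fin N → ℝ)
    (t : Fin p → ℝ) (s : ℝ) :
    fn a b e (z, t, s) = ∑ j, a j * z j + ∑ i, b i * t i + e * s := rfl

/-- The affine form of Farkas' lemma. -/
theorem affine {N p q r : ℕ} (A : Fin q → Fin N → ℝ) (B : Fin q → Fin p → ℝ) (d : Fin q → ℝ)
    (A' : Fin r → Fin N → ℝ) (B' : Fin r → Fin p → ℝ) (d' : Fin r → ℝ) (c : Fin N → ℝ) (M : ℝ)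
    (hne : ∃ (z : Fin N → ℝ) (t : Fin p → ℝ),
      (∀ l, ∑ j, A l j * z j + ∑ i, B l i * t i ≤ d l) ∧
        ∀ l, ∑ j, A' l j * z j + ∑ i, B' l i * t i = d' l)
    (h : ∀ (z : Fin N → ℝ) (t : Fin p → ℝ),
      (∀ l, ∑ j, A l j * z j + ∑ i, B l i * t i ≤ d l) →
      (∀ l, ∑ j, A' l j * z j + ∑ i, B' l i * t i = d' l) → ∑ j, c j * z j ≤ M) :
    ∃ (α : Fin q → ℝ) (μ : ℝ), (∀ l, 0 ≤ α l) ∧ 0 ≤ μ ∧ ∀ (z : Fin N → ℝ) (t : Fin p → ℝ),
      (∀ l, ∑ j, A' l j * z j + ∑ i, B' l i * t i = d' l) →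
      M - ∑ j, c j * z j =
        ∑ l, α l * (d l - ∑ j, A l j * z j - ∑ i, B l i * t i) + μ := by
  obtain ⟨z₀, t₀, h0, h0'⟩ := hne
  have key : ∀ v : (Fin N → ℝ) × (Fin p → ℝ) × ℝ,
      (∀ x : (Fin q ⊕ Fin r) ⊕ (Fin r ⊕ Unit), (Sum.elim
        (Sum.elim (fun l => fn (A l) (B l) (-d l)) (fun l => fn (A' l) (B' l) (-d' l)))
        (Sum.elim (fun l => -fn (A' l) (B' l) (-d' l)) (fun _ => fn 0 0 (-1))) :
          (Fin q ⊕ Fin r) ⊕ (Fin r ⊕ Unit) → ((Fin N → ℝ) × (Fin p → ℝ) × ℝ) →ₗ[ℝ] ℝ) x v ≤ 0) →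
      fn c 0 (-M) v ≤ 0 := by
    rintro ⟨z, t, s⟩ hv
    have e1 : ∀ l, ∑ j, A l j * z j + ∑ i, B l i * t i + -d l * s ≤ 0 :=
      fun l => hv (Sum.inl (Sum.inl l))
    have e2 : ∀ l, ∑ j, A' l j * z j + ∑ i, B' l i * t i + -d' l * s ≤ 0 :=
      fun l => hv (Sum.inl (Sum.inr l))
    have e3 : ∀ l, -(∑ j, A' l j * z j + ∑ i, B' l i * t i + -d' l * s) ≤ 0 :=
      fun l => hv (Sum.inr (Sum.inl l))
    have e4 : 0 ≤ s := by
      have h1 : fn (0 : Fin N → ℝ) (0 : Fin p → ℝ) (-1) (z, t, s) ≤ 0 :=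
        hv (Sum.inr (Sum.inr ()))
      rw [fn_apply] at h1
      simp only [Pi.zero_apply, zero_mul, Finset.sum_const_zero, zero_add] at h1
      linarith
    have e5 : ∀ l, ∑ j, A' l j * z j + ∑ i, B' l i * t i = d' l * s := fun l => by
      have h1 := e2 l
      have h2 := e3 l
      linarith
    rw [fn_apply]
    simp only [Pi.zero_apply, zero_mul, Finset.sum_const_zero, add_zero]
    -- scaling of sums
    have sc : ∀ {m : ℕ} (a x : Fin m → ℝ) (u : ℝ), ∑ j, a j * (u * x j) = u * ∑ j, a j * x j := by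
      intro m a x u
      rw [Finset.mul_sum]
      exact Finset.sum_congr rfl fun j _ => by ring
    have ad : ∀ {m : ℕ} (a x x' : Fin m → ℝ) (u : ℝ), ∑ j, a j * (x j + u * x' j) =
        ∑ j, a j * x j + u * ∑ j, a j * x' j := by
      intro m a x x' u
      rw [Finset.mul_sum, ← Finset.sum_add_distrib]
      exact Finset.sum_congr rfl fun j _ => by ring
    rcases e4.eq_or_lt with hs | hs
    · -- a direction of recession
      subst hs
      by_contra hc
      have hc' : 0 < ∑ j, c j * z j := by linarith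
      obtain ⟨u, hu⟩ : ∃ u, u = (|M - ∑ j, c j * z₀ j| + 1) / ∑ j, c j * z j := ⟨_, rfl⟩
      have hu0 : 0 ≤ u := by
        rw [hu]
        positivity
      have h1 := h (fun j => z₀ j + u * z j) (fun i => t₀ i + u * t i) (fun l => by
        rw [ad, ad]
        have h2 := h0 l
        have h3 := e1 l
        have h4 : u * (∑ j, A l j * z j + ∑ i, B l i * t i) ≤ 0 :=
          mul_nonpos_of_nonneg_of_nonpos hu0 (by linarith)
        linarith) (fun l => by
        rw [ad, ad]
        have h2 := h0' l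
        have h3 := e5 l
        have h4 : u * (∑ j, A' l j * z j + ∑ i, B' l i * t i) = 0 := by
          rw [h3]
          ring
        linarith)
      rw [ad] at h1
      have h5 : u * ∑ j, c j * z j = |M - ∑ j, c j * z₀ j| + 1 := by
        rw [hu]
        exact div_mul_cancel₀ _ hc'.ne'
      rw [h5] at h1
      have h6 := le_abs_self (M - ∑ j, c j * z₀ j)
      linarith
    · have hs' : 0 < s⁻¹ := inv_pos.2 hs
      have hss : s⁻¹ * s = 1 := inv_mul_cancel₀ hs.ne'
      have h1 := h (fun j => s⁻¹ * z j) (fun i => s⁻¹ * t i) (fun l => by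
        rw [sc, sc]
        have h2 : s⁻¹ * (∑ j, A l j * z j + ∑ i, B l i * t i) ≤ s⁻¹ * (d l * s) :=
          mul_le_mul_of_nonneg_left (by linarith [e1 l]) hs'.le
        have h3 : s⁻¹ * (d l * s) = d l := by
          rw [mul_left_comm, hss, mul_one]
        linarith) (fun l => by
        rw [sc, sc, ← mul_add, e5 l, mul_left_comm, hss, mul_one])
      rw [sc] at h1
      have h4 : s * (s⁻¹ * ∑ j, c j * z j) ≤ s * M := mul_le_mul_of_nonneg_left h1 hs.le
      rw [← mul_assoc, mul_inv_cancel₀ hs.ne', one_mul] at h4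
      linarith
  obtain ⟨α, hα, hf⟩ := farkasT _ _ key
  refine ⟨fun l => α (Sum.inl (Sum.inl l)), α (Sum.inr (Sum.inr ())), fun l => hα _, hα _,
    fun z t ht => ?_⟩
  have h1 := hf (z, t, 1)
  rw [Fintype.sum_sum_type, Fintype.sum_sum_type, Fintype.sum_sum_type] at h1
  simp only [Sum.elim_inl, Sum.elim_inr, LinearMap.neg_apply, fn_apply, Pi.zero_apply, zero_mul,
    Finset.sum_const_zero, add_zero, zero_add, mul_one, ht, add_neg_cancel, neg_zero, mul_zero,
    Finset.univ_unique, Finset.sum_singleton, PUnit.default_eq_unit] at h1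
  have h2 : ∑ l, α (Sum.inl (Sum.inl l)) * (∑ j, A l j * z j + ∑ i, B l i * t i + -d l) =
      -∑ l, α (Sum.inl (Sum.inl l)) * (d l - ∑ j, A l j * z j - ∑ i, B l i * t i) := by
    rw [← Finset.sum_neg_distrib]
    exact Finset.sum_congr rfl fun l _ => by ring
  rw [h2] at h1
  linarith

end YanP

open YanP in
/-- [Yan] -/
theorem thm_Yan : St_Yan := by
  classical
  rintro N q ψ ⟨p, r, A, B, d, A', B', d', h⟩
  by_cases hψ : ∃ y, ψ y
  · have h1 : ∀ y, ψ y → ∃ t : Fin p → ℝ,
        (∀ l, ∑ j, A l j * (if y j then (1 : ℝ) else 0) + ∑ i, B l i * t i ≤ d l) ∧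
        ∀ l, ∑ j, A' l j * (if y j then (1 : ℝ) else 0) + ∑ i, B' l i * t i = d' l := by
      intro y hy
      exact (h fun j => if y j then 1 else 0).1 (subset_convexHull ℝ _ ⟨y, hy, rfl⟩)
    choose t ht ht' using h1
    let sl : (Fin N → Bool) → Fin q → ℝ := fun y l => if hy : ψ y then
      d l - ∑ j, A l j * (if y j then (1 : ℝ) else 0) - ∑ i, B l i * t y hy i else 0
    have hsl : ∀ y (hy : ψ y) l, sl y l =
        d l - ∑ j, A l j * (if y j then (1 : ℝ) else 0) - ∑ i, B l i * t y hy i :=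
      fun y hy l => dif_pos hy
    refine ⟨fun y => Fin.cons 1 (sl y), fun y l => ?_, fun g M hg => ?_⟩
    · refine Fin.cases ?_ (fun l' => ?_) l
      · show (0 : ℝ) ≤ (Fin.cons 1 (sl y) : Fin (q + 1) → ℝ) 0
        rw [Fin.cons_zero]
        exact zero_le_one
      · show (0 : ℝ) ≤ (Fin.cons 1 (sl y) : Fin (q + 1) → ℝ) l'.succ
        rw [Fin.cons_succ]
        by_cases hy : ψ y
        · rw [hsl y hy]
          have h2 := ht y hy l'
          linarith
        · exact (dif_neg hy : sl y l' = 0).ge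
    · obtain ⟨y₀, hy₀⟩ := hψ
      have hval : ∀ y : Fin N → Bool, ∑ j, g j (y j) = ∑ j, g j false +
          ∑ j, (g j true - g j false) * (if y j then (1 : ℝ) else 0) := by
        intro y
        rw [← Finset.sum_add_distrib]
        refine Finset.sum_congr rfl fun j _ => ?_
        cases y j
        · simp
        · simp
      have hconv : ∀ z : Fin N → ℝ,
          z ∈ convexHull ℝ {u : Fin N → ℝ | ∃ y, ψ y ∧ u = fun j => if y j then 1 else 0} →
          ∑ j, (g j true - g j false) * z j ≤ M - ∑ j, g j false := by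
        intro z hz
        let Lc : (Fin N → ℝ) →ₗ[ℝ] ℝ :=
          { toFun := fun z => ∑ j, (g j true - g j false) * z j
            map_add' := fun z z' => by
              simp only [Pi.add_apply, mul_add, Finset.sum_add_distrib]
            map_smul' := fun a z => by
              simp only [Pi.smul_apply, smul_eq_mul, RingHom.id_apply, Finset.mul_sum]
              exact Finset.sum_congr rfl fun j _ => by ring }
        have hcx : Convex ℝ {z : Fin N → ℝ | Lc z ≤ M - ∑ j, g j false} :=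
          convex_halfSpace_le Lc.isLinear _
        refine convexHull_min ?_ hcx hz
        rintro u ⟨y, hy, rfl⟩
        show ∑ j, (g j true - g j false) * (if y j then (1 : ℝ) else 0) ≤ M - ∑ j, g j false
        have h2 := hg y hy
        rw [hval y] at h2
        linarith
      obtain ⟨α, μ, hα, hμ, hM⟩ := affine A B d A' B' d' (fun j => g j true - g j false)
        (M - ∑ j, g j false) ⟨_, t y₀ hy₀, ht y₀ hy₀, ht' y₀ hy₀⟩
        (fun z t' h2 h3 => hconv z ((h z).2 ⟨t', h2, h3⟩))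
      refine ⟨Fin.cons μ α, fun l => ?_, fun y hy => ?_⟩
      · refine Fin.cases ?_ (fun l' => ?_) l
        · rw [Fin.cons_zero]
          exact hμ
        · rw [Fin.cons_succ]
          exact hα l'
      · rw [Fin.sum_univ_succ]
        simp only [Fin.cons_zero, Fin.cons_succ, mul_one]
        have h2 := hM _ (t y hy) (ht' y hy)
        rw [hval y]
        have h3 : ∑ l, α l * sl y l = ∑ l, α l *
            (d l - ∑ j, A l j * (if y j then (1 : ℝ) else 0) - ∑ i, B l i * t y hy i) :=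
          Finset.sum_congr rfl fun l _ => by rw [hsl y hy]
        rw [h3]
        linarith
  · exact ⟨fun _ _ => 0, fun _ _ => le_rfl, fun g M _ => ⟨fun _ => 0, fun _ => le_rfl,
      fun y hy => absurd ⟨y, hy⟩ hψ⟩⟩

end Pool.Agent.SFP
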