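import Pool.Agent.SFP.Defs

/-!
# Monotone reductions: cover form (helper2). Definitions and statements

The proof of part 2 uses only the supports of slack matrices: instead of a small extended
formulation it suffices that the non-incidence matrix of faces and vertices has a small cover by
rectangles. This includes hafnians (perfect matchings of complete graphs) and bases of arbitrary
matroids, whose polytopes have exponential extension complexity. Paper proof: team-store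
GC_SAT_helper2.md.
-/

set_option autoImplicit false

namespace Pool.Agent.SFP

open Finset Pool.Agent.STH Pool.Agent.STD Pool.Agent.STS Pool.Agent.SFR

/-- There are `q` properties of the elements of `ψ` such that for all weights `g` the elements of
`ψ` which are not optimal are those which have one of the properties in some set `S`. -/
def Cov {N : ℕ} (q : ℕ) (ψ : (Fin N → Bool) → Prop) : Prop :=
  ∃ β : (Fin N → Bool) → Fin q → Prop, ∀ g : Fin N → Bool → ℝ, ∃ S : Fin q → Prop, ∀ y, ψ y →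
    ((∃ l, S l ∧ β y l) ↔ ∃ y', ψ y' ∧ ∑ j, g j (y j) < ∑ j, g j (y' j))

/-- [Cov] -/
def St_Cov : Prop :=
  (∀ (N q : ℕ) (ψ : (Fin N → Bool) → Prop), Yan q ψ → Cov q ψ) ∧
  (∀ (N q : ℕ) (ψ : (Fin N → Bool) → Prop) (T : Fin N → Bool → Prop), Cov q ψ →
    Cov q fun y => ψ y ∧ ∀ j, T j (y j)) ∧
  ∀ (N q q' : ℕ) (ψ : (Fin N → Bool) → Prop), q ≤ q' → Cov q ψ → Cov q' ψ

/-- [KWC] -/
def St_KWC : Prop := ∀ (m : ℕ) (ι : Type) [Fintype ι] (B : Finset (Fin m → Bool))
  (A A' : ι → (Fin m → Bool) → Prop),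
  (∀ a, ∀ b ∈ B, (∃ l, A l a ∧ A' l b) ↔ ∑ i, bit (a i) * bit (b i) ≠ 1) →
  B.card ^ 2 ≤ 3 ^ m * Fintype.card ι

/-- the class -/
def KC (u q : ℕ) : Cls := fun _ ψ => SchUnion u ψ ∨ Cov q ψ

/-- [DecC] (helper64). -/
def St_DecC : Prop := ∀ (m n u Q s : ℕ) (e : Fin m × Fin m ≃ Fin n), (m + 1) * 2 ^ u ≤ Q →
  ∀ (D : GK (KC u Q) n s) (r : Fin s), (∀ x, D.val r x → Cor e x) →
  Nat.card {x // D.val r x} ^ 2 ≤ 3 ^ m * (s * (s + Q))

/-- [FinC] the final statement in cover form. -/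
def St_FinC : Prop := ∀ m : ℕ, ∃ φ : CNF (m * m), φ.length ≤ 3 * (m * m) ∧
  (∀ cl ∈ φ, cl.length ≤ 3) ∧ Nat.card {x : Fin (m * m) → Bool // Sat φ x} = 2 ^ m ∧
  ∀ (u q s : ℕ) (R : RedK (fun _ ψ => SchUnion u ψ ∨ HasLP q ψ ∨ Cov q ψ) (m * m) s)
    (r : Fin s)
    (Y : (Fin (m * m) → Bool) → Prop) (α β : ℝ), 0 < α →
    (∀ w : Fin (m * m) → Bool → ℝ, (∀ i b, 0 < w i b) →
      α * wcount Y w ≤ R.val r w ∧ R.val r w ≤ β * wcount (Sat φ) w) →
    Nat.card {x : Fin (m * m) → Bool // Y x} ^ 2 ≤ 3 ^ m * (s * (s + q + (m + 1) * 2 ^ u))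

end Pool.Agent.SFP
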