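import Pool.Agent.SFR.Defs

/-!
# Monotone reductions with permanent gates: definitions and statements of the modules

Monotone circuits on positive real weights whose gates are weighted counts (up to constant factors)
of relations in a class `K`, at weights computed by earlier nodes. Here `K` consists of the unions
of few sets closed under operations of Schaefer, and of the relations whose convex hull has a small
extended formulation (permanents, independent sets of bipartite graphs, spanning trees, ...).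
The hard formula says that a matrix of bits has the form `b i` on the diagonal, `b i ∧ b j` above
and `b i ∨ b j` below the diagonal.
-/

set_option autoImplicit false

namespace Pool.Agent.SFP

open Finset Pool.Agent.STH Pool.Agent.STD Pool.Agent.STS Pool.Agent.SFR

/-- a class of relations -/
abbrev Cls := ∀ N : ℕ, ((Fin N → Bool) → Prop) → Prop

/-- the class is closed under restriction to subcubes -/
def SubC (K : Cls) : Prop := ∀ (N : ℕ) (ψ : (Fin N → Bool) → Prop) (T : Fin N → Bool → Prop),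
  K N ψ → K N fun y => ψ y ∧ ∀ j, T j (y j)

/-- A monotone reduction with `s` nodes to weighted counting for relations in `K`. -/
structure RedK (K : Cls) (n s : ℕ) where
  /-- the function computed by a node -/
  val : Fin s → (Fin n → Bool → ℝ) → ℝ
  /-- the rules -/
  ok : ∀ v : Fin s,
    (∃ (i : Fin n) (b : Bool), ∀ w, val v w = w i b) ∨
    (∃ (N : ℕ) (ψ : (Fin N → Bool) → Prop) (c : Fin N → Bool → Fin s), K N ψ ∧
      (∀ j b, c j b < v) ∧ ∃ α β : ℝ, 0 < α ∧ ∀ w : Fin n → Bool → ℝ, (∀ i b, 0 < w i b) →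
        α * wcount ψ (fun j b => val (c j b) w) ≤ val v w ∧
        val v w ≤ β * wcount ψ (fun j b => val (c j b) w))

/-- A DNNF with constraint gates in `K` (as `SFR.GDnnf`). -/
structure GK (K : Cls) (n s : ℕ) where
  /-- the variables of a node -/
  vars : Fin s → Finset (Fin n)
  /-- the points accepted by a node -/
  val : Fin s → (Fin n → Bool) → Prop
  /-- the rules -/
  ok : ∀ v : Fin s,
    (∃ (i : Fin n) (b : Bool), vars v = {i} ∧ ∀ x, val v x ↔ x i = b) ∨
    (∃ (N : ℕ) (ψ : (Fin N → Bool) → Prop) (c : Fin N → Bool → Fin s), K N ψ ∧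
      (∀ j b, c j b < v) ∧
      (∀ y, ψ y → (∀ j j', j ≠ j' → Disjoint (vars (c j (y j))) (vars (c j' (y j')))) ∧
        ∀ i, i ∈ vars v ↔ ∃ j, i ∈ vars (c j (y j))) ∧
      ∀ x, val v x ↔ ∃ y, ψ y ∧ ∀ j, val (c j (y j)) x)

/-- [SupK] as `SFR.St_Sup`, for any class closed under restriction to subcubes. PROOF as
`SFR/Sup.lean`. -/
def St_SupK : Prop := ∀ (K : Cls), SubC K → ∀ (n s : ℕ) (R : RedK K n s) (r : Fin s)
  (Y F : Pt n → Prop) (α β : ℝ), 0 < α → (∃ x, Y x) →
  (∀ w : Fin n → Bool → ℝ, (∀ i b, 0 < w i b) →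
    α * wcount Y w ≤ R.val r w ∧ R.val r w ≤ β * wcount F w) →
  ∃ D : GK K n s, (∀ x, D.val r x → F x) ∧ ∀ x, Y x → D.val r x

/-- The convex hull of the 0/1 points of `ψ` has an extended formulation with `q` inequalities (and
any number of equations and of additional variables): it is the projection to the variables `z` of
the set of solutions `(z, t)` of a system of linear equations and `q` linear inequalities. -/
def HasLP {N : ℕ} (q : ℕ) (ψ : (Fin N → Bool) → Prop) : Prop :=
  ∃ (p r : ℕ) (A : Fin q → Fin N → ℝ) (B : Fin q → Fin p → ℝ) (d : Fin q → ℝ)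
    (A' : Fin r → Fin N → ℝ) (B' : Fin r → Fin p → ℝ) (d' : Fin r → ℝ), ∀ z : Fin N → ℝ,
    z ∈ convexHull ℝ {u : Fin N → ℝ | ∃ y, ψ y ∧ u = fun j => if y j then 1 else 0} ↔
      ∃ t : Fin p → ℝ, (∀ l, ∑ j, A l j * z j + ∑ i, B l i * t i ≤ d l) ∧
        ∀ l, ∑ j, A' l j * z j + ∑ i, B' l i * t i = d' l

/-- Yannakakis' factorization: `q` nonnegative functions on `ψ` of which all functions
`M - ∑ j, g j (y j)` which are nonnegative on `ψ` are nonnegative combinations. -/
def Yan {N : ℕ} (q : ℕ) (ψ : (Fin N → Bool) → Prop) : Prop :=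
  ∃ β : (Fin N → Bool) → Fin q → ℝ, (∀ y l, 0 ≤ β y l) ∧
    ∀ (g : Fin N → Bool → ℝ) (M : ℝ), (∀ y, ψ y → ∑ j, g j (y j) ≤ M) →
      ∃ α : Fin q → ℝ, (∀ l, 0 ≤ α l) ∧ ∀ y, ψ y → M - ∑ j, g j (y j) = ∑ l, α l * β y l

/-- [Yan] PROOF. If `ψ` is empty there is nothing to prove. For `y` in `ψ` choose `t y` such that
the 0/1 vector `z y` of `y` and `t y` solve the system; `β y l` is the slack
`d l - ∑ j, A l j * z y j - ∑ i, B l i * t y i` for `l < q`, and `1` for `l = q`. Given `g`, `M`, let
`c j = g j true - g j false`, `M' = M - ∑ j, g j false`; then `∑ j, c j * z j ≤ M'` on the convex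
hull, so for all solutions `(z, t)` of the system (which has a solution). By the affine form of
Farkas' lemma `c = ∑ l, α l • A l + ∑ l, γ l • A' l`, `0 = ∑ l, α l • B l + ∑ l, γ l • B' l`,
`∑ l, α l * d l + ∑ l, γ l * d' l ≤ M'` with `α l ≥ 0`; the coefficient of the last function is the
difference of the two sides. -/
def St_Yan : Prop := ∀ (N q : ℕ) (ψ : (Fin N → Bool) → Prop), HasLP q ψ → Yan (q + 1) ψ

/-- [Sbc] closure under restriction to subcubes (for `Yan`: the restricted `ψ` is a face; given `g`,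
`M` for the restricted `ψ` subtract a large constant from `g j b` if `T j b` fails), and
monotonicity in `q`. -/
def St_Sbc : Prop :=
  (∀ (N u : ℕ) (ψ : (Fin N → Bool) → Prop) (T : Fin N → Bool → Prop), SchUnion u ψ →
    SchUnion u fun y => ψ y ∧ ∀ j, T j (y j)) ∧
  (∀ (N q : ℕ) (ψ : (Fin N → Bool) → Prop) (T : Fin N → Bool → Prop), Yan q ψ →
    Yan q fun y => ψ y ∧ ∀ j, T j (y j)) ∧
  ∀ (N q q' : ℕ) (ψ : (Fin N → Bool) → Prop), q ≤ q' → Yan q ψ → Yan q' ψ

/-- The hard formula: a matrix with `b i ∧ b j` above and `b i ∨ b j` below the diagonal `b`. The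
variables are numbered by `e`. -/
def Cor {m n : ℕ} (e : Fin m × Fin m ≃ Fin n) (x : Pt n) : Prop := ∀ i j,
  (i < j → x (e (i, j)) = (x (e (i, i)) && x (e (j, j)))) ∧
  (j < i → x (e (i, j)) = (x (e (i, i)) || x (e (j, j))))

/-- [Prm] boxes in `Cor` are trivial. PROOF. If `z ≠ z'` on `U`, then `mix U z x` and
`mix U z' x` differ, so they differ in some diagonal entry `(i, i)`, which must be in `U`; in the
same way some diagonal entry `(j, j)`, not in `U`, differs for `x`, `x'`. All four combinations of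
values of these two entries occur, and the entry `(i, j)` or `(j, i)` above the diagonal depends on
both, although it is in `U` or not in `U`. -/
def St_Prm : Prop := ∀ (m n : ℕ) (e : Fin m × Fin m ≃ Fin n) (U : Finset (Fin n))
  (z z' x x' : Pt n), Cor e (mix U z x) → Cor e (mix U z' x) → Cor e (mix U z x') →
  Cor e (mix U z' x') → (∀ i ∈ U, z i = z' i) ∨ ∀ i, i ∉ U → x i = x' i

/-- [Thn] sets of models which are closed under an operation of Schaefer have at most `m + 1`
elements. PROOF. They are determined by their diagonals; by `Finset.card_le_card_shatterer` and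
`Finset.card_shatterer_le_sum_vcDim` if there are more than `m + 1` then the diagonals shatter some
pair `{i, j}`, `i < j`. Then AND and OR are homomorphisms with respect to `(t i, t j; t (i, j))` and
`(t i, t j; t (j, i))`; for AND this implies that all three operations are AND, for OR that all
three are OR, a contradiction (`decide`). -/
def St_Thn : Prop := ∀ (m n : ℕ) (e : Fin m × Fin m ≃ Fin n), ThinCl (Cor e) (m + 1)

/-- `0` or `1` -/
def bit (b : Bool) : ℝ := if b then 1 else 0

/-- the coefficients of the inequality of `a` -/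
def cf {m n : ℕ} (e : Fin m × Fin m ≃ Fin n) (a : Fin m → Bool) (k : Fin n) : ℝ :=
  if (e.symm k).1 = (e.symm k).2 then bit (a (e.symm k).1)
  else if (e.symm k).1 < (e.symm k).2 then -2 * bit (a (e.symm k).1) * bit (a (e.symm k).2)
  else 0

/-- [Lin] -/
def St_Lin : Prop := ∀ (m n : ℕ) (e : Fin m × Fin m ≃ Fin n) (a : Fin m → Bool) (x : Pt n),
  Cor e x → 1 - ∑ k, cf e a k * bit (x k) = (1 - ∑ i, bit (a i) * bit (x (e (i, i)))) ^ 2

/-- [KW] nonnegative rank of the matrix `(1 - a · b) ^ 2`, columns in `B` (Kaibel-Weltge). PROOF.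
(1) If `P`, `Q` are sets of subsets of `Fin m` such that `P ∩ Q` never has exactly one element, then
at most `2 ^ m` pairs in `P × Q` are disjoint. Induction on `m`: let `P₀`, `P₁` be the sets of the
`p` not containing the last element with `p`, resp. `p` plus the last element in `P`, same for `Q`;
the disjoint pairs are in `P₀ × Q₀`, `P₁ × Q₀`, `P₀ × Q₁`. Their number is at most the number for
`(P₀ ∪ P₁) × Q₀` plus the number for `P₀ × (Q₀ ∪ Q₁)`, as a disjoint pair in `P₀ × Q₀` is not both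
in `P₁ × Q₀` and in `P₀ × Q₁` (the last element would be the only common element). (2) For every
`l` the disjoint pairs `(a, b)`, `b` in `B`, with `0 < α l a * β l b` are at most `2 ^ m`, and
every disjoint pair is one for some `l`; so `∑ b in B, 2 ^ (m - |b|) ≤ 2 ^ m * R`. (3)
Cauchy-Schwarz: `#B ^ 2 ≤ (∑ b in B, 2 ^ (- |b|)) * (∑ b, 2 ^ |b|)`, and the last sum is `3 ^ m`. -/
def St_KW : Prop := ∀ (m : ℕ) (ι : Type) [Fintype ι] (B : Finset (Fin m → Bool))
  (α β : ι → (Fin m → Bool) → ℝ), (∀ l a, 0 ≤ α l a) → (∀ l b, 0 ≤ β l b) →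
  (∀ a, ∀ b ∈ B, (1 - ∑ i, bit (a i) * bit (b i)) ^ 2 = ∑ l, α l a * β l b) →
  B.card ^ 2 ≤ 3 ^ m * Fintype.card ι

/-- the class -/
def KK (u q : ℕ) : Cls := fun _ ψ => SchUnion u ψ ∨ Yan q ψ

/-- [Dec] (helper64). -/
def St_Dec : Prop := ∀ (m n u Q s : ℕ) (e : Fin m × Fin m ≃ Fin n), (m + 1) * 2 ^ u ≤ Q →
  ∀ (D : GK (KK u Q) n s) (r : Fin s), (∀ x, D.val r x → Cor e x) →
  Nat.card {x // D.val r x} ^ 2 ≤ 3 ^ m * (s * (s + Q))

/-- [Enc] the hard formula as a 3-CNF. -/
def St_Enc : Prop := ∀ (m n : ℕ) (e : Fin m × Fin m ≃ Fin n),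
  (∃ φ : CNF n, φ.length ≤ 3 * n ∧ (∀ cl ∈ φ, cl.length ≤ 3) ∧ ∀ x, Sat φ x ↔ Cor e x) ∧
  Nat.card {x // Cor e x} = 2 ^ m

/-- `y` is a permutation matrix of size `N` -/
def IsPerm {N : ℕ} (y : Fin (N * N) → Bool) : Prop :=
  ∃ σ : Equiv.Perm (Fin N), ∀ i j, y (finProdFinEquiv (i, j)) = decide (σ i = j)

/-- [Bir] Birkhoff's theorem as an extended formulation (Mathlib:
`doublyStochastic_eq_convexHull_permMatrix`). -/
def St_Bir : Prop := ∀ N : ℕ, HasLP (N * N) (IsPerm (N := N))

/-- [FinP] the final statement. -/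
def St_FinP : Prop := ∀ m : ℕ, ∃ φ : CNF (m * m), φ.length ≤ 3 * (m * m) ∧
  (∀ cl ∈ φ, cl.length ≤ 3) ∧ Nat.card {x : Fin (m * m) → Bool // Sat φ x} = 2 ^ m ∧
  ∀ (u q s : ℕ) (R : RedK (fun _ ψ => SchUnion u ψ ∨ HasLP q ψ) (m * m) s) (r : Fin s)
    (Y : (Fin (m * m) → Bool) → Prop) (α β : ℝ), 0 < α →
    (∀ w : Fin (m * m) → Bool → ℝ, (∀ i b, 0 < w i b) →
      α * wcount Y w ≤ R.val r w ∧ R.val r w ≤ β * wcount (Sat φ) w) →
    Nat.card {x : Fin (m * m) → Bool // Y x} ^ 2 ≤ 3 ^ m * (s * (s + q + (m + 1) * 2 ^ u))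

end Pool.Agent.SFP
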