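import Pool.Agent.SFR.Defs

/-!
# The converse: with one division one query about a 2-CNF is enough, up to a factor of `2`
-/

set_option autoImplicit false

namespace Pool.Agent.SFP

open Finset Pool.Agent.STH Pool.Agent.STD Pool.Agent.STS Pool.Agent.SFR

/-- a 2-CNF: the new variable `u (j, i)` implies that the literal `i` is the first true literal of
the clause `j` of `φ` -/
def twd {n k M : ℕ} (φ : Fm n k M) : Fm (n + M * k) 2 (M * k * k) := fun c i =>
  if i = 0 then (Fin.natAdd n (finProdFinEquiv.symm c).1, false)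
  else if (finProdFinEquiv.symm c).2 < (finProdFinEquiv.symm (finProdFinEquiv.symm c).1).2 then
    (Fin.castAdd (M * k) (φ (finProdFinEquiv.symm (finProdFinEquiv.symm c).1).1
      (finProdFinEquiv.symm c).2).1,
      !(φ (finProdFinEquiv.symm (finProdFinEquiv.symm c).1).1 (finProdFinEquiv.symm c).2).2)
  else
    (Fin.castAdd (M * k) (φ (finProdFinEquiv.symm (finProdFinEquiv.symm c).1).1
      (finProdFinEquiv.symm (finProdFinEquiv.symm c).1).2).1,
      (φ (finProdFinEquiv.symm (finProdFinEquiv.symm c).1).1
      (finProdFinEquiv.symm (finProdFinEquiv.symm c).1).2).2)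

/-- the literal `i` is the first true literal of the clause `j` -/
def Fst {n k M : ℕ} (φ : Fm n k M) (x : Fin n → Bool) (j : Fin M) (i : Fin k) : Prop :=
  x (φ j i).1 = (φ j i).2 ∧ ∀ l, l < i → x (φ j l).1 ≠ (φ j l).2

theorem mod_twd {n k M : ℕ} (φ : Fm n k M) (x : Fin n → Bool) (u : Fin (M * k) → Bool) :
    Mod (twd φ) (Fin.append x u) ↔
      ∀ j i, u (finProdFinEquiv (j, i)) = true → Fst φ x j i := by
  constructor
  · intro h j i hu
    constructor
    · obtain ⟨t, ht⟩ := h (finProdFinEquiv (finProdFinEquiv (j, i), i))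
      unfold twd at ht
      simp only [Equiv.symm_apply_apply] at ht
      by_cases h0 : t = 0
      · rw [if_pos h0] at ht
        simp only [Fin.append_right] at ht
        rw [hu] at ht
        exact absurd ht (by simp)
      · rw [if_neg h0, if_neg (lt_irrefl i)] at ht
        simp only [Fin.append_left] at ht
        exact ht
    · intro l hl
      obtain ⟨t, ht⟩ := h (finProdFinEquiv (finProdFinEquiv (j, i), l))
      unfold twd at ht
      simp only [Equiv.symm_apply_apply] at ht
      by_cases h0 : t = 0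
      · rw [if_pos h0] at ht
        simp only [Fin.append_right] at ht
        rw [hu] at ht
        exact absurd ht (by simp)
      · rw [if_neg h0, if_pos hl] at ht
        simp only [Fin.append_left] at ht
        rw [ht]
        simp
  · intro h c
    obtain ⟨⟨p, l⟩, rfl⟩ := finProdFinEquiv.surjective c
    obtain ⟨⟨j, i⟩, rfl⟩ := finProdFinEquiv.surjective p
    by_cases hu : u (finProdFinEquiv (j, i)) = true
    · obtain ⟨h1, h2⟩ := h j i hu
      refine ⟨1, ?_⟩
      unfold twd
      simp only [Equiv.symm_apply_apply]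
      rw [if_neg (by decide)]
      by_cases hl : l < i
      · rw [if_pos hl]
        simp only [Fin.append_left]
        have := h2 l hl
        revert this
        cases x (φ j l).1 <;> cases (φ j l).2 <;> simp
      · rw [if_neg hl]
        simp only [Fin.append_left]
        exact h1
    · refine ⟨0, ?_⟩
      unfold twd
      simp only [Equiv.symm_apply_apply, if_true, Fin.append_right]
      simpa using hu

/-- a satisfied clause has exactly one first true literal -/
theorem fst_sat {n k M : ℕ} (φ : Fm n k M) (x : Fin n → Bool) (j : Fin M)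
    (h : ∃ i, x (φ j i).1 = (φ j i).2) : ∃ i, Fst φ x j i ∧ ∀ l, Fst φ x j l → l = i := by
  classical
  have hne : (univ.filter fun i => x (φ j i).1 = (φ j i).2).Nonempty := by
    obtain ⟨i, hi⟩ := h
    exact ⟨i, mem_filter.2 ⟨mem_univ _, hi⟩⟩
  set i := (univ.filter fun i => x (φ j i).1 = (φ j i).2).min' hne with hi
  have him : i ∈ univ.filter fun i => x (φ j i).1 = (φ j i).2 := min'_mem _ hne
  have hF : Fst φ x j i := by
    refine ⟨(mem_filter.1 him).2, fun l hl hx => ?_⟩
    exact absurd (min'_le _ l (mem_filter.2 ⟨mem_univ _, hx⟩)) (not_le.2 hl)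
  refine ⟨i, hF, fun l hl => ?_⟩
  rcases lt_trichotomy l i with h' | h' | h'
  · exact absurd hl.1 (hF.2 l h')
  · exact h'
  · exact absurd hF.1 (hl.2 i h')

open Classical in
/-- the factor of a satisfied clause -/
theorem prod_sat {n k M : ℕ} (φ : Fm n k M) (x : Fin n → Bool) (j : Fin M)
    (h : ∃ i, x (φ j i).1 = (φ j i).2) (P Q : ℝ) :
    ∏ i, ((if Fst φ x j i then P else 0) + Q) = (P + Q) * Q ^ (k - 1) := by
  obtain ⟨i, hi, hu⟩ := fst_sat φ x j h
  rw [← mul_prod_erase univ _ (mem_univ i), if_pos hi]
  congr 1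
  rw [prod_congr rfl (g := fun _ => Q)]
  · rw [prod_const, card_erase_of_mem (mem_univ i), card_univ, Fintype.card_fin]
  · intro l hl
    rw [if_neg, zero_add]
    intro hl'
    exact (mem_erase.1 hl).1 (hu l hl')

open Classical in
/-- the factor of a clause which is not satisfied -/
theorem prod_uns {n k M : ℕ} (φ : Fm n k M) (x : Fin n → Bool) (j : Fin M)
    (h : ¬ ∃ i, x (φ j i).1 = (φ j i).2) (P Q : ℝ) :
    ∏ i, ((if Fst φ x j i then P else 0) + Q) = Q ^ k := by
  rw [prod_congr rfl (g := fun _ => Q)]
  · rw [prod_const, card_univ, Fintype.card_fin]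
  · intro l _
    rw [if_neg, zero_add]
    intro hl
    exact h ⟨l, hl.1⟩

open Classical in
/-- the weighted number of models of the 2-CNF -/
theorem wcount_twd {n k M : ℕ} (φ : Fm n k M) (w : Fin n → Bool → ℝ) (P Q : ℝ) :
    wcount (Mod (twd φ)) (Fin.append w fun _ b => if b then P else Q) =
      ∑ x : Fin n → Bool, (∏ i, w i (x i)) * ∏ j, ∏ i, ((if Fst φ x j i then P else 0) + Q) := by
  unfold wcount
  rw [← (Fin.appendEquiv n (M * k)).sum_comp, Fintype.sum_prod_type]
  refine sum_congr rfl fun x _ => ?_
  have key : ∀ u : Fin (M * k) → Bool,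
      (if STH.Mod (twd φ) (Fin.append x u) then
        ∏ p, (Fin.append w fun _ b => if b then P else Q) p (Fin.append x u p) else 0) =
      (∏ i, w i (x i)) * ∏ c, (if u c = true then
        (if Fst φ x (finProdFinEquiv.symm c).1 (finProdFinEquiv.symm c).2 then P else 0)
          else Q) := by
    intro u
    rw [Fin.prod_univ_add]
    simp only [Fin.append_left, Fin.append_right]
    split_ifs with h
    · rw [mod_twd] at h
      congr 1
      refine prod_congr rfl fun c _ => ?_
      obtain ⟨⟨j, i⟩, rfl⟩ := finProdFinEquiv.surjective c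
      rw [Equiv.symm_apply_apply]
      by_cases hj : u (finProdFinEquiv (j, i)) = true
      · rw [if_pos hj, if_pos hj, if_pos (h j i hj)]
      · rw [if_neg hj, if_neg hj]
    · rw [mod_twd] at h
      push Not at h
      obtain ⟨j, i, hu, hn⟩ := h
      rw [prod_eq_zero (mem_univ (finProdFinEquiv (j, i))), mul_zero]
      rw [if_pos hu, if_neg]
      rw [Equiv.symm_apply_apply]
      exact hn
  have e1 : ∀ u : Fin (M * k) → Bool,
      (Fin.appendEquiv n (M * k)) (x, u) = Fin.append x u := fun _ => rfl
  simp only [e1, key]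
  rw [← mul_sum]
  congr 1
  have e2 : ∑ u : Fin (M * k) → Bool, ∏ c, (if u c = true then
        (if Fst φ x (finProdFinEquiv.symm c).1 (finProdFinEquiv.symm c).2 then P else 0)
          else Q) =
      ∏ c, ∑ b : Bool, (if b = true then
        (if Fst φ x (finProdFinEquiv.symm c).1 (finProdFinEquiv.symm c).2 then P else 0)
          else Q) := by
    rw [prod_univ_sum]
    refine sum_congr ?_ fun _ _ => rfl
    ext u
    simp
  rw [e2, ← finProdFinEquiv.prod_comp, Fintype.prod_prod_type]
  refine prod_congr rfl fun j _ => prod_congr rfl fun i _ => ?_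
  rw [Fintype.sum_bool, Equiv.symm_apply_apply]
  rfl

/-- [Dvi] with one division one query about a 2-CNF is enough -/
theorem thm_Dvi {n k M : ℕ} (φ : Fm n k M) (w : Fin n → Bool → ℝ) (hw : ∀ i b, 0 < w i b)
    (hφ : ∃ x, Mod φ x) (P Q D : ℝ) (hP : P = (∏ i, (w i false + w i true)) ^ 2)
    (hQ : Q = ∏ i, (w i false * w i true)) (hD : D = ((P + Q) * Q ^ (k - 1)) ^ M) :
    wcount (Mod φ) w ≤
      wcount (Mod (twd φ)) (Fin.append w fun _ b => if b then P else Q) / D ∧
    wcount (Mod (twd φ)) (Fin.append w fun _ b => if b then P else Q) / D ≤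
      2 * wcount (Mod φ) w := by
  classical
  set S : ℝ := ∏ i, (w i false + w i true) with hS
  have hSpos : 0 < S := prod_pos fun i _ => add_pos (hw i false) (hw i true)
  have hPpos : 0 < P := by rw [hP]; positivity
  have hQpos : 0 < Q := by rw [hQ]; exact prod_pos fun i _ => mul_pos (hw i _) (hw i _)
  have hDpos : 0 < D := by rw [hD]; positivity
  have hwpos : ∀ x : Fin n → Bool, 0 < ∏ i, w i (x i) := fun x => prod_pos fun i _ => hw i _
  have hsum : ∑ x : Fin n → Bool, ∏ i, w i (x i) = S := by
    rw [hS]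
    have : ∀ i, w i false + w i true = ∑ b : Bool, w i b := by
      intro i
      rw [Fintype.sum_bool, add_comm]
    rw [prod_congr rfl fun i _ => this i, prod_univ_sum]
    refine sum_congr ?_ fun _ _ => rfl
    ext u
    simp
  -- the small weight of every point
  have hmin : ∀ x : Fin n → Bool, Q ≤ S * ∏ i, w i (x i) := by
    intro x
    rw [hQ, hS, ← prod_mul_distrib]
    refine prod_le_prod (fun i _ => (mul_pos (hw i _) (hw i _)).le) fun i _ => ?_
    have h0 := hw i false
    have h1 := hw i true
    cases x i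
    · nlinarith [mul_pos h0 h0]
    · nlinarith [mul_pos h1 h1]
  have hterm : ∀ x : Fin n → Bool, Mod φ x →
      ∏ j, ∏ i, ((if Fst φ x j i then P else 0) + Q) = D := by
    intro x hx
    rw [prod_congr rfl fun j _ => prod_sat φ x j (hx j) P Q, prod_const, card_univ,
      Fintype.card_fin, hD]
  have hle : ∀ (x : Fin n → Bool) (j : Fin M), 0 < k →
      ∏ i, ((if Fst φ x j i then P else 0) + Q) ≤ (P + Q) * Q ^ (k - 1) := by
    intro x j hk
    by_cases h : ∃ i, x (φ j i).1 = (φ j i).2
    · rw [prod_sat φ x j h]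
    · rw [prod_uns φ x j h]
      have : Q ^ k = Q * Q ^ (k - 1) := by
        rw [← pow_succ', Nat.sub_add_cancel hk]
      rw [this]
      have hq : 0 ≤ Q ^ (k - 1) := by positivity
      nlinarith
  have hpos : ∀ (x : Fin n → Bool) (j : Fin M),
      0 ≤ ∏ i, ((if Fst φ x j i then P else 0) + Q) := by
    intro x j
    refine prod_nonneg fun i _ => ?_
    split_ifs <;> positivity
  have hbad : ∀ x : Fin n → Bool, ¬ Mod φ x →
      P * ∏ j, ∏ i, ((if Fst φ x j i then P else 0) + Q) ≤ D * Q := by
    intro x hx
    have hx' : ∃ j, ¬ ∃ i, x (φ j i).1 = (φ j i).2 := by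
      by_contra h
      push Not at h
      exact hx h
    obtain ⟨j, hj⟩ := hx'
    have hk : 0 < k := by
      obtain ⟨y, hy⟩ := hφ
      obtain ⟨i, _⟩ := hy j
      exact lt_of_le_of_lt (Nat.zero_le _) i.2
    have hM : 0 < M := lt_of_le_of_lt (Nat.zero_le _) j.2
    rw [← mul_prod_erase univ _ (mem_univ j), prod_uns φ x j hj]
    have h1 : ∏ j' ∈ univ.erase j, ∏ i, ((if Fst φ x j' i then P else 0) + Q) ≤
        ((P + Q) * Q ^ (k - 1)) ^ (M - 1) := by
      refine le_trans (prod_le_prod (fun j' _ => hpos x j') fun j' _ => hle x j' hk) ?_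
      rw [prod_const, card_erase_of_mem (mem_univ j), card_univ, Fintype.card_fin]
    have hQk : Q ^ k = Q * Q ^ (k - 1) := by
      rw [← pow_succ', Nat.sub_add_cancel hk]
    have hDM : D = ((P + Q) * Q ^ (k - 1)) ^ (M - 1) * ((P + Q) * Q ^ (k - 1)) := by
      rw [hD, ← pow_succ, Nat.sub_add_cancel hM]
    have hE : 0 ≤ ((P + Q) * Q ^ (k - 1)) ^ (M - 1) := by positivity
    have hq : 0 < Q ^ (k - 1) := by positivity
    calc P * (Q ^ k * ∏ j' ∈ univ.erase j, ∏ i, ((if Fst φ x j' i then P else 0) + Q))
        ≤ P * (Q ^ k * ((P + Q) * Q ^ (k - 1)) ^ (M - 1)) := by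
          refine mul_le_mul_of_nonneg_left ?_ hPpos.le
          exact mul_le_mul_of_nonneg_left h1 (by positivity)
      _ = ((P + Q) * Q ^ (k - 1)) ^ (M - 1) * (P * Q ^ (k - 1)) * Q := by
          rw [hQk]; ring
      _ ≤ ((P + Q) * Q ^ (k - 1)) ^ (M - 1) * ((P + Q) * Q ^ (k - 1)) * Q := by
          refine mul_le_mul_of_nonneg_right ?_ hQpos.le
          refine mul_le_mul_of_nonneg_left ?_ hE
          exact mul_le_mul_of_nonneg_right (by linarith) hq.le
      _ = D * Q := by rw [hDM]
  have hw2 := wcount_twd φ w P Q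
  have hlow : D * wcount (Mod φ) w ≤
      wcount (Mod (twd φ)) (Fin.append w fun _ b => if b then P else Q) := by
    rw [hw2]
    unfold wcount
    rw [mul_sum]
    refine sum_le_sum fun x _ => ?_
    split_ifs with hx
    · rw [hterm x hx, mul_comm]
    · rw [mul_zero]
      exact mul_nonneg (hwpos x).le (prod_nonneg fun j _ => hpos x j)
  have hupp : wcount (Mod (twd φ)) (Fin.append w fun _ b => if b then P else Q) ≤
      D * (2 * wcount (Mod φ) w) := by
    have h1 : wcount (Mod (twd φ)) (Fin.append w fun _ b => if b then P else Q) ≤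
        ∑ x : Fin n → Bool, (D * (if Mod φ x then ∏ i, w i (x i) else 0) +
          D * Q / P * ∏ i, w i (x i)) := by
      rw [hw2]
      refine sum_le_sum fun x _ => ?_
      split_ifs with hx
      · rw [hterm x hx, mul_comm]
        have : 0 ≤ D * Q / P * ∏ i, w i (x i) :=
          mul_nonneg (by positivity) (hwpos x).le
        linarith
      · rw [mul_zero, zero_add, mul_comm]
        refine mul_le_mul_of_nonneg_right ?_ (hwpos x).le
        rw [le_div_iff₀ hPpos, mul_comm]
        exact hbad x hx
    rw [sum_add_distrib, ← mul_sum, ← mul_sum, hsum] at h1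
    have h2 : ∑ x : Fin n → Bool, (if Mod φ x then ∏ i, w i (x i) else 0) =
        wcount (Mod φ) w := rfl
    rw [h2] at h1
    obtain ⟨y, hy⟩ := hφ
    have h3 : ∏ i, w i (y i) ≤ wcount (Mod φ) w := by
      unfold wcount
      have := single_le_sum (s := (univ : Finset (Fin n → Bool)))
        (f := fun x => if Mod φ x then ∏ i, w i (x i) else 0) (fun x _ => by
          split_ifs
          · exact (hwpos x).le
          · exact le_rfl) (mem_univ y)
      simpa only [if_pos hy] using this
    have h4 : D * Q / P * S ≤ D * wcount (Mod φ) w := by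
      rw [div_mul_eq_mul_div, div_le_iff₀ hPpos, hP]
      have h5 : Q ≤ S * wcount (Mod φ) w :=
        le_trans (hmin y) (mul_le_mul_of_nonneg_left h3 hSpos.le)
      have h6 : D * S * Q ≤ D * S * (S * wcount (Mod φ) w) :=
        mul_le_mul_of_nonneg_left h5 (by positivity)
      nlinarith
    linarith
  constructor
  · rw [le_div_iff₀ hDpos, mul_comm]
    exact hlow
  · rw [div_le_iff₀ hDpos, mul_comm (2 * _)]
    exact hupp

end Pool.Agent.SFP
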