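import Pool.Agent.SFP.DefC

/-!
# Monotone reductions: the final statement in cover form
-/

set_option autoImplicit false

namespace Pool.Agent.SFP

open Finset Pool.Agent.STH Pool.Agent.STD Pool.Agent.STS Pool.Agent.SFR

theorem thm_FinC (h1 : St_SupK) (h2 : St_Yan) (h3 : St_Sbc) (hC : St_Cov) (h4 : St_Enc)
    (h5 : St_DecC) : St_FinC := by
  intro m
  obtain ⟨⟨φ, hφ1, hφ2, hφ3⟩, hcard⟩ := h4 m (m * m) finProdFinEquiv
  refine ⟨φ, hφ1, hφ2, ?_, ?_⟩
  · rw [← hcard]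
    exact Nat.card_congr (Equiv.subtypeEquivRight hφ3)
  · intro u q s R r Y α β hα hR
    rcases isEmpty_or_nonempty {x : Fin (m * m) → Bool // Y x} with hY | hY
    · rw [Nat.card_of_isEmpty]
      exact Nat.zero_le _
    obtain ⟨⟨x₁, hx₁⟩⟩ := hY
    have hpos : 0 < (m + 1) * 2 ^ u := Nat.mul_pos (Nat.succ_pos m) (Nat.two_pow_pos u)
    have hQ : q + 1 ≤ q + (m + 1) * 2 ^ u := Nat.add_le_add_left hpos q
    have hQ' : q ≤ q + (m + 1) * 2 ^ u := Nat.le_add_right _ _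
    have hK : ∀ N (ψ : (Fin N → Bool) → Prop), (SchUnion u ψ ∨ HasLP q ψ ∨ Cov q ψ) →
        KC u (q + (m + 1) * 2 ^ u) N ψ := by
      intro N ψ hψ
      rcases hψ with hψ | hψ | hψ
      · exact Or.inl hψ
      · exact Or.inr (hC.2.2 N (q + 1) _ ψ hQ (hC.1 N (q + 1) ψ (h2 N q ψ hψ)))
      · exact Or.inr (hC.2.2 N q _ ψ hQ' hψ)
    have hsub : SubC (KC u (q + (m + 1) * 2 ^ u)) := by
      intro N ψ T hψ
      rcases hψ with hψ | hψ
      · exact Or.inl (h3.1 N u ψ T hψ)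
      · exact Or.inr (hC.2.1 N _ ψ T hψ)
    let R' : RedK (KC u (q + (m + 1) * 2 ^ u)) (m * m) s :=
      { val := R.val
        ok := by
          intro v
          rcases R.ok v with h1 | ⟨N, ψ, c, hψ, h2⟩
          · exact Or.inl h1
          · exact Or.inr ⟨N, ψ, c, hK N ψ hψ, h2⟩ }
    obtain ⟨D, hD1, hD2⟩ := h1 (KC u (q + (m + 1) * 2 ^ u)) hsub (m * m) s R' r Y (Sat φ) α β hα
      ⟨x₁, hx₁⟩ hR
    have hcl : Nat.card {x : Fin (m * m) → Bool // Y x} ≤ Nat.card {x // D.val r x} :=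
      Nat.card_le_card_of_injective (fun x => ⟨x.1, hD2 x.1 x.2⟩) fun x x' hxx' =>
        Subtype.ext (Subtype.mk.inj hxx')
    have hdec := h5 m (m * m) u (q + (m + 1) * 2 ^ u) s finProdFinEquiv (Nat.le_add_left _ _) D r
      fun x hx => (hφ3 x).1 (hD1 x hx)
    calc Nat.card {x : Fin (m * m) → Bool // Y x} ^ 2 ≤ Nat.card {x // D.val r x} ^ 2 :=
          Nat.pow_le_pow_left hcl 2
      _ ≤ 3 ^ m * (s * (s + (q + (m + 1) * 2 ^ u))) := hdec
      _ = 3 ^ m * (s * (s + q + (m + 1) * 2 ^ u)) := by rw [Nat.add_assoc s q]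

end Pool.Agent.SFP
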