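import Pool.Agent.SFP.Defs

/-!
# Monotone reductions with permanent gates: the final statement
-/

set_option autoImplicit false

namespace Pool.Agent.SFP

open Finset Pool.Agent.STH Pool.Agent.STD Pool.Agent.STS Pool.Agent.SFR

/-- the class `KK u Q` is closed under restriction to subcubes -/
private theorem FinP_sub (h3 : St_Sbc) (u Q : ℕ) : SubC (KK u Q) := by
  intro N ψ T hψ
  rcases hψ with hψ | hψ
  · exact Or.inl (h3.1 N u ψ T hψ)
  · exact Or.inr (h3.2.1 N Q ψ T hψ)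

/-- a reduction for a class is a reduction for every larger class -/
private def FinP_mono {K K' : Cls} (h : ∀ N (ψ : (Fin N → Bool) → Prop), K N ψ → K' N ψ)
    {n s : ℕ} (R : RedK K n s) : RedK K' n s where
  val := R.val
  ok := by
    intro v
    rcases R.ok v with h1 | ⟨N, ψ, c, hψ, h2⟩
    · exact Or.inl h1
    · exact Or.inr ⟨N, ψ, c, h N ψ hψ, h2⟩

theorem thm_FinP (h1 : St_SupK) (h2 : St_Yan) (h3 : St_Sbc) (h4 : St_Enc) (h5 : St_Dec) :
    St_FinP := by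
  intro m
  obtain ⟨⟨φ, hφ1, hφ2, hφ3⟩, hcard⟩ := h4 m (m * m) finProdFinEquiv
  refine ⟨φ, hφ1, hφ2, ?_, ?_⟩
  · rw [← hcard]
    exact Nat.card_congr (Equiv.subtypeEquivRight hφ3)
  · intro u q s R r Y α β hα hR
    rcases isEmpty_or_nonempty {x : Fin (m * m) → Bool // Y x} with hY | hY
    · rw [Nat.card_of_isEmpty]
      exact Nat.zero_le _
    obtain ⟨⟨x₁, hx₁⟩⟩ := hY
    have hQ : q + 1 ≤ q + (m + 1) * 2 ^ u :=
      Nat.add_le_add_left (Nat.mul_pos (Nat.succ_pos m) (Nat.two_pow_pos u)) q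
    have hK : ∀ N (ψ : (Fin N → Bool) → Prop), SchUnion u ψ ∨ HasLP q ψ →
        KK u (q + (m + 1) * 2 ^ u) N ψ := by
      intro N ψ hψ
      rcases hψ with hψ | hψ
      · exact Or.inl hψ
      · exact Or.inr (h3.2.2 N (q + 1) _ ψ hQ (h2 N q ψ hψ))
    obtain ⟨D, hD1, hD2⟩ := h1 (KK u (q + (m + 1) * 2 ^ u)) (FinP_sub h3 u _) (m * m) s
      (FinP_mono (K := fun _ ψ => SchUnion u ψ ∨ HasLP q ψ) hK R) r Y (Sat φ) α β hα ⟨x₁, hx₁⟩ hR
    have hcl : Nat.card {x : Fin (m * m) → Bool // Y x} ≤ Nat.card {x // D.val r x} :=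
      Nat.card_le_card_of_injective (fun x => ⟨x.1, hD2 x.1 x.2⟩) fun x x' hxx' =>
        Subtype.ext (Subtype.mk.inj hxx')
    have hdec := h5 m (m * m) u (q + (m + 1) * 2 ^ u) s finProdFinEquiv (Nat.le_add_left _ _) D r
      fun x hx => (hφ3 x).1 (hD1 x hx)
    calc Nat.card {x : Fin (m * m) → Bool // Y x} ^ 2 ≤ Nat.card {x // D.val r x} ^ 2 :=
          Nat.pow_le_pow_left hcl 2
      _ ≤ 3 ^ m * (s * (s + (q + (m + 1) * 2 ^ u))) := hdec
      _ = 3 ^ m * (s * (s + q + (m + 1) * 2 ^ u)) := by rw [Nat.add_assoc s q]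

end Pool.Agent.SFP
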